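import Pool.Agent.Lib.MP_bd65ca_an_H.Defs

/-!
# Averages over the grid and closure properties

PROOF. All elementary.  `TP_mul`: the product of the polynomials.  `TP_wz`: `wz (u - a) = 2 - 2
cos (u - a)`,
`TrigAux.cos1` in Oct/Trig.lean.  `TP_mono`: multiply by `X ^ (M' - M)`.  `Av_cons`:
`Fin.consEquiv`.
`Dd_cons`: `Fin.prod_univ_succ`, `Ioi (0 : Fin (m + 1))` is the image of `univ` under `Fin.succ`
(`Fin.Ioi_zero_eq_map`, `Fin.Ioi_succ`).  `Sy_cons`: extend the permutation by `0 ↦ 0`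
(`Equiv.Perm.decomposeFin` or `Fin.cons`-type equivalence); `Sy_swap`: `Equiv.swap 0 1`.
`TPn_head`: `Function.update (Fin.cons t v) 0 s = Fin.cons s v`; `TPn_cons`:
`Fin.cons_update`.
-/

open MeasureTheory FourierTransform Pointwise Set Finset Matrix
open scoped RealInnerProductSpace

namespace Pool.Agent.MPbd65ca.Hm

open Pool.Agent.MPbd65ca.Oct Pool.Agent.MPbd65ca.Bp

theorem TP_mono {M M' : ℕ} (h : M ≤ M') {f : ℝ → ℝ} (hf : TP M f) : TP M' f := by
  obtain ⟨p, hp, hpu⟩ := hf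
  refine ⟨Polynomial.X ^ (M' - M) * p, ?_, fun u => ?_⟩
  · refine Polynomial.natDegree_mul_le.trans ?_
    rw [Polynomial.natDegree_X_pow]
    omega
  · rw [Polynomial.eval_mul, ← hpu, Polynomial.eval_pow, Polynomial.eval_X,
      ← Complex.exp_nat_mul, mul_left_comm (Complex.exp _), ← Complex.exp_add, Nat.cast_sub h]
    congr 2
    ring

theorem TP_mul {M M' : ℕ} {f g : ℝ → ℝ} (hf : TP M f) (hg : TP M' g) :
    TP (M + M') (fun u => f u * g u) := by
  obtain ⟨p, hp, hpu⟩ := hf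
  obtain ⟨q, hq, hqu⟩ := hg
  refine ⟨p * q, Polynomial.natDegree_mul_le.trans (by omega), fun u => ?_⟩
  rw [Polynomial.eval_mul, ← hpu, ← hqu, mul_mul_mul_comm, ← Complex.exp_add]
  push_cast
  congr 2
  ring

theorem TP_prod {ι : Type*} (s : Finset ι) {M : ℕ} {f : ι → ℝ → ℝ} (hf : ∀ i ∈ s, TP M (f i)) :
    TP (s.card * M) (fun u => ∏ i ∈ s, f i u) := by
  classical
  induction s using Finset.induction_on with
  | empty => simpa using TP.const (0 * M) 1
  | insert i s hi ih =>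
    simp only [Finset.prod_insert hi]
    rw [Finset.card_insert_of_notMem hi, Nat.succ_mul, Nat.add_comm]
    exact TP_mul (hf i (mem_insert_self i s)) (ih fun j hj => hf j (mem_insert_of_mem hj))

theorem TP_wz (a : ℝ) : TP 1 (fun u => wz (u - a)) ∧ TP 1 (fun u => wz (a - u)) := by
  have h1 : TP 1 (fun u => wz (u - a)) := by
    have h := (TP.const 1 2).add (TrigAux.constMul (-2)
      (TrigAux.cos1 (M := 1) (k := 1) (by simp) (-a)))
    refine Eq.mp (congrArg (TP 1) (funext fun u => ?_)) h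
    simp only [wz, Int.cast_one, one_mul, ← sub_eq_add_neg, neg_mul]
  refine ⟨h1, Eq.mp (congrArg (TP 1) (funext fun u => ?_)) h1⟩
  rw [wz, wz, ← Real.cos_neg, neg_sub]

theorem wz_nonneg (u : ℝ) : 0 ≤ wz u := by
  have := Real.cos_le_one u
  rw [wz]
  linarith

theorem wz_neg (u : ℝ) : wz (-u) = wz u := by
  rw [wz, wz, Real.cos_neg]

theorem wz_zero : wz 0 = 0 := by
  rw [wz, Real.cos_zero]
  norm_num

theorem wz_le (u : ℝ) : wz u ≤ u ^ 2 := by
  have := Real.one_sub_sq_div_two_le_cos (x := u)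
  rw [wz]
  linarith

theorem Dd_nonneg {m : ℕ} (v : Fin m → ℝ) : 0 ≤ Dd v := by
  exact Finset.prod_nonneg fun i _ => Finset.prod_nonneg fun j _ => wz_nonneg _

theorem Dd_cons {m : ℕ} (t : ℝ) (v : Fin m → ℝ) :
    Dd (Fin.cons t v : Fin (m + 1) → ℝ) = (∏ i, wz (t - v i)) * Dd v := by
  rw [Dd, Fin.prod_univ_succ, Fin.prod_Ioi_zero]
  simp only [Fin.prod_Ioi_succ, Fin.cons_zero, Fin.cons_succ]
  rfl

theorem Dl_cons {m : ℕ} (t : ℝ) (v : Fin m → ℝ) :
    Dl (Fin.cons t v : Fin (m + 1) → ℝ) = (∏ i, (t - v i)) * Dl v := by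
  rw [Dl, Fin.prod_univ_succ, Fin.prod_Ioi_zero]
  simp only [Fin.prod_Ioi_succ, Fin.cons_zero, Fin.cons_succ]
  rfl

private theorem nsq_exp (a b : ℝ) :
    ‖Complex.exp (Complex.I * a) - Complex.exp (Complex.I * b)‖ ^ 2 = wz (a - b) := by
  rw [← Complex.normSq_eq_norm_sq, Complex.normSq_apply, mul_comm Complex.I, mul_comm Complex.I,
    Complex.sub_re, Complex.sub_im, Complex.exp_ofReal_mul_I_re, Complex.exp_ofReal_mul_I_re,
    Complex.exp_ofReal_mul_I_im, Complex.exp_ofReal_mul_I_im, wz, Real.cos_sub]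
  have h1 := Real.cos_sq_add_sin_sq a
  have h2 := Real.cos_sq_add_sin_sq b
  linear_combination h1 + h2

theorem Dd_perm {m : ℕ} (σ : Equiv.Perm (Fin m)) (v : Fin m → ℝ) :
    Dd (fun i => v (σ i)) = Dd v := by
  have h := σ.prod_Ioi_comp_eq_sign_mul_prod
    (f := fun i j => Complex.exp (Complex.I * v i) - Complex.exp (Complex.I * v j))
    fun i j => (neg_sub _ _).symm
  have h2 := congrArg (fun z : ℂ => ‖z‖ ^ 2) h
  simp only [norm_mul, norm_prod, mul_pow, ← Finset.prod_pow, nsq_exp] at h2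
  rw [Dd, Dd, h2]
  rcases Int.units_eq_one_or (Equiv.Perm.sign σ) with h3 | h3 <;> rw [h3] <;> simp

theorem Av_cons (L m : ℕ) (F : (Fin (m + 1) → ℝ) → ℝ) : Av L (m + 1) F =
    1 / (L : ℝ) * ∑ l ∈ range L, Av L m fun v => F (Fin.cons (2 * Real.pi * l / L) v) := by
  have h : ∀ X : Fin (m + 1) → Fin L, (fun i => 2 * Real.pi * (X i : ℕ) / L : Fin (m + 1) → ℝ) =
      Fin.cons (2 * Real.pi * (X 0 : ℕ) / L) (fun i => 2 * Real.pi * (X i.succ : ℕ) / L) := by
    intro X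
    funext i
    refine Fin.cases ?_ (fun j => ?_) i <;> simp
  simp only [Av]
  rw [← Fin.sum_univ_eq_sum_range (fun l => 1 / (L : ℝ) ^ m * ∑ X : Fin m → Fin L,
    F (Fin.cons (2 * Real.pi * l / L) fun i => 2 * Real.pi * (X i : ℕ) / L)) L,
    ← Finset.mul_sum, ← mul_assoc, pow_succ, one_div_mul_one_div, mul_comm (L : ℝ)]
  congr 1
  rw [← (Fin.consEquiv (fun _ : Fin (m + 1) => Fin L)).sum_comp, Fintype.sum_prod_type]
  refine Finset.sum_congr rfl fun l _ => Finset.sum_congr rfl fun X _ => ?_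
  rw [h]
  simp

theorem Av_zero (L : ℕ) (F : (Fin 0 → ℝ) → ℝ) : Av L 0 F = F 0 := by
  rw [Av, pow_zero, div_one, one_mul, Fintype.sum_unique]
  exact congrArg F (Subsingleton.elim _ _)

theorem Av_mono {L m : ℕ} {F G : (Fin m → ℝ) → ℝ} (h : ∀ u, F u ≤ G u) :
    Av L m F ≤ Av L m G := by
  exact mul_le_mul_of_nonneg_left (Finset.sum_le_sum fun X _ => h _) (by positivity)

theorem Av_smul {L m : ℕ} (c : ℝ) (F : (Fin m → ℝ) → ℝ) :
    Av L m (fun u => c * F u) = c * Av L m F := by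
  rw [Av, Av, ← Finset.mul_sum, mul_left_comm]

theorem Av_sub {L m : ℕ} (F G : (Fin m → ℝ) → ℝ) :
    Av L m (fun u => F u - G u) = Av L m F - Av L m G := by
  rw [Av, Av, Av, Finset.sum_sub_distrib, mul_sub]

theorem Av_perm {L m : ℕ} (σ : Equiv.Perm (Fin m)) (F : (Fin m → ℝ) → ℝ) :
    Av L m (fun u => F (fun i => u (σ i))) = Av L m F := by
  rw [Av, Av, ← (Equiv.arrowCongr σ (Equiv.refl (Fin L))).sum_comp]
  simp

theorem TP_Av {L m M : ℕ} {F : ℝ → (Fin m → ℝ) → ℝ} (h : ∀ v, TP M (fun t => F t v)) :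
    TP M (fun t => Av L m (F t)) := by
  exact TrigAux.constMul _ (TrigAux.sum _ fun X _ => h _)

theorem TPn_head {m M : ℕ} {g : (Fin (m + 1) → ℝ) → ℝ} (hg : TPn M g) (v : Fin m → ℝ) :
    TP M (fun t => g (Fin.cons t v)) := by
  have h := hg (Fin.cons 0 v) 0
  simpa only [Fin.update_cons_zero] using h

theorem TPn_cons {m M : ℕ} {g : (Fin (m + 1) → ℝ) → ℝ} (hg : TPn M g) (a : ℝ) :
    TPn M (fun v => g (Fin.cons a v)) := by
  intro v i
  simp only [Fin.cons_update]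
  exact hg _ _

theorem Sy_cons {m : ℕ} {g : (Fin (m + 1) → ℝ) → ℝ} (hg : Sy g) (a : ℝ) :
    Sy (fun v => g (Fin.cons a v)) := by
  intro σ v
  refine Eq.trans (congrArg g (funext fun i => ?_))
    (hg (Equiv.Perm.decomposeFin.symm (0, σ)) (Fin.cons a v))
  refine Fin.cases ?_ (fun j => ?_) i
  · rw [Equiv.Perm.decomposeFin_symm_apply_zero]
    rfl
  · rw [Equiv.Perm.decomposeFin_symm_apply_succ, Equiv.swap_self, Equiv.refl_apply]
    rfl

theorem Sy_swap {m : ℕ} {g : (Fin (m + 2) → ℝ) → ℝ} (hg : Sy g) (a b : ℝ) (y : Fin m → ℝ) :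
    g (Fin.cons a (Fin.cons b y)) = g (Fin.cons b (Fin.cons a y)) := by
  refine Eq.trans (congrArg g (funext fun i => ?_))
    (hg (Equiv.swap 0 1) (Fin.cons b (Fin.cons a y)))
  refine Fin.cases ?_ (fun j => ?_) i
  · rw [Equiv.swap_apply_left]
    rfl
  · refine Fin.cases ?_ (fun k => ?_) j
    · rw [Fin.succ_zero_eq_one, Equiv.swap_apply_right]
      rfl
    · rw [Equiv.swap_apply_of_ne_of_ne (by simp) (by simp [Fin.ext_iff])]
      rfl

end Pool.Agent.MPbd65ca.Hm
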