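import Pool.Agent.Lib.MP_bd65ca_an_F.PFc
import Mathlib.Analysis.Matrix.Spectrum

/-!
# The Turán problem for the unit balls of the operator norm on Hermitian matrices: definitions
-/

open MeasureTheory FourierTransform Pointwise Set Finset Matrix
open scoped RealInnerProductSpace

namespace Pool.Agent.MPbd65ca.Hm

open Pool.Agent.MPbd65ca.Oct Pool.Agent.MPbd65ca.Bp

/-! ## Legendre polynomials -/

/-- The monic Legendre polynomials. -/
noncomputable def Lg (j : ℕ) : Polynomial ℝ :=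
  Polynomial.C ((j.factorial : ℝ) / (2 * j).factorial) *
    Polynomial.derivative^[j] ((Polynomial.X ^ 2 - 1) ^ j)

/-- Their squared norms. -/
noncomputable def hj (j : ℕ) : ℝ := ∫ x in (-1 : ℝ)..1, (Lg j).eval x ^ 2

/-- The sums of the squares over the integers. -/
noncomputable def Sj (N j : ℕ) : ℝ :=
  ∑ k ∈ range (2 * N + j), ((N : ℝ) ^ j * (Lg j).eval ((k : ℝ) / N - 1)) ^ 2

/-- The constants of the discrete inequalities. -/
noncomputable def lamN (N j : ℕ) : ℝ := (j.factorial : ℝ) ^ 2 / Sj N j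

/-- The constants of the continuous inequalities. -/
noncomputable def lam (j : ℕ) : ℝ := 2 * (j.factorial : ℝ) ^ 2 / (Real.pi ^ (2 * j) * hj j)

/-! ## The discrete side -/

/-- The squared distance of `e ^ (i u)` and `1`. -/
noncomputable def wz (u : ℝ) : ℝ := 2 - 2 * Real.cos u

/-- The squared modulus of the Vandermonde determinant of the points `e ^ (i v)`. -/
noncomputable def Dd {m : ℕ} (v : Fin m → ℝ) : ℝ := ∏ i, ∏ j ∈ Ioi i, wz (v i - v j)

/-- The Vandermonde determinant (up to the sign). -/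
noncomputable def Dl {m : ℕ} (v : Fin m → ℝ) : ℝ := ∏ i, ∏ j ∈ Ioi i, (v i - v j)

/-- The average over the grid with `L` points in every variable. -/
noncomputable def Av (L m : ℕ) (F : (Fin m → ℝ) → ℝ) : ℝ :=
  1 / (L : ℝ) ^ m * ∑ X : Fin m → Fin L, F fun i => 2 * Real.pi * (X i : ℕ) / L

/-- Trigonometric polynomials of degree at most `M` in every variable. -/
def TPn (M : ℕ) {m : ℕ} (g : (Fin m → ℝ) → ℝ) : Prop :=
  ∀ u i, TP M (fun t => g (Function.update u i t))

/-- Symmetric functions. -/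
def Sy {m : ℕ} (g : (Fin m → ℝ) → ℝ) : Prop :=
  ∀ (σ : Equiv.Perm (Fin m)) u, g (fun i => u (σ i)) = g u

/-- The cube. -/
def cube (n : ℕ) (r : ℝ) : Set (E n) := {x | ∀ i, |x i| ≤ r}

/-- The periodization as a function on `Fin (d + 1) → ℝ`. -/
noncomputable def PG (d N : ℕ) (F : E (d + 1) → ℝ) (u : Fin (d + 1) → ℝ) : ℝ :=
  PF d N F (fun i => u i.castSucc) (u (Fin.last d))

/-! ## Hermitian matrices -/

/-- Square arrays of complex numbers. -/
abbrev MM (n : ℕ) := Fin n → Fin n → ℂ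

/-- The Hermitian matrix with the coordinates `x` (isometric for the trace inner product). -/
noncomputable def hm {n : ℕ} (x : E (n * n)) : MM n := fun i j =>
  if i = j then ((x (finProdFinEquiv (i, i)) : ℝ) : ℂ)
  else if i < j then
    (((x (finProdFinEquiv (i, j)) : ℝ) : ℂ) + Complex.I * ((x (finProdFinEquiv (j, i)) : ℝ) : ℂ)) /
      ((Real.sqrt 2 : ℝ) : ℂ)
  else
    (((x (finProdFinEquiv (j, i)) : ℝ) : ℂ) - Complex.I * ((x (finProdFinEquiv (i, j)) : ℝ) : ℂ)) /
      ((Real.sqrt 2 : ℝ) : ℂ)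

/-- The coordinates of a Hermitian matrix. -/
noncomputable def hc {n : ℕ} (A : MM n) : E (n * n) :=
  WithLp.toLp 2 fun q =>
    if (finProdFinEquiv.symm q).1 = (finProdFinEquiv.symm q).2 then
      (A (finProdFinEquiv.symm q).1 (finProdFinEquiv.symm q).2).re
    else if (finProdFinEquiv.symm q).1 < (finProdFinEquiv.symm q).2 then
      Real.sqrt 2 * (A (finProdFinEquiv.symm q).1 (finProdFinEquiv.symm q).2).re
    else Real.sqrt 2 * (A (finProdFinEquiv.symm q).2 (finProdFinEquiv.symm q).1).im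

/-- The unit ball of the operator norm: `|v* A v| ≤ v* v` for all `v`. -/
def hb (n : ℕ) : Set (E (n * n)) :=
  {x | ∀ v : Fin n → ℂ, |(star v ⬝ᵥ (Matrix.of (hm x)).mulVec v).re| ≤ (star v ⬝ᵥ v).re}

/-- Conjugation. -/
def cj {n : ℕ} (W A : Matrix (Fin n) (Fin n) ℂ) : MM n := fun i j => (W * A * Wᴴ) i j

/-- Real diagonal matrices. -/
def dg {n : ℕ} (u : Fin n → ℝ) : Matrix (Fin n) (Fin n) ℂ := Matrix.diagonal fun i => (u i : ℂ)

/-- The matrix with the first row `(a, w*)` and the block `B`. -/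
def bord {n : ℕ} (a : ℝ) (w : Fin n → ℂ) (B : MM n) : MM (n + 1) :=
  Fin.cons (Fin.cons (a : ℂ) fun j => star (w j)) fun i => Fin.cons (w i) (B i)

/-- The embedding of the diagonal matrices given by a unitary matrix. -/
noncomputable def Lh {n : ℕ} (W : Matrix (Fin n) (Fin n) ℂ) (u : E n) : E (n * n) :=
  hc (cj W (dg fun i => u i))

/-- The transposed map: the diagonal of `W* A W`. -/
noncomputable def Lk {n : ℕ} (W : Matrix (Fin n) (Fin n) ℂ) (x : E (n * n)) : E n :=
  WithLp.toLp 2 fun i => ((Wᴴ * Matrix.of (hm x) * W) i i).re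

/-- The squared norm. -/
noncomputable def nz {n : ℕ} (z : Fin n → ℂ) : ℝ := ∑ i, ‖z i‖ ^ 2

/-- The square root of `1 + ‖z‖ ^ 2`. -/
noncomputable def sz {n : ℕ} (z : Fin n → ℂ) : ℝ := Real.sqrt (1 + nz z)

/-- The matrix `V = 1 - z z* / (s (s + 1))`. -/
noncomputable def Vz {n : ℕ} (z : Fin n → ℂ) : Matrix (Fin n) (Fin n) ℂ :=
  1 - ((1 / (sz z * (sz z + 1)) : ℝ) : ℂ) • Matrix.vecMulVec z (star z)

/-- The unitary matrix with the first column `(1, z) / s`. -/
noncomputable def Wz {n : ℕ} (z : Fin n → ℂ) : Matrix (Fin (n + 1)) (Fin (n + 1)) ℂ :=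
  Matrix.of (Fin.cons (Fin.cons ((1 / sz z : ℝ) : ℂ) fun j => -(star (z j) / ((sz z : ℝ) : ℂ)))
    fun i => Fin.cons (z i / ((sz z : ℝ) : ℂ)) fun j => Vz z i j)

/-- The constant of the Weyl integration formula (times `n!`). -/
noncomputable def Om (n : ℕ) : ℝ := ∏ k ∈ range n, (2 * Real.pi) ^ k / k.factorial

end Pool.Agent.MPbd65ca.Hm
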