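import Pool.Agent.Lib.MP_bd65ca_an_H.HL

/-!
# The unit ball of the operator norm is a body

PROOF. Closed: `hb_closed`.  Bounded: for `x ∈ hb n`, `A = hm x`: `|A i i| ≤ 1` (`v = e_i`), and for
`i ≠ j` the vectors `e_i + e_j`, `e_i - e_j` give `|4 Re A i j| ≤ 4`, the vectors `e_i + I e_j`,
`e_i - I e_j` give `|4 Im A i j| ≤ 4`; with `norm_hm` `‖x‖ ^ 2 ≤ 2 n ^ 2`.  Convex and symmetric:
`hm` is
real linear (`hm_add`, `hm_smul`), `|Re v* A v|` is convex.  Interior: the unit ball lies in `hb n`: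
`|v* A v| ≤ (∑ ‖A i j‖ ^ 2) ^ (1/2) * v* v` by Cauchy-Schwarz, `norm_hm`.
-/

open MeasureTheory FourierTransform Pointwise Set Finset Matrix
open scoped RealInnerProductSpace

namespace Pool.Agent.MPbd65ca.Hm

open Pool.Agent.MPbd65ca.Oct Pool.Agent.MPbd65ca.Bp

variable {n : ℕ}

/-- The quadratic form. -/
private noncomputable def hbdq (x : E (n * n)) (v : Fin n → ℂ) : ℝ :=
  (star v ⬝ᵥ (Matrix.of (hm x)).mulVec v).re

private theorem hbdq_sum (x : E (n * n)) (v : Fin n → ℂ) :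
    hbdq x v = (∑ i, ∑ j, star (v i) * (hm x i j * v j)).re := by
  unfold hbdq
  congr 1
  unfold dotProduct Matrix.mulVec dotProduct
  refine Finset.sum_congr rfl fun i _ => ?_
  rw [Finset.mul_sum]
  rfl

private theorem hbdq_add (x y : E (n * n)) (v : Fin n → ℂ) :
    hbdq (x + y) v = hbdq x v + hbdq y v := by
  rw [hbdq_sum, hbdq_sum, hbdq_sum, ← Complex.add_re, ← Finset.sum_add_distrib]
  congr 1
  refine Finset.sum_congr rfl fun i _ => ?_
  rw [← Finset.sum_add_distrib]
  refine Finset.sum_congr rfl fun j _ => ?_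
  rw [hm_add]
  simp only [Pi.add_apply]
  ring

private theorem hbdq_smul (c : ℝ) (x : E (n * n)) (v : Fin n → ℂ) :
    hbdq (c • x) v = c * hbdq x v := by
  rw [hbdq_sum, hbdq_sum, ← Complex.re_ofReal_mul, Finset.mul_sum]
  congr 1
  refine Finset.sum_congr rfl fun i _ => ?_
  rw [Finset.mul_sum]
  refine Finset.sum_congr rfl fun j _ => ?_
  rw [hm_smul]
  ring

private theorem hbd_vv (v : Fin n → ℂ) : (star v ⬝ᵥ v).re = ∑ i, ‖v i‖ ^ 2 := by
  unfold dotProduct
  rw [Complex.re_sum]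
  refine Finset.sum_congr rfl fun i _ => ?_
  have h : star v i * v i = ((‖v i‖ ^ 2 : ℝ) : ℂ) := by
    rw [Pi.star_apply, RCLike.star_def, Complex.conj_mul']
    push_cast
    rfl
  rw [h, Complex.ofReal_re]

private theorem hbd_mem {x : E (n * n)} : x ∈ hb n ↔ ∀ v, |hbdq x v| ≤ ∑ i, ‖v i‖ ^ 2 := by
  unfold hb hbdq
  rw [Set.mem_ofPred_eq]
  simp only [hbd_vv]

/-- Cauchy-Schwarz. -/
private theorem hbd_cs (x : E (n * n)) (v : Fin n → ℂ) :
    |hbdq x v| ≤ ‖x‖ * ∑ i, ‖v i‖ ^ 2 := by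
  have h1 : |hbdq x v| ≤ ∑ i, ∑ j, ‖hm x i j‖ * (‖v i‖ * ‖v j‖) := by
    rw [hbdq_sum]
    refine (Complex.abs_re_le_norm _).trans ((norm_sum_le _ _).trans ?_)
    refine Finset.sum_le_sum fun i _ => (norm_sum_le _ _).trans ?_
    refine Finset.sum_le_sum fun j _ => le_of_eq ?_
    rw [norm_mul, norm_mul, norm_star]
    ring
  have h2 : (∑ i, ∑ j, ‖hm x i j‖ * (‖v i‖ * ‖v j‖)) ^ 2 ≤ (‖x‖ * ∑ i, ‖v i‖ ^ 2) ^ 2 := by
    rw [← Fintype.sum_prod_type' (f := fun i j => ‖hm x i j‖ * (‖v i‖ * ‖v j‖))]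
    refine (Finset.sum_mul_sq_le_sq_mul_sq _ _ _).trans (le_of_eq ?_)
    rw [Fintype.sum_prod_type' (f := fun i j => ‖hm x i j‖ ^ 2), norm_hm, mul_pow]
    congr 1
    rw [Fintype.sum_prod_type' (f := fun i j => (‖v i‖ * ‖v j‖) ^ 2), pow_two (∑ i, ‖v i‖ ^ 2),
      Finset.sum_mul_sum]
    refine Finset.sum_congr rfl fun i _ => Finset.sum_congr rfl fun j _ => ?_
    ring
  refine h1.trans (le_of_sq_le_sq h2 ?_)
  exact mul_nonneg (norm_nonneg _) (Finset.sum_nonneg fun i _ => sq_nonneg _)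

private theorem hbd_diag {x : E (n * n)} (hx : x ∈ hb n) (i : Fin n) : |(hm x i i).re| ≤ 1 := by
  have h := hbd_mem.1 hx (Pi.single i 1)
  have h1 : hbdq x (Pi.single i 1) = (hm x i i).re := by
    unfold hbdq
    rw [Matrix.mulVec_single_one]
    simp [single_dotProduct]
  have h2 : ∑ j, ‖(Pi.single i 1 : Fin n → ℂ) j‖ ^ 2 = 1 := by
    rw [Finset.sum_eq_single i]
    · simp
    · intro j _ hj
      simp [hj]
    · simp
  rw [h1, h2] at h
  exact h

private theorem hbd_off {x : E (n * n)} (hx : x ∈ hb n) {i j : Fin n} (hij : i ≠ j) {u : ℂ}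
    (hu : ‖u‖ = 1) : |(u * hm x i j).re| ≤ 2 := by
  have h := hbd_mem.1 hx (Pi.single i 1 + Pi.single j u)
  have hA : hm x j i = star (hm x i j) := ((hm_herm x).apply j i).symm
  have h1 : hbdq x (Pi.single i 1 + Pi.single j u) =
      (hm x i i).re + 2 * (u * hm x i j).re + (hm x j j).re := by
    have hv : star (Pi.single i 1 + Pi.single j u : Fin n → ℂ) =
        Pi.single i 1 + Pi.single j (star u) := by
      rw [star_add, ← Pi.single_star, ← Pi.single_star, star_one]
    have huu : star u * u = 1 := by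
      rw [RCLike.star_def, Complex.conj_mul', hu]
      norm_num
    have h3 : star (Pi.single i 1 + Pi.single j u : Fin n → ℂ) ⬝ᵥ
        (Matrix.of (hm x)).mulVec (Pi.single i 1 + Pi.single j u) =
        hm x i i + (u * hm x i j + star (u * hm x i j)) + hm x j j := by
      rw [hv, Matrix.mulVec_add, Matrix.mulVec_single_one, Matrix.mulVec_single,
        dotProduct_add, add_dotProduct, add_dotProduct, single_dotProduct, single_dotProduct,
        single_dotProduct, single_dotProduct]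
      simp only [Matrix.col_apply, Matrix.of_apply, Pi.smul_apply, MulOpposite.smul_eq_mul_unop,
        MulOpposite.unop_op, one_mul]
      rw [hA, star_mul']
      linear_combination (hm x j j) * huu
    unfold hbdq
    rw [h3, Complex.add_re, Complex.add_re, Complex.add_re, RCLike.star_def, Complex.conj_re]
    ring
  have h2 : ∑ k, ‖(Pi.single i 1 + Pi.single j u : Fin n → ℂ) k‖ ^ 2 = 2 := by
    have h4 : ∀ k, ‖(Pi.single i 1 + Pi.single j u : Fin n → ℂ) k‖ ^ 2 =
        (if k = i then 1 else 0) + (if k = j then 1 else 0) := by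
      intro k
      rw [Pi.add_apply]
      by_cases h5 : k = i
      · subst h5
        rw [if_pos rfl, if_neg hij, Pi.single_eq_same, Pi.single_eq_of_ne hij]
        simp
      · rw [if_neg h5, Pi.single_eq_of_ne h5]
        by_cases h6 : k = j
        · subst h6
          rw [if_pos rfl, Pi.single_eq_same, zero_add, hu]
          norm_num
        · rw [if_neg h6, Pi.single_eq_of_ne h6]
          simp
    rw [Finset.sum_congr rfl fun k _ => h4 k, Finset.sum_add_distrib]
    simp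
    norm_num
  rw [h1, h2] at h
  have h5 := abs_le.1 h
  have h6 := abs_le.1 (hbd_diag hx i)
  have h7 := abs_le.1 (hbd_diag hx j)
  rw [abs_le]
  constructor <;> linarith [h5.1, h5.2, h6.1, h6.2, h7.1, h7.2]

private theorem hbd_entry {x : E (n * n)} (hx : x ∈ hb n) (i j : Fin n) :
    ‖hm x i j‖ ^ 2 ≤ 8 := by
  by_cases hij : i = j
  · subst hij
    have h1 : (hm x i i).im = 0 := by
      unfold hm
      rw [if_pos rfl, Complex.ofReal_im]
    have h2 := abs_le.1 (hbd_diag hx i)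
    rw [← Complex.normSq_eq_norm_sq, Complex.normSq_apply, h1]
    nlinarith [h2.1, h2.2]
  · have h1 := hbd_off hx hij (u := 1) (by simp)
    have h2 := hbd_off hx hij (u := Complex.I) (by simp)
    rw [one_mul] at h1
    rw [Complex.I_mul_re, abs_neg] at h2
    have h3 := abs_le.1 h1
    have h4 := abs_le.1 h2
    rw [← Complex.normSq_eq_norm_sq, Complex.normSq_apply]
    nlinarith [h3.1, h3.2, h4.1, h4.2]

private theorem hbd_bdd {x : E (n * n)} (hx : x ∈ hb n) : ‖x‖ ≤ Real.sqrt (8 * n ^ 2) := by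
  refine Real.le_sqrt_of_sq_le ?_
  rw [← norm_hm]
  refine (Finset.sum_le_sum fun i _ => Finset.sum_le_sum fun j _ => hbd_entry hx i j).trans ?_
  simp only [Finset.sum_const, Finset.card_univ, Fintype.card_fin, nsmul_eq_mul]
  nlinarith

theorem isBody_hb (n : ℕ) : IsBody (hb n) := by
  refine ⟨?_, ?_, ⟨0, ?_⟩, fun x hx => ?_⟩
  · refine (isCompact_closedBall (0 : E (n * n)) (Real.sqrt (8 * n ^ 2))).of_isClosed_subset
      (hb_closed n) fun x hx => ?_
    rw [mem_closedBall_zero_iff]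
    exact hbd_bdd hx
  · intro x hx y hy s t hs ht hst
    rw [hbd_mem] at hx hy ⊢
    intro v
    rw [hbdq_add, hbdq_smul, hbdq_smul]
    refine (abs_add_le _ _).trans ?_
    rw [abs_mul, abs_mul, abs_of_nonneg hs, abs_of_nonneg ht]
    have h1 := mul_le_mul_of_nonneg_left (hx v) hs
    have h2 := mul_le_mul_of_nonneg_left (hy v) ht
    have h3 : s * ∑ i, ‖v i‖ ^ 2 + t * ∑ i, ‖v i‖ ^ 2 = ∑ i, ‖v i‖ ^ 2 := by
      rw [← add_mul, hst, one_mul]
    linarith
  · rw [mem_interior]
    refine ⟨Metric.ball 0 1, fun x hx => ?_, Metric.isOpen_ball, by simp⟩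
    rw [mem_ball_zero_iff] at hx
    rw [hbd_mem]
    intro v
    refine (hbd_cs x v).trans ?_
    exact mul_le_of_le_one_left (Finset.sum_nonneg fun i _ => sq_nonneg _) hx.le
  · rw [hbd_mem] at hx ⊢
    intro v
    have h : -x = (-1 : ℝ) • x := by rw [neg_one_smul]
    rw [h, hbdq_smul, neg_one_mul, abs_neg]
    exact hx v

end Pool.Agent.MPbd65ca.Hm
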