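import Pool.Agent.Lib.MP_bd65ca_an_H.Leg

/-!
# The integral of the squared Vandermonde determinant over the cube

PROOF. `Dl u ^ 2 = det (vandermonde u) ^ 2` (`Matrix.det_vandermonde`, the factors differ by
signs), and
the determinant of `(Lg j).eval (u i)` is the same
(`Matrix.det_eval_matrixOfPolynomials_eq_det_vandermonde`
with `Lg_natDegree`, `Lg_monic`).  Expand both factors over permutations (`Matrix.det_apply`):
`∑ σ, ∑ τ, sign σ * sign τ * ∏ i, (Lg (σ i)).eval (u i) * (Lg (τ i)).eval (u i)`; integrate over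
the cube
(Fubini for products: `MeasureTheory.integral_fintype_prod_eq_prod` with the measure
`volume.restrict (Icc (-1) 1)` in each variable; the cube is `Set.pi univ`,
`Measure.restrict_pi_pi`):
`∏ i, ∫ x in -1..1, Lg (σ i) * Lg (τ i)`, which is `0` unless `σ = τ` (`Lg_orth`), and `∏ j, hj j`
if
`σ = τ`; there are `n!` permutations.
-/

open MeasureTheory FourierTransform Pointwise Set Finset Matrix
open scoped RealInnerProductSpace

namespace Pool.Agent.MPbd65ca.Hm

open Pool.Agent.MPbd65ca.Oct Pool.Agent.MPbd65ca.Bp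

private theorem Gram_set (n : ℕ) : {u : Fin n → ℝ | ∀ i, |u i| ≤ 1} =
    Set.pi Set.univ (fun _ => Set.Icc (-1 : ℝ) 1) := by
  ext u
  simp only [Set.mem_ofPred_eq, Set.mem_pi, Set.mem_univ, true_implies, Set.mem_Icc, abs_le]

private theorem Gram_restrict' (n : ℕ) :
    (volume : Measure (Fin n → ℝ)).restrict {u : Fin n → ℝ | ∀ i, |u i| ≤ 1} =
      Measure.pi fun _ : Fin n => (volume.restrict (Set.Icc (-1 : ℝ) 1)) := by
  rw [Gram_set, volume_pi, Measure.restrict_pi_pi]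

private theorem Gram_restrict (n : ℕ) (f : (Fin n → ℝ) → ℝ) :
    ∫ u : Fin n → ℝ in {u | ∀ i, |u i| ≤ 1}, f u =
      ∫ u, f u ∂(Measure.pi fun _ : Fin n => (volume.restrict (Set.Icc (-1 : ℝ) 1))) := by
  rw [Gram_restrict']

private theorem Gram_det {n : ℕ} (u : Fin n → ℝ) : (Matrix.vandermonde u).det =
    ∑ σ : Equiv.Perm (Fin n), ((Equiv.Perm.sign σ : ℤ) : ℝ) *
      ∏ i, (Lg (σ i : ℕ)).eval (u i) := by
  rw [Matrix.det_eval_matrixOfPolynomials_eq_det_vandermonde u (fun j => Lg (j : ℕ))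
    (fun j => Lg_natDegree j) (fun j => Lg_monic j), ← Matrix.det_transpose, Matrix.det_apply']
  rfl

private theorem Gram_sq {n : ℕ} (u : Fin n → ℝ) : Dl u ^ 2 = (Matrix.vandermonde u).det ^ 2 := by
  rw [Dl, Matrix.det_vandermonde, ← Finset.prod_pow, ← Finset.prod_pow]
  refine Finset.prod_congr rfl fun i _ => ?_
  rw [← Finset.prod_pow, ← Finset.prod_pow]
  refine Finset.prod_congr rfl fun j _ => ?_
  ring

private theorem Gram_expand {n : ℕ} (u : Fin n → ℝ) : Dl u ^ 2 =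
    ∑ σ : Equiv.Perm (Fin n), ∑ τ : Equiv.Perm (Fin n),
      (((Equiv.Perm.sign σ : ℤ) : ℝ) * ((Equiv.Perm.sign τ : ℤ) : ℝ)) *
        ∏ i, ((Lg (σ i : ℕ)).eval (u i) * (Lg (τ i : ℕ)).eval (u i)) := by
  rw [Gram_sq, pow_two, Gram_det, Finset.sum_mul_sum]
  refine Finset.sum_congr rfl fun σ _ => Finset.sum_congr rfl fun τ _ => ?_
  rw [Finset.prod_mul_distrib]
  ring

private theorem Gram_int {n : ℕ} (σ τ : Equiv.Perm (Fin n)) :
    Integrable (fun u : Fin n → ℝ =>
      ∏ i, ((Lg (σ i : ℕ)).eval (u i) * (Lg (τ i : ℕ)).eval (u i)))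
      (Measure.pi fun _ : Fin n => (volume.restrict (Set.Icc (-1 : ℝ) 1))) := by
  refine Integrable.fintype_prod_dep
    (f := fun (i : Fin n) (x : ℝ) => (Lg (σ i : ℕ)).eval x * (Lg (τ i : ℕ)).eval x)
    (fun i => ?_)
  exact ((Lg (σ i : ℕ)).continuous.mul (Lg (τ i : ℕ)).continuous).integrableOn_Icc

private theorem Gram_Icc (f : ℝ → ℝ) :
    ∫ x, f x ∂(volume.restrict (Set.Icc (-1 : ℝ) 1)) = ∫ x in (-1 : ℝ)..1, f x := by
  rw [intervalIntegral.integral_of_le (by norm_num), integral_Icc_eq_integral_Ioc]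

theorem gram (n : ℕ) : ∫ u : Fin n → ℝ in {u | ∀ i, |u i| ≤ 1}, Dl u ^ 2 =
    n.factorial * ∏ j ∈ range n, hj j := by
  rw [Gram_restrict]
  simp_rw [Gram_expand]
  rw [integral_finsetSum _ (fun σ _ => integrable_finsetSum _ fun τ _ =>
    (Gram_int σ τ).const_mul _)]
  have h1 : ∀ σ : Equiv.Perm (Fin n), ∫ u : Fin n → ℝ, (∑ τ : Equiv.Perm (Fin n),
      (((Equiv.Perm.sign σ : ℤ) : ℝ) * ((Equiv.Perm.sign τ : ℤ) : ℝ)) *
        ∏ i, ((Lg (σ i : ℕ)).eval (u i) * (Lg (τ i : ℕ)).eval (u i)))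
        ∂(Measure.pi fun _ : Fin n => (volume.restrict (Set.Icc (-1 : ℝ) 1))) =
      ∏ j ∈ Finset.range n, hj j := by
    intro σ
    rw [integral_finsetSum _ (fun τ _ => (Gram_int σ τ).const_mul _),
      Finset.sum_eq_single σ]
    · rw [integral_const_mul, integral_fintype_prod_eq_prod
        (f := fun (i : Fin n) (x : ℝ) => (Lg (σ i : ℕ)).eval x * (Lg (σ i : ℕ)).eval x)]
      have h2 : ((Equiv.Perm.sign σ : ℤ) : ℝ) * ((Equiv.Perm.sign σ : ℤ) : ℝ) = 1 := by
        rcases Int.units_eq_one_or (Equiv.Perm.sign σ) with h | h <;> rw [h] <;> norm_num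
      rw [h2, one_mul]
      have h3 : ∀ i : Fin n, ∫ x, (Lg (σ i : ℕ)).eval x * (Lg (σ i : ℕ)).eval x
          ∂(volume.restrict (Set.Icc (-1 : ℝ) 1)) = hj (σ i : ℕ) := by
        intro i
        rw [Gram_Icc, hj]
        simp_rw [pow_two]
      rw [Finset.prod_congr rfl fun i _ => h3 i,
        Equiv.prod_comp σ (fun i : Fin n => hj (i : ℕ)), ← Finset.prod_range]
    · intro τ _ hτ
      rw [integral_const_mul, integral_fintype_prod_eq_prod
        (f := fun (i : Fin n) (x : ℝ) => (Lg (σ i : ℕ)).eval x * (Lg (τ i : ℕ)).eval x)]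
      obtain ⟨i, hi⟩ : ∃ i, σ i ≠ τ i := by
        by_contra hcon
        push Not at hcon
        exact hτ (Equiv.ext fun i => (hcon i).symm)
      rw [Finset.prod_eq_zero (Finset.mem_univ i), mul_zero]
      rw [Gram_Icc]
      exact Lg_orth (fun h => hi (Fin.ext h))
    · intro h
      exact absurd (Finset.mem_univ _) h
  rw [Finset.sum_congr rfl fun σ _ => h1 σ, Finset.sum_const, Finset.card_univ,
    Fintype.card_perm, Fintype.card_fin, nsmul_eq_mul]

theorem gramL (n : ℕ) : ∫⁻ u : Fin n → ℝ in {u | ∀ i, |u i| ≤ 1}, ENNReal.ofReal (Dl u ^ 2) =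
    ENNReal.ofReal (n.factorial * ∏ j ∈ range n, hj j) := by
  rw [← gram, ofReal_integral_eq_lintegral_ofReal]
  · rw [Gram_restrict']
    simp_rw [Gram_expand]
    exact integrable_finsetSum _ (fun σ _ => integrable_finsetSum _ fun τ _ =>
      (Gram_int σ τ).const_mul _)
  · exact Filter.Eventually.of_forall fun u => sq_nonneg _

end Pool.Agent.MPbd65ca.Hm
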