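import Pool.Agent.Lib.MP_bd65ca_an_H.Weyl
import Pool.Agent.Lib.MP_bd65ca_an_H.Gram

/-!
# A lower bound for the volume

PROOF. `weyl_one` for the indicator function of the closed set
`{A | ∀ v, |Re v* A v| ≤ v* v}` of `MM n` (its preimage under `hm` is `hb n`): for unitary `W` and
`|u i| ≤ 1` the matrix `cj W (dg u)` belongs to it (`hm_Lh`, `Lh_mem`), so
`c = ∫⁻ u in cube, ofReal (Dl u ^ 2) = ofReal (n! * ∏ hj j)` (`gramL`); cancel `n!`.
`vol_ge_of`: `weyl_one` for `G A = ofReal (F (hc A))`, `hc (hm x) = x`; the integrals over `E n` and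
`Fin n → ℝ` agree (`PiLp.volume_preserving_toLp`).
-/

open MeasureTheory FourierTransform Pointwise Set Finset Matrix
open scoped RealInnerProductSpace

namespace Pool.Agent.MPbd65ca.Hm

open Pool.Agent.MPbd65ca.Oct Pool.Agent.MPbd65ca.Bp

private theorem VolH_Om (n : ℕ) : 0 ≤ Om n := by
  unfold Om
  exact Finset.prod_nonneg fun k _ => by positivity

private theorem VolH_cancel {n : ℕ} {a c : ℝ} (ha : 0 ≤ a) {I : ENNReal}
    (h : ENNReal.ofReal a * ENNReal.ofReal (n.factorial * c) ≤ (n.factorial : ENNReal) * I) :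
    ENNReal.ofReal (a * c) ≤ I := by
  have h1 : ENNReal.ofReal (n.factorial * c) = (n.factorial : ENNReal) * ENNReal.ofReal c := by
    rw [ENNReal.ofReal_mul (by positivity), ENNReal.ofReal_natCast]
  have h2 : ENNReal.ofReal a * ENNReal.ofReal (n.factorial * c) =
      (n.factorial : ENNReal) * ENNReal.ofReal (a * c) := by
    rw [h1, ENNReal.ofReal_mul ha]
    ring
  rw [h2] at h
  have h3 : (n.factorial : ENNReal) ≠ 0 := by
    exact_mod_cast Nat.factorial_ne_zero n
  exact (ENNReal.mul_le_mul_iff_right h3 (ENNReal.natCast_ne_top _)).1 h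

/-- The set of the matrices with `|v* A v| ≤ v* v`. -/
private def VolH_S (n : ℕ) : Set (MM n) :=
  {A | ∀ v : Fin n → ℂ, |(star v ⬝ᵥ (Matrix.of A).mulVec v).re| ≤ (star v ⬝ᵥ v).re}

private theorem VolH_closed (n : ℕ) : IsClosed (VolH_S n) := by
  have h : VolH_S n = ⋂ v : Fin n → ℂ,
      {A | |(star v ⬝ᵥ (Matrix.of A).mulVec v).re| ≤ (star v ⬝ᵥ v).re} := by
    ext x
    rw [Set.mem_iInter]
    rfl
  rw [h]
  refine isClosed_iInter fun v => isClosed_le ?_ continuous_const
  have h0 : Continuous fun A : MM n => Matrix.of A := continuous_id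
  have h1 : Continuous fun A : MM n => (Matrix.of A).mulVec v :=
    h0.matrix_mulVec continuous_const
  exact (Complex.continuous_re.comp (continuous_const.dotProduct h1)).abs

private theorem VolH_pre (n : ℕ) (x : E (n * n)) : hm x ∈ VolH_S n ↔ x ∈ hb n := Iff.rfl

private theorem VolH_mem {n : ℕ} {W : Matrix (Fin n) (Fin n) ℂ}
    (hW : W ∈ Matrix.unitaryGroup (Fin n) ℂ) {u : Fin n → ℝ} (hu : ∀ i, |u i| ≤ 1) :
    cj W (dg u) ∈ VolH_S n := by
  have h1 : hm (Lh W (WithLp.toLp 2 u)) = cj W (dg u) := hm_Lh W (WithLp.toLp 2 u)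
  have h2 : Lh W (WithLp.toLp 2 u) ∈ hb n := Lh_mem hW hu
  rw [← h1]
  exact (VolH_pre n _).2 h2

theorem vol_hb_ge (n : ℕ) : ENNReal.ofReal (Om n * ∏ j ∈ range n, hj j) ≤ volume (hb n) := by
  have hS : MeasurableSet (VolH_S n) := (VolH_closed n).measurableSet
  have hC : MeasurableSet {u : Fin n → ℝ | ∀ i, |u i| ≤ 1} := by
    have h : {u : Fin n → ℝ | ∀ i, |u i| ≤ 1} = ⋂ i, {u | |u i| ≤ 1} := by
      ext u
      rw [Set.mem_iInter]
      rfl
    rw [h]
    exact MeasurableSet.iInter fun i =>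
      (isClosed_le (continuous_apply i).abs continuous_const).measurableSet
  have hI : ∫⁻ x : E (n * n), (VolH_S n).indicator 1 (hm x) = volume (hb n) := by
    have h1 : (fun x : E (n * n) => (VolH_S n).indicator (1 : MM n → ENNReal) (hm x)) =
        (hb n).indicator 1 := by
      funext x
      by_cases hx : x ∈ hb n
      · rw [Set.indicator_of_mem hx, Set.indicator_of_mem ((VolH_pre n x).2 hx)]
        rfl
      · rw [Set.indicator_of_notMem hx, Set.indicator_of_notMem fun h => hx ((VolH_pre n x).1 h)]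
    rw [h1, lintegral_indicator_one (hb_closed n).measurableSet]
  rw [← hI]
  refine VolH_cancel (VolH_Om n) (weyl_one n (measurable_one.indicator hS) fun W hW => ?_)
  rw [← gramL, ← lintegral_indicator hC]
  refine lintegral_mono fun u => ?_
  by_cases hu : u ∈ {u : Fin n → ℝ | ∀ i, |u i| ≤ 1}
  · rw [Set.indicator_of_mem hu, Set.indicator_of_mem (VolH_mem hW hu), Pi.one_apply, one_mul]
  · rw [Set.indicator_of_notMem hu]
    exact zero_le

theorem int_ge {n : ℕ} {F : E (n * n) → ℝ} (hc' : Continuous F) (h0 : ∀ x, 0 ≤ F x) {c : ℝ}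
    (hcc : 0 ≤ c) (h : ∀ W ∈ Matrix.unitaryGroup (Fin n) ℂ, ENNReal.ofReal (n.factorial * c) ≤
      ∫⁻ u : E n, ENNReal.ofReal (F (Lh W u) * Dl (fun i => u i) ^ 2)) :
    ENNReal.ofReal (Om n * c) ≤ ∫⁻ x, ENNReal.ofReal (F x) := by
  have hG : Measurable fun A : MM n => ENNReal.ofReal (F (hc A)) :=
    (ENNReal.continuous_ofReal.comp (hc'.comp continuous_hc)).measurable
  have h1 := VolH_cancel (VolH_Om n) (c := c) (weyl_one n hG fun W hW => by
    refine (h W hW).trans (le_of_eq ?_)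
    have h2 : ∀ u : Fin n → ℝ, ENNReal.ofReal (F (hc (cj W (dg u)))) * ENNReal.ofReal (Dl u ^ 2) =
        (fun v : E n => ENNReal.ofReal (F (Lh W v) * Dl (fun i => v i) ^ 2))
          (WithLp.toLp 2 u) := by
      intro u
      rw [← ENNReal.ofReal_mul (h0 _)]
      rfl
    rw [lintegral_congr h2]
    exact ((PiLp.volume_preserving_toLp (Fin n)).lintegral_comp_emb
      (MeasurableEquiv.toLp 2 (Fin n → ℝ)).measurableEmbedding _).symm)
  simp_rw [hc_hm] at h1
  exact h1

end Pool.Agent.MPbd65ca.Hm
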