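import Pool.Agent.Lib.MP_bd65ca_an_H.HFix
import Pool.Agent.Lib.MP_bd65ca_an_H.HBd
import Pool.Agent.Lib.MP_bd65ca_an_H.VolH
import Pool.Agent.Lib.MP_bd65ca_an_F.Final

/-!
# The unit balls of the operator norm on Hermitian matrices are Turán domains

PROOF. Let `n = d + 1`, `P = Om n * ∏ j < n, lam j`, `Q = Om n * ∏ j < n, hj j`; `P * Q = 2 ^ (n *
n)` since
`Om n ^ 2 = ∏ (2 π) ^ (2 j) / (j!) ^ 2` and `lam j * hj j = 2 (j!) ^ 2 / π ^ (2 j)`, and `P` is
the explicit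
product (`hj_eq`).  `hb_ineq`: `hfix` and `int_ge` with `c = (∏ lam j) * F 0`.
`hb_value`: every `F ∈ cls (hb n)` has `1 ≤ F 0`, so `∫ F ≥ P` and `turan (hb n) ≥ P`; by
`cls_trivial` and
`turan_le_integral` `turan (hb n) ≤ 2 ^ (n * n) / volume.real (hb n) ≤ 2 ^ (n * n) / Q = P`
(`vol_hb_ge`).
So all three numbers agree.  `hb_final`: `turan_lin_eq`, `body_lin`.
-/

open MeasureTheory FourierTransform Pointwise Set Finset Matrix
open scoped RealInnerProductSpace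

namespace Pool.Agent.MPbd65ca.Hm

open Pool.Agent.MPbd65ca.Oct Pool.Agent.MPbd65ca.Bp Pool.Agent.MPbd65ca.Zo

private theorem FinH_lam_mul (j : ℕ) :
    lam j * hj j = 2 * (j.factorial : ℝ) ^ 2 / Real.pi ^ (2 * j) := by
  have h1 : hj j ≠ 0 := (hj_pos j).ne'
  have h2 : Real.pi ^ (2 * j) ≠ 0 := pow_ne_zero _ Real.pi_ne_zero
  rw [lam]
  field_simp

private theorem FinH_lam_pos (j : ℕ) : 0 < lam j := by
  have h1 := hj_pos j
  have h2 := Real.pi_pos
  have h3 : (0 : ℝ) < j.factorial := by exact_mod_cast j.factorial_pos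
  rw [lam]
  positivity

private theorem FinH_Om_pos (n : ℕ) : 0 < Om n := by
  rw [Om]
  refine Finset.prod_pos fun k _ => ?_
  have h2 := Real.pi_pos
  have h3 : (0 : ℝ) < k.factorial := by exact_mod_cast k.factorial_pos
  positivity

theorem PQ (n : ℕ) :
    (Om n * ∏ j ∈ range n, lam j) * (Om n * ∏ j ∈ range n, hj j) = 2 ^ (n * n) := by
  have e1 : (Om n * ∏ j ∈ range n, lam j) * (Om n * ∏ j ∈ range n, hj j) =
      ∏ k ∈ range n, ((2 * Real.pi) ^ k / k.factorial) ^ 2 * (lam k * hj k) := by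
    rw [Finset.prod_mul_distrib, Finset.prod_mul_distrib, Finset.prod_pow, Om]
    ring
  have e2 : ∀ k : ℕ, ((2 * Real.pi) ^ k / k.factorial) ^ 2 * (lam k * hj k) =
      (2 : ℝ) ^ (2 * k + 1) := by
    intro k
    have h1 : (k.factorial : ℝ) ≠ 0 := by exact_mod_cast k.factorial_ne_zero
    have h2 : Real.pi ≠ 0 := Real.pi_ne_zero
    rw [FinH_lam_mul, mul_pow, div_pow, mul_pow, ← pow_mul, ← pow_mul, mul_comm k 2]
    field_simp
    ring
  rw [e1, Finset.prod_congr rfl fun k _ => e2 k]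
  induction n with
  | zero => simp
  | succ n ih =>
    rw [Finset.prod_range_succ, ih ?_, ← pow_add]
    · congr 1
      ring
    · rw [Finset.prod_mul_distrib, Finset.prod_mul_distrib, Finset.prod_pow, Om]
      ring

theorem P_eq (n : ℕ) : Om n * ∏ j ∈ range n, lam j =
    ∏ j ∈ range n, ((2 * j).factorial * (2 * j + 1).factorial : ℝ) /
      ((2 * Real.pi) ^ j * (j.factorial : ℝ) ^ 3) := by
  rw [Om, ← Finset.prod_mul_distrib]
  refine Finset.prod_congr rfl fun j _ => ?_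
  have h1 : (j.factorial : ℝ) ≠ 0 := by exact_mod_cast j.factorial_ne_zero
  have h2 : Real.pi ≠ 0 := Real.pi_ne_zero
  have h3 : ((2 * j).factorial : ℝ) ≠ 0 := by exact_mod_cast (2 * j).factorial_ne_zero
  have h4 : ((2 * j + 1).factorial : ℝ) ≠ 0 := by exact_mod_cast (2 * j + 1).factorial_ne_zero
  rw [lam, hj_eq, mul_pow, pow_succ (2 : ℝ) (2 * j), two_mul j, pow_add, pow_add]
  field_simp

theorem hb_ineq {d : ℕ} {F : E ((d + 1) * (d + 1)) → ℝ} (hc : Continuous F)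
    (hi : Integrable F) (h0 : ∀ w, 0 ≤ F w)
    (h : ∀ ξ ∉ hb (d + 1), 𝓕 (fun w => (F w : ℂ)) ξ = 0) :
    (Om (d + 1) * ∏ j ∈ range (d + 1), lam j) * F 0 ≤ ∫ x, F x := by
  have h1 : 0 ≤ ∏ j ∈ range (d + 1), lam j :=
    Finset.prod_nonneg fun j _ => (FinH_lam_pos j).le
  have h2 := int_ge hc h0 (c := (∏ j ∈ range (d + 1), lam j) * F 0) (mul_nonneg h1 (h0 0))
    (fun W hW => by
      rw [← mul_assoc]
      exact hfix (isBody_hb (d + 1)).isCompact hc hi h0 h hW)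
  rw [← ofReal_integral_eq_lintegral_ofReal hi (Filter.Eventually.of_forall h0),
    ENNReal.ofReal_le_ofReal_iff (integral_nonneg h0), ← mul_assoc] at h2
  exact h2

private theorem FinH_all (d : ℕ) :
    turan (hb (d + 1)) = 2 ^ ((d + 1) * (d + 1)) / volume.real (hb (d + 1)) ∧
    turan (hb (d + 1)) = Om (d + 1) * ∏ j ∈ range (d + 1), lam j := by
  have hB : IsBody (hb (d + 1)) := isBody_hb (d + 1)
  have hPpos : 0 < Om (d + 1) * ∏ j ∈ range (d + 1), lam j :=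
    mul_pos (FinH_Om_pos _) (Finset.prod_pos fun j _ => FinH_lam_pos j)
  have hQpos : 0 < Om (d + 1) * ∏ j ∈ range (d + 1), hj j :=
    mul_pos (FinH_Om_pos _) (Finset.prod_pos fun j _ => hj_pos j)
  have hPQ := PQ (d + 1)
  set P := Om (d + 1) * ∏ j ∈ range (d + 1), lam j with hP
  set Q := Om (d + 1) * ∏ j ∈ range (d + 1), hj j with hQ
  -- the lower bound of the volume
  have hfin : volume (hb (d + 1)) ≠ ⊤ := hB.isCompact.measure_lt_top.ne
  have hvol : Q ≤ volume.real (hb (d + 1)) := by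
    have h1 := vol_hb_ge (d + 1)
    rw [← hQ] at h1
    exact (ENNReal.ofReal_le_iff_le_toReal hfin).1 h1
  have hle1 : turan (hb (d + 1)) ≤ 2 ^ ((d + 1) * (d + 1)) / volume.real (hb (d + 1)) := by
    obtain ⟨F, hF, hFi⟩ := cls_trivial hB
    exact (turan_le_integral hF).trans hFi
  have hle2 : (2 : ℝ) ^ ((d + 1) * (d + 1)) / volume.real (hb (d + 1)) ≤ P := by
    rw [← hPQ, div_le_iff₀ (hQpos.trans_le hvol)]
    exact mul_le_mul_of_nonneg_left hvol hPpos.le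
  have hle3 : P ≤ turan (hb (d + 1)) := by
    obtain ⟨F₀, hF₀, -⟩ := cls_trivial hB
    refine le_csInf ⟨_, ⟨F₀, hF₀, rfl⟩⟩ ?_
    rintro _ ⟨F, ⟨hc, hi, h0, h1, hs⟩, rfl⟩
    simp only
    have hf0 : ∀ ξ ∉ hb (d + 1), 𝓕 (fun w => (F w : ℂ)) ξ = 0 := fun ξ hξ => by
      by_contra hne
      exact hξ (hs (subset_tsupport _ hne))
    have h2 := hb_ineq hc hi h0 hf0
    rw [← hP] at h2
    exact (le_mul_of_one_le_right hPpos.le h1).trans h2
  exact ⟨le_antisymm hle1 (hle2.trans hle3), le_antisymm (hle1.trans hle2) hle3⟩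

theorem hb_value (d : ℕ) :
    turan (hb (d + 1)) = 2 ^ ((d + 1) * (d + 1)) / volume.real (hb (d + 1)) ∧
    turan (hb (d + 1)) = ∏ j ∈ range (d + 1), ((2 * j).factorial * (2 * j + 1).factorial : ℝ) /
      ((2 * Real.pi) ^ j * (j.factorial : ℝ) ^ 3) := by
  refine ⟨(FinH_all d).1, ?_⟩
  rw [(FinH_all d).2, P_eq]

theorem hb_final (d : ℕ) (A : E ((d + 1) * (d + 1)) ≃L[ℝ] E ((d + 1) * (d + 1))) :
    IsBody (A '' hb (d + 1)) ∧
      turan (A '' hb (d + 1)) =
        2 ^ ((d + 1) * (d + 1)) / volume.real (A '' hb (d + 1)) :=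
  ⟨body_lin A (isBody_hb (d + 1)), turan_lin_eq A (isBody_hb (d + 1)) (hb_value d).1⟩

end Pool.Agent.MPbd65ca.Hm
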