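import Pool.Agent.Lib.MP_bd65ca_an_H.Defs

/-!
# Coordinates of Hermitian matrices

PROOF. Case distinctions on `i = j`, `i < j`, `i > j`; `finProdFinEquiv.symm_apply_apply`,
`Real.mul_self_sqrt`.  `inner_hc`: `⟪hc A, x⟫ = ∑ q, ...` reindexed over pairs
(`finProdFinEquiv.sum_comp`, `Fintype.sum_prod_type`); `(A * hm x).trace = ∑ i, ∑ j, A i j * hm x
j i`;
for `i < j` the two terms `(i, j)`, `(j, i)` add up to
`2 Re (A i j * conj (hm x i j)) = √2 Re A_ij x_ij + √2 Im A_ij x_ji`.
`norm_hm`: `∑ i, ∑ j, ‖hm x i j‖ ^ 2 = ‖x‖ ^ 2`: the same with `A = hm x`.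
-/

open MeasureTheory FourierTransform Pointwise Set Finset Matrix
open scoped RealInnerProductSpace

namespace Pool.Agent.MPbd65ca.Hm

open Pool.Agent.MPbd65ca.Oct Pool.Agent.MPbd65ca.Bp

variable {n : ℕ}

private theorem HA_eq (x : E (n * n)) (i : Fin n) :
    hm x i i = ((x (finProdFinEquiv (i, i)) : ℝ) : ℂ) := if_pos rfl

private theorem HA_lt (x : E (n * n)) {i j : Fin n} (h : i < j) :
    hm x i j = (((x (finProdFinEquiv (i, j)) : ℝ) : ℂ) +
      Complex.I * ((x (finProdFinEquiv (j, i)) : ℝ) : ℂ)) / ((Real.sqrt 2 : ℝ) : ℂ) := by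
  unfold hm
  rw [if_neg h.ne, if_pos h]

private theorem HA_gt (x : E (n * n)) {i j : Fin n} (h : i < j) :
    hm x j i = (((x (finProdFinEquiv (i, j)) : ℝ) : ℂ) -
      Complex.I * ((x (finProdFinEquiv (j, i)) : ℝ) : ℂ)) / ((Real.sqrt 2 : ℝ) : ℂ) := by
  unfold hm
  rw [if_neg h.ne', if_neg h.not_gt]

private theorem HA_hc_eq (A : MM n) (i : Fin n) :
    hc A (finProdFinEquiv (i, i)) = (A i i).re := by
  unfold hc
  rw [PiLp.toLp_apply, finProdFinEquiv.symm_apply_apply, if_pos rfl]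

private theorem HA_hc_lt (A : MM n) {i j : Fin n} (h : i < j) :
    hc A (finProdFinEquiv (i, j)) = Real.sqrt 2 * (A i j).re := by
  unfold hc
  rw [PiLp.toLp_apply, finProdFinEquiv.symm_apply_apply, if_neg h.ne, if_pos h]

private theorem HA_hc_gt (A : MM n) {i j : Fin n} (h : i < j) :
    hc A (finProdFinEquiv (j, i)) = Real.sqrt 2 * (A i j).im := by
  unfold hc
  rw [PiLp.toLp_apply, finProdFinEquiv.symm_apply_apply, if_neg h.ne', if_neg h.not_gt]

private theorem HA_star (a b : ℝ) :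
    star (((a : ℂ) - Complex.I * (b : ℂ)) / ((Real.sqrt 2 : ℝ) : ℂ)) =
      ((a : ℂ) + Complex.I * (b : ℂ)) / ((Real.sqrt 2 : ℝ) : ℂ) := by
  change (starRingEnd ℂ) _ = _
  rw [map_div₀, map_sub, map_mul, Complex.conj_I, Complex.conj_ofReal, Complex.conj_ofReal,
    Complex.conj_ofReal]
  ring

private theorem HA_re (a b : ℝ) :
    (((a : ℂ) + Complex.I * (b : ℂ)) / ((Real.sqrt 2 : ℝ) : ℂ)).re = a / Real.sqrt 2 := by
  rw [Complex.div_ofReal_re]
  simp

private theorem HA_im (a b : ℝ) :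
    (((a : ℂ) + Complex.I * (b : ℂ)) / ((Real.sqrt 2 : ℝ) : ℂ)).im = b / Real.sqrt 2 := by
  rw [Complex.div_ofReal_im]
  simp

theorem hm_herm (x : E (n * n)) : (Matrix.of (hm x)).IsHermitian := by
  refine Matrix.IsHermitian.ext fun i j => ?_
  rw [Matrix.of_apply, Matrix.of_apply]
  rcases lt_trichotomy i j with h | h | h
  · rw [HA_lt x h, HA_gt x h]
    exact HA_star _ _
  · subst h
    rw [HA_eq]
    exact Complex.conj_ofReal _
  · rw [HA_lt x h, HA_gt x h, ← HA_star]
    exact Complex.conj_conj _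

theorem hc_hm (x : E (n * n)) : hc (hm x) = x := by
  ext q
  obtain ⟨⟨i, j⟩, rfl⟩ := finProdFinEquiv.surjective q
  have h2 : Real.sqrt 2 ≠ 0 := by positivity
  rcases lt_trichotomy i j with h | h | h
  · rw [HA_hc_lt _ h, HA_lt x h, HA_re]
    field_simp
  · subst h
    rw [HA_hc_eq, HA_eq, Complex.ofReal_re]
  · rw [HA_hc_gt _ h, HA_lt x h, HA_im]
    field_simp

theorem hm_hc {A : MM n} (hA : (Matrix.of A).IsHermitian) : hm (hc A) = A := by
  have hs : ∀ i j, star (A j i) = A i j := fun i j => hA.apply i j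
  funext i j
  have h2 : ((Real.sqrt 2 : ℝ) : ℂ) ≠ 0 := by
    rw [Ne, Complex.ofReal_eq_zero]
    positivity
  rcases lt_trichotomy i j with h | h | h
  · rw [HA_lt _ h, HA_hc_lt _ h, HA_hc_gt _ h]
    rw [div_eq_iff h2]
    push_cast
    have e := Complex.re_add_im (A i j)
    linear_combination ((Real.sqrt 2 : ℝ) : ℂ) * e
  · subst h
    rw [HA_eq, HA_hc_eq]
    have h3 : (starRingEnd ℂ) (A i i) = A i i := hs i i
    exact Complex.conj_eq_iff_re.1 h3
  · rw [HA_gt _ h, HA_hc_lt _ h, HA_hc_gt _ h]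
    rw [div_eq_iff h2]
    push_cast
    have e1 : A i j = ((A j i).re : ℂ) - Complex.I * ((A j i).im : ℂ) := by
      rw [← hs i j]
      apply Complex.ext
      · simp
      · simp
    linear_combination -((Real.sqrt 2 : ℝ) : ℂ) * e1

theorem continuous_hm : Continuous (hm : E (n * n) → MM n) := by
  refine continuous_pi fun i => continuous_pi fun j => ?_
  unfold hm
  split_ifs
  · fun_prop
  · fun_prop
  · fun_prop

theorem continuous_hc : Continuous (hc : MM n → E (n * n)) := by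
  refine (PiLp.continuous_toLp 2 _).comp (continuous_pi fun q => ?_)
  split_ifs
  · fun_prop
  · fun_prop
  · fun_prop

theorem hm_add (x y : E (n * n)) : hm (x + y) = hm x + hm y := by
  funext i j
  rw [Pi.add_apply, Pi.add_apply]
  rcases lt_trichotomy i j with h | h | h
  · rw [HA_lt _ h, HA_lt _ h, HA_lt _ h, PiLp.add_apply, PiLp.add_apply]
    push_cast
    ring
  · subst h
    rw [HA_eq, HA_eq, HA_eq, PiLp.add_apply]
    push_cast
    ring
  · rw [HA_gt _ h, HA_gt _ h, HA_gt _ h, PiLp.add_apply, PiLp.add_apply]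
    push_cast
    ring

theorem hm_smul (c : ℝ) (x : E (n * n)) : hm (c • x) = fun i j => (c : ℂ) * hm x i j := by
  funext i j
  rcases lt_trichotomy i j with h | h | h
  · rw [HA_lt _ h, HA_lt _ h, PiLp.smul_apply, PiLp.smul_apply, smul_eq_mul, smul_eq_mul]
    push_cast
    ring
  · subst h
    rw [HA_eq, HA_eq, PiLp.smul_apply, smul_eq_mul]
    push_cast
    ring
  · rw [HA_gt _ h, HA_gt _ h, PiLp.smul_apply, PiLp.smul_apply, smul_eq_mul, smul_eq_mul]
    push_cast
    ring

theorem inner_hc {A : MM n} (hA : (Matrix.of A).IsHermitian) (x : E (n * n)) :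
    ⟪hc A, x⟫ = ((Matrix.of A * Matrix.of (hm x)).trace).re := by
  have hs : ∀ i j, star (A j i) = A i j := fun i j => hA.apply i j
  have e1 : ⟪hc A, x⟫ = ∑ i, ∑ j, hc A (finProdFinEquiv (i, j)) * x (finProdFinEquiv (i, j)) := by
    rw [PiLp.inner_apply, ← finProdFinEquiv.sum_comp, Fintype.sum_prod_type]
    refine Finset.sum_congr rfl fun i _ => Finset.sum_congr rfl fun j _ => ?_
    rw [RCLike.inner_apply, conj_trivial, mul_comm]
  have e2 : ((Matrix.of A * Matrix.of (hm x)).trace).re = ∑ i, ∑ j, (A i j * hm x j i).re := by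
    unfold Matrix.trace
    rw [Complex.re_sum]
    refine Finset.sum_congr rfl fun i _ => ?_
    rw [Matrix.diag_apply, Matrix.mul_apply, Complex.re_sum]
    rfl
  have hsq : Real.sqrt 2 * Real.sqrt 2 = 2 := Real.mul_self_sqrt (by norm_num)
  have h2 : Real.sqrt 2 ≠ 0 := by positivity
  have key : ∀ i j : Fin n, i < j →
      hc A (finProdFinEquiv (i, j)) * x (finProdFinEquiv (i, j)) +
        hc A (finProdFinEquiv (j, i)) * x (finProdFinEquiv (j, i)) =
      (A i j * hm x j i).re + (A j i * hm x i j).re := by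
    intro i j h
    rw [HA_hc_lt _ h, HA_hc_gt _ h, HA_gt x h, HA_lt x h, ← hs j i]
    set a := x (finProdFinEquiv (i, j))
    set b := x (finProdFinEquiv (j, i))
    have f1 : (A i j * (((a : ℂ) - Complex.I * (b : ℂ)) / ((Real.sqrt 2 : ℝ) : ℂ))).re =
        ((A i j).re * a + (A i j).im * b) / Real.sqrt 2 := by
      rw [← mul_div_assoc, Complex.div_ofReal_re]
      congr 1
      simp
    have f2 : (star (A i j) * (((a : ℂ) + Complex.I * (b : ℂ)) / ((Real.sqrt 2 : ℝ) : ℂ))).re =
        ((A i j).re * a + (A i j).im * b) / Real.sqrt 2 := by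
      rw [← mul_div_assoc, Complex.div_ofReal_re]
      congr 1
      simp
    rw [f1, f2]
    field_simp
    rw [sq, hsq]
    ring
  rw [e1, e2]
  have hL : ∀ f : Fin n → Fin n → ℝ, 2 * ∑ i, ∑ j, f i j = ∑ i, ∑ j, (f i j + f j i) := by
    intro f
    simp only [Finset.sum_add_distrib]
    rw [Finset.sum_comm (f := fun i j => f j i)]
    ring
  have h3 : ∀ i j, hc A (finProdFinEquiv (i, j)) * x (finProdFinEquiv (i, j)) +
        hc A (finProdFinEquiv (j, i)) * x (finProdFinEquiv (j, i)) =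
      (A i j * hm x j i).re + (A j i * hm x i j).re := by
    intro i j
    rcases lt_trichotomy i j with h | h | h
    · exact key i j h
    · subst h
      rw [HA_hc_eq, HA_eq, Complex.re_mul_ofReal]
    · rw [add_comm, key j i h, add_comm]
  have h4 := hL fun i j => hc A (finProdFinEquiv (i, j)) * x (finProdFinEquiv (i, j))
  have h5 := hL fun i j => (A i j * hm x j i).re
  have h6 : ∑ i, ∑ j, (hc A (finProdFinEquiv (i, j)) * x (finProdFinEquiv (i, j)) +
        hc A (finProdFinEquiv (j, i)) * x (finProdFinEquiv (j, i))) =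
      ∑ i, ∑ j, ((A i j * hm x j i).re + (A j i * hm x i j).re) :=
    Finset.sum_congr rfl fun i _ => Finset.sum_congr rfl fun j _ => h3 i j
  linarith

theorem norm_hm (x : E (n * n)) : ∑ i, ∑ j, ‖hm x i j‖ ^ 2 = ‖x‖ ^ 2 := by
  have h1 := inner_hc (hm_herm x) x
  have h0 : hc (hm x) = x := hc_hm x
  rw [h0, real_inner_self_eq_norm_sq] at h1
  rw [h1]
  unfold Matrix.trace
  rw [Complex.re_sum]
  refine Finset.sum_congr rfl fun i _ => ?_
  rw [Matrix.diag_apply, Matrix.mul_apply, Complex.re_sum]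
  refine Finset.sum_congr rfl fun j _ => ?_
  have h2 : star (hm x i j) = hm x j i := (hm_herm x).apply j i
  rw [Matrix.of_apply, Matrix.of_apply, ← h2]
  change _ = (hm x i j * (starRingEnd ℂ) (hm x i j)).re
  rw [Complex.mul_conj, Complex.ofReal_re, Complex.normSq_eq_norm_sq]

end Pool.Agent.MPbd65ca.Hm
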