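import Pool.Agent.Lib.MP_bd65ca_an_H.HA

/-!
# The embeddings of the diagonal matrices

PROOF. `cj_herm`: `(W A W*)* = W A* W*`.  `hm_Lh`: `hm_hc`.  `inner_Lh`: `inner_hc` and
`tr (W D W* A) = tr (D W* A W) = ∑ i, u i * (W* A W) i i` (`Matrix.trace_mul_comm`), the diagonal
entries of
the Hermitian matrix `W* A W` are real; `⟪u, Lk W x⟫ = ∑ i, u i * ...`.
`Lk_mem`: the test vector `v = W.mulVec (Pi.single i 1)`: `v* A v = (W* A W) i i`,
`v* v = (W* W) i i = 1`.  `Lh_mem`: `v* W D W* v = ∑ u i ‖(W* v) i‖ ^ 2` and `∑ ‖(W* v) i‖ ^ 2 =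
v* v`
(`W W* = 1`).
`hb_closed`: the defining conditions are closed (`continuous_hm`).
-/

open MeasureTheory FourierTransform Pointwise Set Finset Matrix
open scoped RealInnerProductSpace

namespace Pool.Agent.MPbd65ca.Hm

open Pool.Agent.MPbd65ca.Oct Pool.Agent.MPbd65ca.Bp

variable {n : ℕ}

theorem cj_herm {W A : Matrix (Fin n) (Fin n) ℂ} (hA : A.IsHermitian) :
    (Matrix.of (cj W A)).IsHermitian :=
  Matrix.isHermitian_mul_mul_conjTranspose W hA

theorem dg_herm (u : Fin n → ℝ) : (dg u).IsHermitian := by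
  unfold dg
  rw [Matrix.IsHermitian, Matrix.diagonal_conjTranspose]
  congr 1
  funext i
  exact Complex.conj_ofReal _

theorem hm_Lh (W : Matrix (Fin n) (Fin n) ℂ) (u : E n) :
    hm (Lh W u) = cj W (dg fun i => u i) :=
  hm_hc (cj_herm (dg_herm _))

private theorem HL_continuous_hm : Continuous fun x : E (n * n) => Matrix.of (hm x) :=
  continuous_hm

theorem continuous_Lh (W : Matrix (Fin n) (Fin n) ℂ) : Continuous (Lh W) := by
  have h1 : Continuous fun u : E n => dg fun i => u i := by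
    unfold dg
    refine Continuous.matrix_diagonal (continuous_pi fun i => ?_)
    fun_prop
  have h2 : Continuous fun u : E n => W * (dg fun i => u i) * Wᴴ :=
    (continuous_const.matrix_mul h1).matrix_mul continuous_const
  exact continuous_hc.comp h2

theorem continuous_Lk (W : Matrix (Fin n) (Fin n) ℂ) : Continuous (Lk W) := by
  have h2 : Continuous fun x : E (n * n) => Wᴴ * Matrix.of (hm x) * W :=
    (continuous_const.matrix_mul HL_continuous_hm).matrix_mul continuous_const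
  refine (PiLp.continuous_toLp 2 _).comp (continuous_pi fun i => ?_)
  exact Complex.continuous_re.comp (h2.matrix_elem i i)

private theorem HL_smul (W : Matrix (Fin n) (Fin n) ℂ) (c : ℝ) (u : E n) :
    Lh W (c • u) = c • Lh W u := by
  have h1 : cj W (dg fun i => (c • u) i) = hm (c • Lh W u) := by
    rw [hm_smul, hm_Lh]
    have h2 : (dg fun i => (c • u) i) = (c : ℂ) • dg fun i => u i := by
      unfold dg
      rw [← Matrix.diagonal_smul]
      congr 1
      funext i
      simp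
    unfold cj
    rw [h2, Matrix.mul_smul, Matrix.smul_mul]
    rfl
  change hc (cj W (dg fun i => (c • u) i)) = _
  rw [h1, hc_hm]

theorem Lh_zero (W : Matrix (Fin n) (Fin n) ℂ) : Lh W 0 = 0 := by
  have h := HL_smul W 0 0
  rwa [zero_smul, zero_smul] at h

theorem Lh_smul (W : Matrix (Fin n) (Fin n) ℂ) (c : ℝ) (u : E n) :
    Lh W (c • u) = c • Lh W u :=
  HL_smul W c u

theorem inner_Lh (W : Matrix (Fin n) (Fin n) ℂ) (u : E n) (x : E (n * n)) :
    ⟪Lh W u, x⟫ = ⟪u, Lk W x⟫ := by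
  have h1 : ⟪Lh W u, x⟫ =
      ((Matrix.of (cj W (dg fun i => u i)) * Matrix.of (hm x)).trace).re :=
    inner_hc (cj_herm (dg_herm _)) x
  have h2 : (Matrix.of (cj W (dg fun i => u i)) * Matrix.of (hm x)).trace =
      ((dg fun i => u i) * (Wᴴ * Matrix.of (hm x) * W)).trace := by
    change (W * (dg fun i => u i) * Wᴴ * Matrix.of (hm x)).trace = _
    rw [Matrix.mul_assoc, Matrix.mul_assoc, Matrix.trace_mul_comm, Matrix.mul_assoc,
      Matrix.mul_assoc]
  rw [h1, h2, PiLp.inner_apply]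
  unfold Matrix.trace
  rw [Complex.re_sum]
  refine Finset.sum_congr rfl fun i _ => ?_
  rw [Matrix.diag_apply]
  unfold dg
  rw [Matrix.diagonal_mul, Complex.re_ofReal_mul, RCLike.inner_apply, conj_trivial, mul_comm]
  rfl

private theorem HL_quad (W A : Matrix (Fin n) (Fin n) ℂ) (e : Fin n → ℂ) :
    star (W.mulVec e) ⬝ᵥ A.mulVec (W.mulVec e) = star e ⬝ᵥ (Wᴴ * A * W).mulVec e := by
  rw [Matrix.star_mulVec, ← Matrix.dotProduct_mulVec, Matrix.mulVec_mulVec, Matrix.mulVec_mulVec,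
    Matrix.mul_assoc]

private theorem HL_self (z : Fin n → ℂ) : (star z ⬝ᵥ z).re = ∑ i, ‖z i‖ ^ 2 := by
  unfold dotProduct
  rw [Complex.re_sum]
  refine Finset.sum_congr rfl fun i _ => ?_
  change ((starRingEnd ℂ) (z i) * z i).re = _
  rw [mul_comm, Complex.mul_conj, Complex.ofReal_re, Complex.normSq_eq_norm_sq]

private theorem HL_diag (u : Fin n → ℝ) (z : Fin n → ℂ) :
    (star z ⬝ᵥ (dg u).mulVec z).re = ∑ i, u i * ‖z i‖ ^ 2 := by
  unfold dotProduct
  rw [Complex.re_sum]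
  refine Finset.sum_congr rfl fun i _ => ?_
  unfold dg
  rw [Matrix.mulVec_diagonal]
  change ((starRingEnd ℂ) (z i) * ((u i : ℂ) * z i)).re = _
  have h : (starRingEnd ℂ) (z i) * ((u i : ℂ) * z i) =
      (u i : ℂ) * (z i * (starRingEnd ℂ) (z i)) := by ring
  rw [h, Complex.mul_conj, Complex.re_ofReal_mul, Complex.ofReal_re, Complex.normSq_eq_norm_sq]

theorem Lk_mem {W : Matrix (Fin n) (Fin n) ℂ} (hW : W ∈ Matrix.unitaryGroup (Fin n) ℂ)
    {x : E (n * n)} (hx : x ∈ hb n) : Lk W x ∈ cube n 1 := by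
  have hW1 : Wᴴ * W = 1 := Matrix.mem_unitaryGroup_iff'.1 hW
  have hs : ∀ (M : Matrix (Fin n) (Fin n) ℂ) (i : Fin n),
      star (Pi.single i (1 : ℂ) : Fin n → ℂ) ⬝ᵥ M.mulVec (Pi.single i 1) = M i i := by
    intro M i
    rw [← Pi.single_star, star_one, single_one_dotProduct, Matrix.mulVec_single_one]
    rfl
  intro i
  have h := hx (W.mulVec (Pi.single i 1))
  have h1 : star (W.mulVec (Pi.single i 1)) ⬝ᵥ W.mulVec (Pi.single i 1) = 1 := by
    have h2 := HL_quad W 1 (Pi.single i 1)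
    rw [Matrix.one_mulVec, Matrix.mul_one, hW1, hs, Matrix.one_apply_eq] at h2
    exact h2
  rw [HL_quad, hs, h1, Complex.one_re] at h
  exact h

theorem Lh_mem {W : Matrix (Fin n) (Fin n) ℂ} (hW : W ∈ Matrix.unitaryGroup (Fin n) ℂ)
    {u : E n} (hu : u ∈ cube n 1) : Lh W u ∈ hb n := by
  have hW1 : W * Wᴴ = 1 := Matrix.mem_unitaryGroup_iff.1 hW
  intro v
  have h1 : star (Wᴴ.mulVec v) ⬝ᵥ (dg fun i => u i).mulVec (Wᴴ.mulVec v) =
      star v ⬝ᵥ (Matrix.of (hm (Lh W u))).mulVec v := by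
    rw [HL_quad, Matrix.conjTranspose_conjTranspose, hm_Lh]
    rfl
  have h2 : star (Wᴴ.mulVec v) ⬝ᵥ Wᴴ.mulVec v = star v ⬝ᵥ v := by
    have h := HL_quad Wᴴ 1 v
    rw [Matrix.one_mulVec, Matrix.mul_one, Matrix.conjTranspose_conjTranspose, hW1,
      Matrix.one_mulVec] at h
    exact h
  rw [← h1, ← h2, HL_diag, HL_self]
  refine (Finset.abs_sum_le_sum_abs _ _).trans (Finset.sum_le_sum fun i _ => ?_)
  rw [abs_mul, abs_of_nonneg (sq_nonneg ‖(Wᴴ.mulVec v) i‖)]
  exact mul_le_of_le_one_left (sq_nonneg _) (hu i)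

theorem hb_closed (n : ℕ) : IsClosed (hb n) := by
  have h : hb n = ⋂ v : Fin n → ℂ,
      {x | |(star v ⬝ᵥ (Matrix.of (hm x)).mulVec v).re| ≤ (star v ⬝ᵥ v).re} := by
    ext x
    rw [Set.mem_iInter]
    rfl
  rw [h]
  refine isClosed_iInter fun v => isClosed_le ?_ continuous_const
  have h1 : Continuous fun x : E (n * n) => (Matrix.of (hm x)).mulVec v :=
    HL_continuous_hm.matrix_mulVec continuous_const
  exact (Complex.continuous_re.comp (continuous_const.dotProduct h1)).abs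

end Pool.Agent.MPbd65ca.Hm
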