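import Pool.Agent.Lib.MP_bd65ca_an_H.Rad
import Pool.Agent.Lib.MP_bd65ca_an_H.HL
import Pool.Agent.Lib.MP_bd65ca_an_S.RSp
import Pool.Agent.Lib.MP_bd65ca_an_S.Dmp

/-!
# The inequality for a fixed unitary matrix

PROOF. Let `n = d + 1`, `δ > 0`, `Φ` from `Sp.exists_damp d hδ`, `G u = F (Lh W u) * Φ u` on `E (d
+ 1)`.
By `Sp.rs_fourier` (`K = hb n`, `L = Lh W`, `L' = Lk W`) `G` is integrable and `𝓕 G η = 0` for
`η ∉ cube n (1 + δ)`: for `x ∈ hb n` one has `Lk W x ∈ cube n 1` (`Lk_mem`), and `δ • bip d` is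
contained in
`cube n δ`.  With `c = 1 / (2 (1 + δ))` `radialL` applies to `u ↦ G (c • u)` (`Sp.fourier_scale`:
`c⁻¹ • cube n (1 / 2) = cube n (1 + δ)`).  Substitute `u = c⁻¹ u'` in the lintegral
(`Dl (c⁻¹ u) ^ 2 = c⁻¹ ^ (n (n - 1)) Dl u ^ 2`): it is `c⁻¹ ^ (n ^ 2) * ∫⁻ ofReal (G u * Dl u ^
2)` and
`G u ≤ F (Lh W u)`.  Let `δ → 0`: `c⁻¹ ^ (n ^ 2) → 2 ^ (n ^ 2)` and
`kp n / 2 ^ (n ^ 2) = ∏ j < n, lam j` (`4 ^ n * (2 / π) ^ (n (n - 1)) / 2 ^ (n ^ 2) = 2 ^ n / π ^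
(n (n - 1))`).
-/

open MeasureTheory FourierTransform Pointwise Set Finset Matrix Filter Topology
open scoped RealInnerProductSpace

namespace Pool.Agent.MPbd65ca.Hm

open Pool.Agent.MPbd65ca.Oct Pool.Agent.MPbd65ca.Bp

theorem kp_eq (n : ℕ) : kp n = 2 ^ (n ^ 2) * ∏ j ∈ range n, lam j := by
  induction n with
  | zero => simp [kp]
  | succ n ih =>
    have h1 : (n + 1) * (n + 1 - 1) = n * (n - 1) + 2 * n := by
      rcases n with _ | m
      · rfl
      · simp only [Nat.add_sub_cancel]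
        ring
    have h2 : (n + 1) ^ 2 = n ^ 2 + (2 * n + 1) := by ring
    have h3 : kp (n + 1) = kp n * (4 * (2 / Real.pi) ^ (2 * n) *
        ((n.factorial : ℝ) ^ 2 / hj n)) := by
      unfold kp
      rw [h1, pow_succ, pow_add, Finset.prod_range_succ]
      ring
    rw [h3, ih, h2, pow_add, Finset.prod_range_succ]
    have h4 : lam n * 2 ^ (2 * n + 1) = 4 * (2 / Real.pi) ^ (2 * n) *
        ((n.factorial : ℝ) ^ 2 / hj n) := by
      unfold lam
      rw [div_pow, pow_succ]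
      ring
    rw [← h4]
    ring

/-- The number of factors of the Vandermonde determinant. -/
private theorem hfix_card (n : ℕ) : n + 2 * ∑ i : Fin n, (Finset.Ioi i).card = n ^ 2 := by
  have h1 : ∑ i : Fin n, (Finset.Ioi i).card = ∑ i ∈ range n, i := by
    simp only [Fin.card_Ioi]
    rw [Fin.sum_univ_eq_sum_range (fun i => n - 1 - i) n]
    exact Finset.sum_range_reflect (fun i => i) n
  rw [h1, mul_comm 2, Finset.sum_range_id_mul_two]
  rcases n with _ | m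
  · rfl
  · simp only [Nat.add_sub_cancel]
    ring

private theorem hfix_Dl {n : ℕ} (c : ℝ) (u : Fin n → ℝ) :
    Dl (fun i => c * u i) = c ^ (∑ i : Fin n, (Finset.Ioi i).card) * Dl u := by
  unfold Dl
  rw [← Finset.prod_pow_eq_pow_sum, ← Finset.prod_mul_distrib]
  refine Finset.prod_congr rfl fun i _ => ?_
  rw [← Finset.prod_const, ← Finset.prod_mul_distrib]
  refine Finset.prod_congr rfl fun j _ => ?_
  ring

private theorem hfix_cont {n : ℕ} : Continuous fun w : E n => Dl (fun i => w i) ^ 2 := by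
  unfold Dl
  refine Continuous.pow ?_ 2
  refine continuous_finsetProd _ fun i _ => continuous_finsetProd _ fun j _ => ?_
  fun_prop

/-- The integrand. -/
private noncomputable def hfixH {n : ℕ} (g : E n → ℝ) (w : E n) : ENNReal :=
  ENNReal.ofReal (g w * Dl (fun i => w i) ^ 2)

/-- Substitution `w ↦ c • w`. -/
private theorem hfix_subst {n : ℕ} {g : E n → ℝ} (hg : Continuous g) {c : ℝ} (hc : 0 < c) :
    ∫⁻ w : E n, ENNReal.ofReal (g (c • w) * Dl (fun i => w i) ^ 2) =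
      ENNReal.ofReal (c⁻¹ ^ (n ^ 2)) * ∫⁻ w, hfixH g w := by
  obtain ⟨k, hk⟩ : ∃ k, k = ∑ i : Fin n, (Finset.Ioi i).card := ⟨_, rfl⟩
  have hkn : n + 2 * k = n ^ 2 := by
    rw [hk]
    exact hfix_card n
  have h1 : ∀ w : E n, ENNReal.ofReal (g (c • w) * Dl (fun i => w i) ^ 2) =
      ENNReal.ofReal (c⁻¹ ^ (2 * k)) * hfixH g (c • w) := by
    intro w
    unfold hfixH
    rw [← ENNReal.ofReal_mul (by positivity)]
    congr 1
    have h2 : Dl (fun i => (c • w) i) = c ^ k * Dl (fun i => w i) := by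
      rw [hk, ← hfix_Dl]
      rfl
    rw [h2]
    have h3 : c⁻¹ ^ (2 * k) * c ^ (2 * k) = 1 := by
      rw [← mul_pow, inv_mul_cancel₀ hc.ne', one_pow]
    calc g (c • w) * Dl (fun i => w i) ^ 2
        = (c⁻¹ ^ (2 * k) * c ^ (2 * k)) * (g (c • w) * Dl (fun i => w i) ^ 2) := by
          rw [h3, one_mul]
      _ = _ := by ring
  simp only [h1]
  have hm : Measurable (hfixH g) := by
    unfold hfixH
    exact ((hg.mul hfix_cont).measurable).ennreal_ofReal
  have hm' : Measurable fun w : E n => hfixH g (c • w) :=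
    hm.comp (measurable_const_smul c)
  rw [lintegral_const_mul _ hm']
  have h4 : ∫⁻ w : E n, hfixH g (c • w) =
      ENNReal.ofReal (c⁻¹ ^ n) * ∫⁻ w, hfixH g w := by
    have h5 := Measure.map_addHaar_smul (volume : Measure (E n)) hc.ne'
    rw [finrank_euclideanSpace_fin] at h5
    have h6 : ∫⁻ w, hfixH g w ∂(Measure.map (c • ·) (volume : Measure (E n))) =
        ∫⁻ w : E n, hfixH g (c • w) :=
      lintegral_map hm (measurable_const_smul c)
    rw [← h6, h5, lintegral_smul_measure, smul_eq_mul]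
    congr 2
    rw [abs_of_nonneg (by positivity), inv_pow]
  rw [h4, ← mul_assoc, ← ENNReal.ofReal_mul (by positivity), ← pow_add]
  congr 3
  omega

private theorem hfix_smul_cube {n : ℕ} {r s : ℝ} (hr : 0 < r) {x : E n}
    (hx : x ∈ cube n (r * s)) : x ∈ r • cube n s := by
  refine ⟨r⁻¹ • x, fun i => ?_, ?_⟩
  · have h1 := hx i
    rw [PiLp.smul_apply, smul_eq_mul, abs_mul, abs_of_pos (inv_pos.2 hr)]
    calc r⁻¹ * |x i| ≤ r⁻¹ * (r * s) := mul_le_mul_of_nonneg_left h1 (inv_pos.2 hr).le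
      _ = s := by rw [← mul_assoc, inv_mul_cancel₀ hr.ne', one_mul]
  · show r • r⁻¹ • x = x
    rw [smul_smul, mul_inv_cancel₀ hr.ne', one_smul]

private theorem hfix_bip {d : ℕ} {x : E (d + 1)} (hx : x ∈ bip d) (i : Fin (d + 1)) :
    |x i| ≤ 1 := by
  induction i using Fin.lastCases with
  | last => exact hx.1
  | cast j =>
    have h1 := hx.2 j
    have h2 := abs_nonneg (x (Fin.last d))
    linarith

/-- The inequality with the factor `(1 + δ) ^ k`. -/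
private theorem hfix_delta {d : ℕ} (hK : IsCompact (hb (d + 1)))
    {F : E ((d + 1) * (d + 1)) → ℝ}
    (hc : Continuous F) (hi : Integrable F) (h0 : ∀ w, 0 ≤ F w)
    (h : ∀ ξ ∉ hb (d + 1), 𝓕 (fun w => (F w : ℂ)) ξ = 0)
    {W : Matrix (Fin (d + 1)) (Fin (d + 1)) ℂ}
    (hW : W ∈ Matrix.unitaryGroup (Fin (d + 1)) ℂ) {δ : ℝ} (hδ : 0 < δ) :
    ENNReal.ofReal ((d + 1).factorial * (∏ j ∈ range (d + 1), lam j) * F 0) ≤
      ENNReal.ofReal ((1 + δ) ^ ((d + 1) ^ 2)) *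
      ∫⁻ u : E (d + 1), ENNReal.ofReal (F (Lh W u) * Dl (fun i => u i) ^ 2) := by
  obtain ⟨Φ, hΦc, hΦi, hΦ01, hΦ0, hΦ⟩ := Sp.exists_damp d hδ
  obtain ⟨hGi, hG⟩ := Sp.rs_fourier hK hc hi h hΦc hΦi (continuous_Lh W) (continuous_Lk W)
    (inner_Lh W)
  obtain ⟨G, hGdef⟩ : ∃ G : E (d + 1) → ℝ, G = fun w => F (Lh W w) * Φ w := ⟨_, rfl⟩
  have hGc : Continuous G := by
    rw [hGdef]
    exact (hc.comp (continuous_Lh W)).mul hΦc
  have hGi' : Integrable G := by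
    rw [hGdef]
    exact hGi
  have hG0 : ∀ w, 0 ≤ G w := by
    intro w
    rw [hGdef]
    exact mul_nonneg (h0 _) (hΦ01 w).1
  have hGle : ∀ w, G w ≤ F (Lh W w) := by
    intro w
    rw [hGdef]
    exact mul_le_of_le_one_right (h0 _) (hΦ01 w).2
  have hG00 : G 0 = F 0 := by
    rw [hGdef]
    change F (Lh W 0) * Φ 0 = F 0
    rw [hΦ0, Lh_zero, mul_one]
  have hGf : ∀ ξ ∉ cube (d + 1) (1 + δ), 𝓕 (fun w => (G w : ℂ)) ξ = 0 := by
    intro η hη
    rw [hGdef]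
    refine hG η fun ξ hξ => hΦ _ ?_
    intro hmem
    apply hη
    obtain ⟨v, hv, hv'⟩ := hmem
    have h1 := Lk_mem hW hξ
    intro i
    have h2 : η i = Lk W ξ i + δ * v i := by
      have h3 := congrArg (fun z : E (d + 1) => z i) hv'
      simp only [PiLp.smul_apply, PiLp.sub_apply, smul_eq_mul] at h3
      linarith
    rw [h2]
    calc |Lk W ξ i + δ * v i| ≤ |Lk W ξ i| + |δ * v i| := abs_add_le _ _
      _ ≤ 1 + δ := by
        rw [abs_mul, abs_of_pos hδ]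
        have h3 := h1 i
        have h4 := mul_le_mul_of_nonneg_left (hfix_bip hv i) hδ.le
        linarith
  have hc1 : (0 : ℝ) < 2 * (1 + δ) := by positivity
  have hc0 : (0 : ℝ) < (2 * (1 + δ))⁻¹ := by positivity
  have hsc : ∀ ξ ∉ cube (d + 1) (1 / 2),
      𝓕 (fun w => (G ((2 * (1 + δ))⁻¹ • w) : ℂ)) ξ = 0 := by
    refine Sp.fourier_scale hc0 ?_
    rw [inv_inv]
    intro ξ hξ
    refine hGf ξ fun hmem => hξ (hfix_smul_cube hc1 ?_)
    have h1 : 2 * (1 + δ) * (1 / 2) = 1 + δ := by ring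
    rw [h1]
    exact hmem
  have hmain := radialL (G := fun w : E (d + 1) => G ((2 * (1 + δ))⁻¹ • w))
    (hGc.comp (continuous_const_smul _)) (hGi'.comp_smul hc0.ne') (fun w => hG0 _) hsc
  have e1 : G ((2 * (1 + δ))⁻¹ • (0 : E (d + 1))) = F 0 := by
    rw [smul_zero]
    exact hG00
  rw [e1, hfix_subst hGc hc0, inv_inv, kp_eq, mul_pow,
    ENNReal.ofReal_mul (by positivity : (0 : ℝ) ≤ 2 ^ ((d + 1) ^ 2)),
    mul_assoc (ENNReal.ofReal _)] at hmain
  have e2 : ((d + 1).factorial : ℝ) * (2 ^ ((d + 1) ^ 2) * ∏ j ∈ range (d + 1), lam j) * F 0 =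
      2 ^ ((d + 1) ^ 2) * ((d + 1).factorial * (∏ j ∈ range (d + 1), lam j) * F 0) := by ring
  rw [e2, ENNReal.ofReal_mul (by positivity : (0 : ℝ) ≤ 2 ^ ((d + 1) ^ 2))] at hmain
  have e3 : ENNReal.ofReal (2 ^ ((d + 1) ^ 2)) ≠ 0 := by
    have : (0 : ℝ) < 2 ^ ((d + 1) ^ 2) := by positivity
    simpa using this
  have hmain' := (ENNReal.mul_le_mul_iff_right e3 ENNReal.ofReal_ne_top).1 hmain
  refine hmain'.trans ?_
  refine mul_le_mul_right ?_ _
  refine lintegral_mono fun w => ?_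
  unfold hfixH
  refine ENNReal.ofReal_le_ofReal ?_
  exact mul_le_mul_of_nonneg_right (hGle w) (sq_nonneg _)

theorem hfix {d : ℕ} (hK : IsCompact (hb (d + 1))) {F : E ((d + 1) * (d + 1)) → ℝ}
    (hc : Continuous F) (hi : Integrable F) (h0 : ∀ w, 0 ≤ F w)
    (h : ∀ ξ ∉ hb (d + 1), 𝓕 (fun w => (F w : ℂ)) ξ = 0)
    {W : Matrix (Fin (d + 1)) (Fin (d + 1)) ℂ}
    (hW : W ∈ Matrix.unitaryGroup (Fin (d + 1)) ℂ) :
    ENNReal.ofReal ((d + 1).factorial * (∏ j ∈ range (d + 1), lam j) * F 0) ≤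
      ∫⁻ u : E (d + 1), ENNReal.ofReal (F (Lh W u) * Dl (fun i => u i) ^ 2) := by
  obtain ⟨I, hI⟩ : ∃ I : ENNReal, I =
    ∫⁻ u : E (d + 1), ENNReal.ofReal (F (Lh W u) * Dl (fun i => u i) ^ 2) := ⟨_, rfl⟩
  rw [← hI]
  by_cases htop : I = ⊤
  · rw [htop]
    exact le_top
  · have hd : ∀ δ : ℝ, 0 < δ →
        ENNReal.ofReal ((d + 1).factorial * (∏ j ∈ range (d + 1), lam j) * F 0) ≤
          ENNReal.ofReal ((1 + δ) ^ ((d + 1) ^ 2)) * I := by
      intro δ hδ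
      rw [hI]
      exact hfix_delta hK hc hi h0 h hW hδ
    have h1 : Tendsto (fun δ : ℝ => ENNReal.ofReal ((1 + δ) ^ ((d + 1) ^ 2)) * I) (𝓝[>] 0)
        (𝓝 I) := by
      have h2 : Tendsto (fun δ : ℝ => (1 + δ) ^ ((d + 1) ^ 2)) (𝓝[>] 0) (𝓝 1) := by
        have h3 : Continuous fun δ : ℝ => (1 + δ) ^ ((d + 1) ^ 2) := by fun_prop
        have h4 := h3.tendsto 0
        rw [add_zero, one_pow] at h4
        exact h4.mono_left nhdsWithin_le_nhds
      have h5 := (ENNReal.continuous_ofReal.tendsto 1).comp h2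
      rw [ENNReal.ofReal_one] at h5
      have h6 := ENNReal.Tendsto.mul_const (b := I) h5 (Or.inr htop)
      rw [one_mul] at h6
      exact h6
    refine ge_of_tendsto h1 ?_
    filter_upwards [self_mem_nhdsWithin] with δ hδ
    exact hd δ hδ

end Pool.Agent.MPbd65ca.Hm
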