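import Pool.Agent.Lib.MP_bd65ca_an_H.Defs
import Mathlib.MeasureTheory.Integral.IntegralEqImproper
import Mathlib.Analysis.SpecialFunctions.PolarCoord
import Mathlib.MeasureTheory.Constructions.Pi

/-!
# An integral over `ℂ ^ n`

PROOF. Induction on `n` (with the exponent `n + 1`): split off one coordinate
(`volume_preserving_piFinSuccAbove`, `lintegral_prod`): for `α ≥ 1`
`∫⁻ ζ : ℂ, ofReal (1 / (α + ‖ζ‖ ^ 2) ^ (n + 2)) = ofReal (π / ((n + 1) α ^ (n + 1)))`
(polar coordinates in `ℂ`: `Complex.lintegral_comp_polarCoord_symm`, or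
`integral_fun_norm_addHaar`: `2 π ∫ r > 0, r / (α + r ^ 2) ^ (n + 2)`, antiderivative
`-1 / (2 (n + 1) (α + r ^ 2) ^ (n + 1))`), `α = 1 + nz z'`.
-/

open MeasureTheory FourierTransform Pointwise Set Finset Matrix
open scoped RealInnerProductSpace

namespace Pool.Agent.MPbd65ca.Hm

open Pool.Agent.MPbd65ca.Oct Pool.Agent.MPbd65ca.Bp

private theorem rad (m : ℕ) {α : ℝ} (hα : 0 < α) :
    ∫⁻ r in Ioi (0 : ℝ), ENNReal.ofReal (r / (α + r ^ 2) ^ (m + 2)) =
      ENNReal.ofReal (1 / (2 * (m + 1) * α ^ (m + 1))) := by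
  have hp : ∀ r : ℝ, 0 < α + r ^ 2 := fun r => by positivity
  have hd : ∀ r ∈ Ici (0 : ℝ), HasDerivAt
      (fun r : ℝ => -(1 / (2 * (m + 1) * (α + r ^ 2) ^ (m + 1))))
      (r / (α + r ^ 2) ^ (m + 2)) r := by
    intro r _
    have h1 : HasDerivAt (fun r : ℝ => α + r ^ 2) (2 * r) r := by
      simpa using (hasDerivAt_pow 2 r).const_add α
    have h2 := (h1.pow (m + 1)).const_mul (2 * ((m : ℝ) + 1))
    have h5 : 2 * ((m : ℝ) + 1) * (α + r ^ 2) ^ (m + 1) ≠ 0 := by
      have := hp r
      positivity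
    have h3 := (h2.inv h5).neg
    simp only [one_div]
    refine h3.congr_deriv ?_
    have := (hp r).ne'
    have h4 : (m : ℝ) + 1 ≠ 0 := by positivity
    push_cast
    simp only [Pi.pow_apply]
    field_simp
    ring
  have hn : ∀ r ∈ Ioi (0 : ℝ), 0 ≤ r / (α + r ^ 2) ^ (m + 2) := by
    intro r hr
    have := hp r
    have h0 : (0 : ℝ) < r := hr
    positivity
  have ht : Filter.Tendsto (fun r : ℝ => -(1 / (2 * ((m : ℝ) + 1) * (α + r ^ 2) ^ (m + 1))))
      Filter.atTop (nhds 0) := by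
    have h1 : Filter.Tendsto (fun r : ℝ => 2 * ((m : ℝ) + 1) * (α + r ^ 2) ^ (m + 1))
        Filter.atTop Filter.atTop := by
      apply Filter.Tendsto.const_mul_atTop (by positivity)
      apply (Filter.tendsto_pow_atTop (by omega)).comp
      apply Filter.tendsto_atTop_add_const_left
      exact Filter.tendsto_pow_atTop (by omega)
    have h2 := (tendsto_inv_atTop_zero.comp h1).neg
    simpa [Function.comp_def] using h2
  have hI := integral_Ioi_of_hasDerivAt_of_nonneg' hd hn ht
  have hJ := integrableOn_Ioi_deriv_of_nonneg' hd hn ht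
  rw [← ofReal_integral_eq_lintegral_ofReal hJ
    ((ae_restrict_iff' measurableSet_Ioi).2 (Filter.Eventually.of_forall hn)), hI]
  congr 1
  simp

private theorem one (m : ℕ) {α : ℝ} (hα : 0 < α) :
    ∫⁻ ζ : ℂ, ENNReal.ofReal (1 / (α + ‖ζ‖ ^ 2) ^ (m + 2)) =
      ENNReal.ofReal (Real.pi / ((m + 1) * α ^ (m + 1))) := by
  rw [← Complex.lintegral_comp_polarCoord_symm]
  have h1 : ∀ p ∈ polarCoord.target, ENNReal.ofReal p.1 •
      ENNReal.ofReal (1 / (α + ‖Complex.polarCoord.symm p‖ ^ 2) ^ (m + 2)) =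
      ENNReal.ofReal (p.1 / (α + p.1 ^ 2) ^ (m + 2)) * 1 := by
    intro p hp
    have h0 : 0 < p.1 := by
      rw [polarCoord_target] at hp
      exact hp.1
    rw [Complex.norm_polarCoord_symm, sq_abs, smul_eq_mul, ← ENNReal.ofReal_mul h0.le, mul_one]
    congr 1
    ring
  rw [setLIntegral_congr_fun (by rw [polarCoord_target]; measurability) h1, polarCoord_target,
    Measure.volume_eq_prod, ← Measure.prod_restrict,
    lintegral_prod_mul (f := fun r : ℝ => ENNReal.ofReal (r / (α + r ^ 2) ^ (m + 2)))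
      (g := fun _ => 1), rad m hα, lintegral_one, Measure.restrict_apply_univ, Real.volume_Ioo,
    ← ENNReal.ofReal_mul (by positivity)]
  · congr 1
    field_simp
    ring
  · exact (Measurable.ennreal_ofReal (by fun_prop)).aemeasurable
  · exact aemeasurable_const

theorem Jn (n : ℕ) : ∫⁻ z : Fin n → ℂ, ENNReal.ofReal (1 / (1 + nz z) ^ (n + 1)) =
    ENNReal.ofReal (Real.pi ^ n / n.factorial) := by
  induction n with
  | zero =>
    simp [nz, volume_pi]
  | succ n ih =>
    have he := (volume_preserving_piFinSuccAbove (fun _ : Fin (n + 1) => ℂ) 0).symm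
    rw [← he.lintegral_comp_emb (MeasurableEquiv.measurableEmbedding _)]
    have h1 : ∀ p : ℂ × (Fin n → ℂ), ENNReal.ofReal (1 / (1 + nz ((MeasurableEquiv.piFinSuccAbove
        (fun _ : Fin (n + 1) => ℂ) 0).symm p)) ^ (n + 1 + 1)) =
        ENNReal.ofReal (1 / ((1 + nz p.2) + ‖p.1‖ ^ 2) ^ (n + 2)) := by
      intro p
      have h2 : nz ((MeasurableEquiv.piFinSuccAbove (fun _ : Fin (n + 1) => ℂ) 0).symm p) =
          ‖p.1‖ ^ 2 + nz p.2 := by
        unfold nz
        rw [Fin.sum_univ_succ]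
        rfl
      rw [h2]
      congr 3
      ring
    simp only [h1]
    rw [Measure.volume_eq_prod, lintegral_prod_symm]
    · have h2 : ∀ z : Fin n → ℂ, 0 < 1 + nz z := by
        intro z
        have : 0 ≤ nz z := Finset.sum_nonneg fun i _ => by positivity
        linarith
      have h3 : ∀ z : Fin n → ℂ, ∫⁻ ζ : ℂ, ENNReal.ofReal (1 / ((1 + nz z) + ‖ζ‖ ^ 2) ^ (n + 2)) =
          ENNReal.ofReal (Real.pi / (n + 1)) * ENNReal.ofReal (1 / (1 + nz z) ^ (n + 1)) := by
        intro z
        rw [one n (h2 z), ← ENNReal.ofReal_mul (by positivity)]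
        congr 1
        have := (h2 z).ne'
        field_simp
      simp only [h3]
      rw [lintegral_const_mul' _ _ ENNReal.ofReal_ne_top, ih, ← ENNReal.ofReal_mul (by positivity)]
      congr 1
      rw [Nat.factorial_succ]
      push_cast
      field_simp
      ring
    · refine (Measurable.ennreal_ofReal ?_).aemeasurable
      unfold nz
      fun_prop

end Pool.Agent.MPbd65ca.Hm
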