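import Pool.Agent.Lib.MP_bd65ca_an_H.Defs

/-!
# Monic Legendre polynomials

`Lg j = j! / (2 j)! * D^j (X^2 - 1)^j`.

PROOF. Leading term: `D^j X^(2 j) = (2 j)! / j! * X^j` (`iterate_derivative_X_pow_eq_smul`,
`Nat.descFactorial`), so `Lg j` is monic of degree `j`.  Integration by parts `j` times
(`intervalIntegral.integral_mul_deriv_eq_deriv_mul`; `D^i (X^2 - 1)^j` vanishes at `1` and `-1` for
`i < j`): `∫ q * D^j (X^2 - 1)^j = (-1)^j ∫ D^j q * (X^2 - 1)^j` over `[-1, 1]` for every polynomial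
`q`.  For `natDegree q < j` this is `0` (`Lg_orth`: wlog `i < j`).  For `q = Lg j` (monic of degree
`j`, `D^j q = j!`): `hj j = (j!)^2 / (2 j)! * ∫ (1 - x^2)^j`, and
`∫ x in -1..1, (1 - x^2)^j = 2^(2 j + 1) (j!)^2 / (2 j + 1)!` (recursion
`(2 j + 3) I (j + 1) = (2 j + 2) I j` by parts, `I 0 = 2`).
-/

open MeasureTheory FourierTransform Pointwise Set Finset Matrix
open scoped RealInnerProductSpace

namespace Pool.Agent.MPbd65ca.Hm

open Pool.Agent.MPbd65ca.Oct Pool.Agent.MPbd65ca.Bp

/-- The integral over `[-1, 1]`. -/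
private noncomputable def LegI (p : Polynomial ℝ) : ℝ := ∫ x in (-1 : ℝ)..1, p.eval x

private theorem LegI_int (p : Polynomial ℝ) :
    IntervalIntegrable (fun x : ℝ => p.eval x) volume (-1) 1 :=
  p.continuous.intervalIntegrable _ _

private theorem LegI_add (p q : Polynomial ℝ) : LegI (p + q) = LegI p + LegI q := by
  unfold LegI
  rw [← intervalIntegral.integral_add (LegI_int p) (LegI_int q)]
  simp only [Polynomial.eval_add]

private theorem LegI_C_mul (c : ℝ) (p : Polynomial ℝ) :
    LegI (Polynomial.C c * p) = c * LegI p := by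
  unfold LegI
  rw [← intervalIntegral.integral_const_mul]
  simp only [Polynomial.eval_mul, Polynomial.eval_C]

private theorem LegI_derivative (p : Polynomial ℝ) :
    LegI (Polynomial.derivative p) = p.eval 1 - p.eval (-1) := by
  unfold LegI
  exact intervalIntegral.integral_eq_sub_of_hasDerivAt (fun x _ => p.hasDerivAt x)
    (LegI_int _)

private theorem LegI_parts (q r : Polynomial ℝ) (h1 : r.eval 1 = 0) (h2 : r.eval (-1) = 0) :
    LegI (q * Polynomial.derivative r) = -LegI (Polynomial.derivative q * r) := by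
  have h := LegI_derivative (q * r)
  rw [Polynomial.derivative_mul, LegI_add, Polynomial.eval_mul, Polynomial.eval_mul, h1, h2] at h
  linarith

private theorem Leg_van {i j : ℕ} (h : i < j) {x : ℝ} (hx : x ^ 2 = 1) :
    (Polynomial.derivative^[i] ((Polynomial.X ^ 2 - 1 : Polynomial ℝ) ^ j)).eval x = 0 := by
  obtain ⟨t, ht⟩ := Polynomial.pow_sub_dvd_iterate_derivative_of_pow_dvd i
    (dvd_refl ((Polynomial.X ^ 2 - 1 : Polynomial ℝ) ^ j))
  rw [ht, Polynomial.eval_mul, Polynomial.eval_pow]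
  have h1 : (Polynomial.X ^ 2 - 1 : Polynomial ℝ).eval x = 0 := by
    simp [hx]
  rw [h1, zero_pow (by omega), zero_mul]

private theorem Leg_iter {j : ℕ} (i : ℕ) (hi : i ≤ j) (q : Polynomial ℝ) :
    LegI (q * Polynomial.derivative^[i] ((Polynomial.X ^ 2 - 1 : Polynomial ℝ) ^ j)) =
      (-1) ^ i *
        LegI (Polynomial.derivative^[i] q * (Polynomial.X ^ 2 - 1 : Polynomial ℝ) ^ j) := by
  induction i generalizing q with
  | zero => simp
  | succ i ih =>
    rw [Function.iterate_succ_apply', LegI_parts _ _ (Leg_van (by omega) (by norm_num))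
      (Leg_van (by omega) (by norm_num)), ih (by omega), Function.iterate_succ_apply]
    ring

private theorem Leg_coeff (j : ℕ) : (Lg j).coeff j = 1 := by
  have h0 : ((Polynomial.X ^ 2 - 1 : Polynomial ℝ) ^ j).coeff (j + j) = 1 := by
    have h1 : (Polynomial.X ^ 2 - 1 : Polynomial ℝ).Monic := by
      have := Polynomial.monic_X_pow_sub_C (1 : ℝ) (two_ne_zero)
      rwa [Polynomial.C_1] at this
    have h2 : (Polynomial.X ^ 2 - 1 : Polynomial ℝ).natDegree = 2 := by
      have := Polynomial.natDegree_X_pow_sub_C (n := 2) (r := (1 : ℝ))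
      rwa [Polynomial.C_1] at this
    have h3 := (h1.pow j).coeff_natDegree
    rw [h1.natDegree_pow, h2] at h3
    rw [show j + j = j * 2 by ring]
    exact h3
  have h4 : ((j + j).descFactorial j : ℝ) = (2 * j).factorial / j.factorial := by
    have h5 := Nat.factorial_mul_descFactorial (n := j + j) (k := j) (by omega)
    rw [Nat.add_sub_cancel] at h5
    rw [eq_div_iff (by exact_mod_cast j.factorial_ne_zero), show 2 * j = j + j by ring, ← h5]
    push_cast
    ring
  unfold Lg
  rw [Polynomial.coeff_C_mul, Polynomial.coeff_iterate_derivative, h0, nsmul_eq_mul, h4]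
  have h6 : (j.factorial : ℝ) ≠ 0 := by exact_mod_cast j.factorial_ne_zero
  have h7 : ((2 * j).factorial : ℝ) ≠ 0 := by exact_mod_cast (2 * j).factorial_ne_zero
  field_simp

private theorem Leg_degree (j : ℕ) : (Lg j).natDegree ≤ j := by
  unfold Lg
  refine (Polynomial.natDegree_C_mul_le _ _).trans ?_
  refine (Polynomial.natDegree_iterate_derivative _ _).trans ?_
  have h2 : (Polynomial.X ^ 2 - 1 : Polynomial ℝ).natDegree = 2 := by
    have := Polynomial.natDegree_X_pow_sub_C (n := 2) (r := (1 : ℝ))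
    rwa [Polynomial.C_1] at this
  rw [Polynomial.natDegree_pow, h2]
  omega

private theorem Leg_mul (q : Polynomial ℝ) (j : ℕ) : LegI (q * Lg j) =
    (j.factorial : ℝ) / (2 * j).factorial * ((-1) ^ j *
      LegI (Polynomial.derivative^[j] q * (Polynomial.X ^ 2 - 1 : Polynomial ℝ) ^ j)) := by
  unfold Lg
  rw [mul_left_comm, LegI_C_mul, Leg_iter j le_rfl]

/-- The integrals of the powers of `1 - x ^ 2`. -/
private theorem Leg_J (j : ℕ) : LegI ((1 - Polynomial.X ^ 2 : Polynomial ℝ) ^ j) =
    2 ^ (2 * j + 1) * (j.factorial : ℝ) ^ 2 / (2 * j + 1).factorial := by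
  induction j with
  | zero =>
    unfold LegI
    simp
    norm_num
  | succ j ih =>
    have h1 := LegI_derivative (Polynomial.X * (1 - Polynomial.X ^ 2 : Polynomial ℝ) ^ (j + 1))
    have h2 : Polynomial.derivative
        (Polynomial.X * (1 - Polynomial.X ^ 2 : Polynomial ℝ) ^ (j + 1)) =
        Polynomial.C (2 * (j : ℝ) + 3) * (1 - Polynomial.X ^ 2 : Polynomial ℝ) ^ (j + 1) +
        Polynomial.C (-(2 * (j : ℝ) + 2)) * (1 - Polynomial.X ^ 2 : Polynomial ℝ) ^ j := by
      rw [Polynomial.derivative_mul, Polynomial.derivative_X, Polynomial.derivative_pow_succ,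
        Polynomial.derivative_sub, Polynomial.derivative_one, Polynomial.derivative_X_pow]
      simp only [map_add, map_mul, map_neg, Polynomial.C_ofNat, map_natCast,
        map_one]
      push_cast
      ring
    rw [h2, LegI_add, LegI_C_mul, LegI_C_mul, ih] at h1
    have h3 : (Polynomial.X * (1 - Polynomial.X ^ 2 : Polynomial ℝ) ^ (j + 1)).eval 1 -
        (Polynomial.X * (1 - Polynomial.X ^ 2 : Polynomial ℝ) ^ (j + 1)).eval (-1) = 0 := by
      simp
    rw [h3] at h1
    have h4 : ((2 * (j + 1) + 1).factorial : ℝ) =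
        (2 * (j : ℝ) + 3) * ((2 * (j : ℝ) + 2) * (2 * j + 1).factorial) := by
      rw [show 2 * (j + 1) + 1 = (2 * j + 1 + 1) + 1 by ring, Nat.factorial_succ,
        Nat.factorial_succ]
      push_cast
      ring
    have h5 : ((j + 1).factorial : ℝ) = ((j : ℝ) + 1) * j.factorial := by
      rw [Nat.factorial_succ]
      push_cast
      ring
    have h6 : ((2 * j + 1).factorial : ℝ) ≠ 0 := by exact_mod_cast (2 * j + 1).factorial_ne_zero
    have h7 : (2 * (j : ℝ) + 3) ≠ 0 := by positivity
    have h8 : (2 * (j : ℝ) + 2) ≠ 0 := by positivity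
    have h9 : LegI ((1 - Polynomial.X ^ 2 : Polynomial ℝ) ^ (j + 1)) =
        (2 * (j : ℝ) + 2) * (2 ^ (2 * j + 1) * (j.factorial : ℝ) ^ 2 / (2 * j + 1).factorial) /
          (2 * (j : ℝ) + 3) := by
      rw [eq_div_iff h7]
      linarith
    rw [h9, h4, h5]
    have h10 : (2 : ℝ) ^ (2 * (j + 1) + 1) = 4 * 2 ^ (2 * j + 1) := by
      rw [show 2 * (j + 1) + 1 = (2 * j + 1) + 2 by ring, pow_add]
      ring
    rw [h10]
    field_simp
    ring

theorem Lg_monic (j : ℕ) : (Lg j).Monic := by
  exact Polynomial.monic_of_natDegree_le_of_coeff_eq_one j (Leg_degree j) (Leg_coeff j)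

theorem Lg_natDegree (j : ℕ) : (Lg j).natDegree = j := by
  refine Polynomial.natDegree_eq_of_le_of_coeff_ne_zero (Leg_degree j) ?_
  rw [Leg_coeff]
  exact one_ne_zero

theorem Lg_orth {i j : ℕ} (h : i ≠ j) :
    ∫ x in (-1 : ℝ)..1, (Lg i).eval x * (Lg j).eval x = 0 := by
  have key : ∀ i j : ℕ, i < j → LegI (Lg i * Lg j) = 0 := by
    intro i j hij
    rw [Leg_mul, Polynomial.iterate_derivative_eq_zero ((Leg_degree i).trans_lt hij), zero_mul]
    have h0 : LegI 0 = 0 := by
      unfold LegI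
      simp
    rw [h0, mul_zero, mul_zero]
  have e : ∀ i j : ℕ, ∫ x in (-1 : ℝ)..1, (Lg i).eval x * (Lg j).eval x = LegI (Lg i * Lg j) := by
    intro i j
    unfold LegI
    simp only [Polynomial.eval_mul]
  rw [e]
  rcases lt_or_gt_of_ne h with h | h
  · exact key i j h
  · rw [mul_comm]
    exact key j i h

theorem hj_eq (j : ℕ) : hj j =
    2 ^ (2 * j + 1) * (j.factorial : ℝ) ^ 4 / ((2 * j).factorial * (2 * j + 1).factorial) := by
  have e : hj j = LegI (Lg j * Lg j) := by
    unfold LegI hj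
    simp only [Polynomial.eval_mul, sq]
  have h1 : Polynomial.derivative^[j] (Lg j) = Polynomial.C (j.factorial : ℝ) := by
    have h2 : (Polynomial.derivative^[j] (Lg j)).natDegree ≤ 0 := by
      refine (Polynomial.natDegree_iterate_derivative _ _).trans ?_
      have := Leg_degree j
      omega
    rw [Polynomial.eq_C_of_natDegree_le_zero h2, Polynomial.coeff_iterate_derivative, zero_add,
      Leg_coeff, Nat.descFactorial_self, nsmul_eq_mul, mul_one]
  have h3 : (-1 : ℝ) ^ j * LegI ((Polynomial.X ^ 2 - 1 : Polynomial ℝ) ^ j) =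
      LegI ((1 - Polynomial.X ^ 2 : Polynomial ℝ) ^ j) := by
    rw [← LegI_C_mul, Polynomial.C_pow, ← mul_pow]
    congr 2
    rw [Polynomial.C_neg, Polynomial.C_1]
    ring
  have h4 : ∀ a b c d : ℝ, a * (b * (c * d)) = a * (c * (b * d)) := by
    intro a b c d
    ring
  rw [e, Leg_mul, h1, LegI_C_mul, h4, h3, Leg_J]
  have h6 : ((2 * j).factorial : ℝ) ≠ 0 := by exact_mod_cast (2 * j).factorial_ne_zero
  have h7 : ((2 * j + 1).factorial : ℝ) ≠ 0 := by exact_mod_cast (2 * j + 1).factorial_ne_zero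
  field_simp

theorem hj_pos (j : ℕ) : 0 < hj j := by
  rw [hj_eq]
  positivity

end Pool.Agent.MPbd65ca.Hm
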