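import Pool.Agent.Lib.MP_bd65ca_an_H.Defs

/-!
# Complex linear changes of variables

PROOF. The map `z ↦ D.mulVec z` on `Fin n → ℂ` is real linear with determinant `‖D.det‖ ^ 2`
(`LinearMap.det_restrictScalars`, `Algebra.norm ℝ` of a complex number is `normSq`,
`LinearMap.det_toLin'`), and `MeasureTheory.Measure.map_linearMap_addHaar_eq_smul_addHaar` /
`lintegral_map`.  (Alternatively: by `Matrix.diagonal_transvection_induction_of_det_ne_zero`.)
-/

open MeasureTheory FourierTransform Pointwise Set Finset Matrix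
open scoped RealInnerProductSpace

namespace Pool.Agent.MPbd65ca.Hm

open Pool.Agent.MPbd65ca.Oct Pool.Agent.MPbd65ca.Bp

theorem lin_sub {n : ℕ} {D : Matrix (Fin n) (Fin n) ℂ} (hD : D.det ≠ 0)
    {g : (Fin n → ℂ) → ENNReal} (hg : Measurable g) :
    ∫⁻ w, g w = ENNReal.ofReal (‖D.det‖ ^ 2) * ∫⁻ z, g (D.mulVec z) := by
  set f : (Fin n → ℂ) →ₗ[ℝ] (Fin n → ℂ) := (Matrix.toLin' D).restrictScalars ℝ with hf
  have hdet : LinearMap.det f = ‖D.det‖ ^ 2 := by
    rw [hf, LinearMap.det_restrictScalars, LinearMap.det_toLin', Algebra.norm_complex_apply,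
      Complex.normSq_eq_norm_sq]
  have hpos : 0 < ‖D.det‖ ^ 2 := pow_pos (norm_pos_iff.2 hD) 2
  have hdet0 : LinearMap.det f ≠ 0 := by
    rw [hdet]
    exact hpos.ne'
  have hmap := MeasureTheory.Measure.map_linearMap_addHaar_eq_smul_addHaar
    (volume : Measure (Fin n → ℂ)) hdet0
  have hfm : Measurable (fun z : Fin n → ℂ => f z) :=
    (LinearMap.continuous_of_finiteDimensional f).measurable
  have h1 : ∫⁻ z, g (f z) = ∫⁻ w, g w ∂(Measure.map f volume) :=
    (lintegral_map hg hfm).symm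
  have h2 : ∫⁻ z, g (D.mulVec z) = ∫⁻ z, g (f z) := rfl
  rw [h2, h1, hmap, lintegral_smul_measure, hdet, abs_of_pos (inv_pos.2 hpos), smul_eq_mul,
    ← mul_assoc, ← ENNReal.ofReal_mul hpos.le, mul_inv_cancel₀ hpos.ne', ENNReal.ofReal_one,
    one_mul]

end Pool.Agent.MPbd65ca.Hm
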