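import Pool.Agent.Lib.MP_bd65ca_an_H.Leg
import Pool.Agent.Lib.MP_bd65ca_an.Oct.Disc

/-!
# The discrete inequality in one variable

PROOF. `one_var`: let `ε > 0`.  By `H_sq_sum` (`n = N`) `P u + ε = ‖H (2 * N) x u‖ ^ 2 = ‖q(z)‖ ^
2`,
`q = ∑ k < 2 N, x k z^k`, `z = e^{i u}`.  Let `r = (1 - z)^j q = ∑ k < 2 N + j, a k z^k`.
(1) `wz u = ‖1 - z‖ ^ 2`, so `wz u ^ j * (P u + ε) = ‖r(z)‖ ^ 2`, and the average over `u = 2 π l
/ L`,
`l < L`, `L ≥ 2 N + j`, is `∑ k, ‖a k‖ ^ 2` (orthogonality of the characters).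
(2) `∑ k, a k * p k = (-1)^j j! q(1)` for every monic `p` of degree `j`: the polynomials of degree
`≤ j` in
`k` are spanned by `1, k, k (k - 1), ..., k (k - 1) ... (k - j + 1)` (`descPochhammer`), and
`∑ k, a k * k (k - 1) ... (k - i + 1) = r^(i)(1)`, which is `0` for `i < j` and `(-1)^j j! q(1)` for
`i = j` (`p - descPochhammer j` has degree `< j`).
(3) Cauchy-Schwarz: `(j!)^2 (P 0 + ε) = ‖∑ a k p k‖ ^ 2 ≤ (∑ p k ^ 2) (∑ ‖a k‖ ^ 2)`.  Let `ε → 0`.
`one_lam`: `p = C (N ^ j) * (Lg j).comp (C (1 / N) * X - 1)`, monic of degree `j`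
(`Lg_monic`, `Lg_natDegree`), `∑ k, p k ^ 2 = Sj N j`; if `Sj N j = 0` then `lamN N j = 0`.
-/

open MeasureTheory FourierTransform Pointwise Set Finset Matrix
open scoped RealInnerProductSpace

namespace Pool.Agent.MPbd65ca.Hm

open Pool.Agent.MPbd65ca.Oct Pool.Agent.MPbd65ca.Bp

/-- Parseval for the grid through `0`. -/
private theorem One_pars {L : ℕ} (hL : 0 < L) (a : ℕ → ℂ) :
    ∑ l ∈ range L, ‖H L a (2 * Real.pi * l / L)‖ ^ 2 = L * ∑ k ∈ range L, ‖a k‖ ^ 2 := by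
  have hL' : (L : ℝ) ≠ 0 := by exact_mod_cast hL.ne'
  have h := parseval hL (fun k => a k * Complex.exp (Complex.I * (k * ((-(Real.pi / L) : ℝ) : ℂ))))
  have h1 : ∀ k : ℕ, ‖a k * Complex.exp (Complex.I * (k * ((-(Real.pi / L) : ℝ) : ℂ)))‖ =
      ‖a k‖ := by
    intro k
    have e : Complex.I * (k * ((-(Real.pi / L) : ℝ) : ℂ)) =
        ((k * (-(Real.pi / L)) : ℝ) : ℂ) * Complex.I := by
      push_cast
      ring
    rw [norm_mul, e, Complex.norm_exp_ofReal_mul_I, mul_one]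
  simp only [h1] at h
  rw [← h]
  refine Finset.sum_congr rfl fun l _ => ?_
  congr 2
  unfold H
  refine Finset.sum_congr rfl fun k _ => ?_
  show a k * Complex.exp (Complex.I * (k * ((2 * Real.pi * l / L : ℝ) : ℂ))) =
    a k * Complex.exp (Complex.I * (k * ((-(Real.pi / L) : ℝ) : ℂ))) *
      Complex.exp (Complex.I * (k * ((nd L l : ℝ) : ℂ)))
  rw [mul_assoc (a k), ← Complex.exp_add]
  congr 2
  have e : (2 * Real.pi * l / L : ℝ) = -(Real.pi / L) + nd L l := by
    unfold nd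
    field_simp
    ring
  rw [e, Complex.ofReal_add]
  ring

private theorem One_step (M : ℕ) (s : Polynomial ℂ) (hs : s.natDegree < M) (f : ℕ → ℂ) :
    ∑ k ∈ range (M + 1), ((1 - Polynomial.X) * s).coeff k * f k =
      -∑ k ∈ range M, s.coeff k * (fwdDiff 1 f) k := by
  have h1 : ∀ k, ((1 - Polynomial.X) * s).coeff k = s.coeff k - (Polynomial.X * s).coeff k := by
    intro k
    rw [sub_mul, one_mul, Polynomial.coeff_sub]
  have h2 : ∑ k ∈ range (M + 1), s.coeff k * f k = ∑ k ∈ range M, s.coeff k * f k := by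
    rw [Finset.sum_range_succ, Polynomial.coeff_eq_zero_of_natDegree_lt hs, zero_mul, add_zero]
  have h3 : ∑ k ∈ range (M + 1), (Polynomial.X * s).coeff k * f k =
      ∑ k ∈ range M, s.coeff k * f (k + 1) := by
    rw [Finset.sum_range_succ']
    simp only [Polynomial.coeff_X_mul, Polynomial.coeff_X_mul_zero, zero_mul, add_zero]
  calc ∑ k ∈ range (M + 1), ((1 - Polynomial.X) * s).coeff k * f k
      = ∑ k ∈ range (M + 1), s.coeff k * f k -
          ∑ k ∈ range (M + 1), (Polynomial.X * s).coeff k * f k := by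
        rw [← Finset.sum_sub_distrib]
        refine Finset.sum_congr rfl fun k _ => ?_
        rw [h1, sub_mul]
    _ = -∑ k ∈ range M, s.coeff k * (fwdDiff 1 f) k := by
        rw [h2, h3, ← Finset.sum_sub_distrib, ← Finset.sum_neg_distrib]
        refine Finset.sum_congr rfl fun k _ => ?_
        unfold fwdDiff
        ring

private theorem One_deg (j M : ℕ) (s : Polynomial ℂ) (hs : s.natDegree < M) :
    ((1 - Polynomial.X) ^ j * s).natDegree < M + j := by
  have h1 : ((1 - Polynomial.X : Polynomial ℂ)).natDegree ≤ 1 := by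
    refine (Polynomial.natDegree_sub_le _ _).trans ?_
    simp
  have h2 : ((1 - Polynomial.X : Polynomial ℂ) ^ j).natDegree ≤ j := by
    refine Polynomial.natDegree_pow_le.trans ?_
    calc j * (1 - Polynomial.X : Polynomial ℂ).natDegree ≤ j * 1 := by gcongr
      _ = j := mul_one j
  have h3 := Polynomial.natDegree_mul_le (p := (1 - Polynomial.X : Polynomial ℂ) ^ j) (q := s)
  omega

private theorem One_iter (M : ℕ) (s : Polynomial ℂ) (hs : s.natDegree < M) (j : ℕ) :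
    ∀ f : ℕ → ℂ, ∑ k ∈ range (M + j), ((1 - Polynomial.X) ^ j * s).coeff k * f k =
      (-1) ^ j * ∑ k ∈ range M, s.coeff k * ((fwdDiff 1)^[j] f) k := by
  induction j with
  | zero =>
    intro f
    simp
  | succ j ih =>
    intro f
    have h1 : (1 - Polynomial.X) ^ (j + 1) * s =
        (1 - Polynomial.X) * ((1 - Polynomial.X) ^ j * s) := by
      rw [pow_succ']
      ring
    rw [h1, ← add_assoc, One_step (M + j) _ (One_deg j M s hs) f, ih,
      Function.iterate_succ_apply, pow_succ]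
    ring

private theorem One_cast (j : ℕ) : ∀ (g : ℝ → ℝ) (k : ℕ),
    ((fwdDiff 1)^[j] (fun k : ℕ => ((g k : ℝ) : ℂ))) k = (((fwdDiff 1)^[j] g (k : ℝ) : ℝ) : ℂ) := by
  induction j with
  | zero =>
    intro g k
    rfl
  | succ j ih =>
    intro g k
    have h : fwdDiff 1 (fun k : ℕ => ((g k : ℝ) : ℂ)) =
        fun k : ℕ => (((fwdDiff 1 g) (k : ℝ) : ℝ) : ℂ) := by
      funext k
      unfold fwdDiff
      push_cast
      rfl
    rw [Function.iterate_succ_apply, Function.iterate_succ_apply, h]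
    exact ih _ k

private theorem One_fun (M : ℕ) (s : Polynomial ℂ) (hs : s.natDegree < M) {j : ℕ}
    {p : Polynomial ℝ} (hp : p.Monic) (hd : p.natDegree = j) :
    ∑ k ∈ range (M + j), ((1 - Polynomial.X) ^ j * s).coeff k * ((p.eval (k : ℝ) : ℝ) : ℂ) =
      (-1) ^ j * (j.factorial * s.eval 1) := by
  rw [One_iter M s hs j (fun k : ℕ => ((p.eval (k : ℝ) : ℝ) : ℂ))]
  have h1 : ∀ k : ℕ, ((fwdDiff 1)^[j] (fun k : ℕ => ((p.eval (k : ℝ) : ℝ) : ℂ))) k =
      (j.factorial : ℂ) := by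
    intro k
    have h2 := Polynomial.fwdDiff_iter_degree_eq_factorial p
    rw [hd, hp.leadingCoeff, one_smul] at h2
    rw [One_cast j (fun x => p.eval x) k]
    have h3 := congrFun h2 (k : ℝ)
    have h4 : (fwdDiff 1)^[j] (fun x => p.eval x) (k : ℝ) = (j.factorial : ℝ) := h3
    rw [h4, Complex.ofReal_natCast]
  simp only [h1]
  rw [← Finset.sum_mul, Polynomial.eval_eq_sum_range' hs]
  simp only [one_pow, mul_one]
  ring

private theorem One_wz (u : ℝ) : wz u = ‖1 - Complex.exp (Complex.I * u)‖ ^ 2 := by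
  rw [Lin.norm_one_sub]
  unfold wz
  have h1 : Real.cos u = 1 - 2 * Real.sin (u / 2) ^ 2 := by
    have e : u = 2 * (u / 2) := by ring
    conv_lhs => rw [e]
    rw [Real.cos_two_mul, Real.cos_sq']
    ring
  rw [h1]
  ring

private theorem One_wz_nonneg (u : ℝ) : 0 ≤ wz u := by
  unfold wz
  linarith [Real.cos_le_one u]

private theorem One_eps {N j L : ℕ} (hN : 0 < N) (hL : 2 * N + j ≤ L) {P : ℝ → ℝ}
    (hP : TP (2 * N - 1) P) (h0 : ∀ u, 0 ≤ P u) {p : Polynomial ℝ} (hp : p.Monic)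
    (hd : p.natDegree = j) {ε : ℝ} (hε : 0 < ε) :
    (j.factorial : ℝ) ^ 2 * (P 0 + ε) ≤ (∑ k ∈ range (2 * N + j), p.eval (k : ℝ) ^ 2) *
      (1 / (L : ℝ) * ∑ l ∈ range L, wz (2 * Real.pi * l / L) ^ j *
        (P (2 * Real.pi * l / L) + ε)) := by
  have hL0 : 0 < L := by omega
  have hL' : (L : ℝ) ≠ 0 := by exact_mod_cast hL0.ne'
  obtain ⟨x, hx⟩ := H_sq_sum hN hP h0 hε
  let s : Polynomial ℂ := ∑ k ∈ range (2 * N), Polynomial.C (x k) * Polynomial.X ^ k
  have hse : ∀ z : ℂ, s.eval z = ∑ k ∈ range (2 * N), x k * z ^ k := by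
    intro z
    simp only [s, Polynomial.eval_finsetSum, Polynomial.eval_mul, Polynomial.eval_C,
      Polynomial.eval_pow, Polynomial.eval_X]
  have hs : s.natDegree < 2 * N := by
    have h1 : s.natDegree ≤ 2 * N - 1 := by
      refine Polynomial.natDegree_sum_le_of_forall_le _ _ fun k hk => ?_
      refine (Polynomial.natDegree_C_mul_X_pow_le _ _).trans ?_
      have := Finset.mem_range.1 hk
      omega
    omega
  have hexp : ∀ (k : ℕ) (u : ℝ), Complex.exp (Complex.I * (k * u)) =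
      Complex.exp (Complex.I * u) ^ k := by
    intro k u
    rw [← Complex.exp_nat_mul]
    congr 1
    ring
  have hH : ∀ u : ℝ, H (2 * N) x u = s.eval (Complex.exp (Complex.I * u)) := by
    intro u
    rw [hse]
    unfold H
    exact Finset.sum_congr rfl fun k _ => by rw [hexp]
  let r : Polynomial ℂ := (1 - Polynomial.X) ^ j * s
  have hr : r.natDegree < 2 * N + j := One_deg j (2 * N) s hs
  have hHr : ∀ u : ℝ, H L r.coeff u = r.eval (Complex.exp (Complex.I * u)) := by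
    intro u
    rw [Polynomial.eval_eq_sum_range' (hr.trans_le hL)]
    unfold H
    exact Finset.sum_congr rfl fun k _ => by rw [hexp]
  have h1 : ∀ u : ℝ, ‖H L r.coeff u‖ ^ 2 = wz u ^ j * (P u + ε) := by
    intro u
    rw [hHr, hx u, hH, One_wz, ← pow_mul, mul_comm 2 j, pow_mul]
    simp only [r, Polynomial.eval_mul, Polynomial.eval_pow, Polynomial.eval_sub,
      Polynomial.eval_one, Polynomial.eval_X, norm_mul, norm_pow]
    ring
  have h2 : 1 / (L : ℝ) * ∑ l ∈ range L, wz (2 * Real.pi * l / L) ^ j *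
      (P (2 * Real.pi * l / L) + ε) = ∑ k ∈ range L, ‖r.coeff k‖ ^ 2 := by
    have h3 := One_pars hL0 r.coeff
    simp only [h1] at h3
    rw [h3]
    field_simp
  have h3 : ∑ k ∈ range (2 * N + j), ‖r.coeff k‖ ^ 2 ≤ ∑ k ∈ range L, ‖r.coeff k‖ ^ 2 :=
    Finset.sum_le_sum_of_subset_of_nonneg (Finset.range_subset_range.2 hL)
      fun _ _ _ => by positivity
  have h4 := One_fun (2 * N) s hs hp hd
  have h5 : ‖s.eval 1‖ ^ 2 = P 0 + ε := by
    rw [hx 0, hH]
    simp
  have h6 : ‖∑ k ∈ range (2 * N + j), r.coeff k * ((p.eval (k : ℝ) : ℝ) : ℂ)‖ ^ 2 =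
      (j.factorial : ℝ) ^ 2 * (P 0 + ε) := by
    rw [h4, ← h5]
    simp only [norm_mul, norm_pow, norm_neg, norm_one, one_pow, one_mul, Complex.norm_natCast]
    ring
  have h7 : ‖∑ k ∈ range (2 * N + j), r.coeff k * ((p.eval (k : ℝ) : ℝ) : ℂ)‖ ≤
      ∑ k ∈ range (2 * N + j), |p.eval (k : ℝ)| * ‖r.coeff k‖ := by
    refine (norm_sum_le _ _).trans (le_of_eq ?_)
    refine Finset.sum_congr rfl fun k _ => ?_
    rw [norm_mul, Complex.norm_real, Real.norm_eq_abs, mul_comm]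
  have h8 := Finset.sum_mul_sq_le_sq_mul_sq (range (2 * N + j)) (fun k : ℕ => |p.eval (k : ℝ)|)
    (fun k => ‖r.coeff k‖)
  simp only [sq_abs] at h8
  rw [← h6, h2]
  calc ‖∑ k ∈ range (2 * N + j), r.coeff k * ((p.eval (k : ℝ) : ℝ) : ℂ)‖ ^ 2
      ≤ (∑ k ∈ range (2 * N + j), |p.eval (k : ℝ)| * ‖r.coeff k‖) ^ 2 := by
        gcongr
    _ ≤ _ := h8
    _ ≤ _ := mul_le_mul_of_nonneg_left h3 (Finset.sum_nonneg fun _ _ => sq_nonneg _)

theorem one_var {N j L : ℕ} (hN : 0 < N) (hL : 2 * N + j ≤ L) {P : ℝ → ℝ}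
    (hP : TP (2 * N - 1) P) (h0 : ∀ u, 0 ≤ P u) {p : Polynomial ℝ} (hp : p.Monic)
    (hd : p.natDegree = j) :
    (j.factorial : ℝ) ^ 2 * P 0 ≤ (∑ k ∈ range (2 * N + j), p.eval (k : ℝ) ^ 2) *
      (1 / (L : ℝ) * ∑ l ∈ range L, wz (2 * Real.pi * l / L) ^ j * P (2 * Real.pi * l / L)) := by
  set S : ℝ := ∑ k ∈ range (2 * N + j), p.eval (k : ℝ) ^ 2 with hS
  set W : ℝ := 1 / (L : ℝ) * ∑ l ∈ range L, wz (2 * Real.pi * l / L) ^ j with hW
  have hS0 : 0 ≤ S := Finset.sum_nonneg fun _ _ => sq_nonneg _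
  have hW0 : 0 ≤ W := mul_nonneg (by positivity)
    (Finset.sum_nonneg fun _ _ => pow_nonneg (One_wz_nonneg _) _)
  refine le_of_forall_pos_le_add fun δ hδ => ?_
  have hSW : 0 ≤ S * W := mul_nonneg hS0 hW0
  have h1 := One_eps hN hL hP h0 hp hd (ε := δ / (S * W + 1)) (by positivity)
  have h2 : 1 / (L : ℝ) * ∑ l ∈ range L, wz (2 * Real.pi * l / L) ^ j *
      (P (2 * Real.pi * l / L) + δ / (S * W + 1)) =
      1 / (L : ℝ) * ∑ l ∈ range L, wz (2 * Real.pi * l / L) ^ j * P (2 * Real.pi * l / L) +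
        δ / (S * W + 1) * W := by
    rw [hW]
    simp only [mul_add, Finset.sum_add_distrib, ← Finset.sum_mul]
    ring
  rw [h2, ← hS] at h1
  have h3 : S * (δ / (S * W + 1) * W) ≤ δ := by
    have h4 : S * (δ / (S * W + 1) * W) = δ / (S * W + 1) * (S * W) := by ring
    rw [h4, div_mul_eq_mul_div, div_le_iff₀ (by positivity)]
    nlinarith
  have h5 : 0 ≤ (j.factorial : ℝ) ^ 2 * (δ / (S * W + 1)) := by positivity
  rw [mul_add, mul_add] at h1
  linarith

theorem one_lam {N j L : ℕ} (hN : 0 < N) (hL : 2 * N + j ≤ L) {P : ℝ → ℝ}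
    (hP : TP (2 * N - 1) P) (h0 : ∀ u, 0 ≤ P u) :
    lamN N j * P 0 ≤
      1 / (L : ℝ) * ∑ l ∈ range L, wz (2 * Real.pi * l / L) ^ j * P (2 * Real.pi * l / L) := by
  have hN' : (N : ℝ) ≠ 0 := by exact_mod_cast hN.ne'
  let a : Polynomial ℝ := Polynomial.C (1 / (N : ℝ)) * Polynomial.X + Polynomial.C (-1)
  let p : Polynomial ℝ := Polynomial.C ((N : ℝ) ^ j) * (Lg j).comp a
  have ha1 : a.natDegree = 1 := Polynomial.natDegree_linear (by positivity)
  have ha2 : a.leadingCoeff = 1 / (N : ℝ) := Polynomial.leadingCoeff_linear (by positivity)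
  have hp1 : p.Monic := by
    show p.leadingCoeff = 1
    simp only [p]
    rw [Polynomial.leadingCoeff_mul, Polynomial.leadingCoeff_C,
      Polynomial.leadingCoeff_comp (by rw [ha1]; exact one_ne_zero), (Lg_monic j).leadingCoeff,
      ha2, Lg_natDegree, one_mul, ← mul_pow, mul_one_div_cancel hN', one_pow]
  have hp2 : p.natDegree = j := by
    simp only [p]
    rw [Polynomial.natDegree_C_mul (pow_ne_zero j hN'), Polynomial.natDegree_comp, ha1,
      Lg_natDegree, mul_one]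
  have h1 := one_var hN hL hP h0 hp1 hp2
  have h2 : ∑ k ∈ range (2 * N + j), p.eval (k : ℝ) ^ 2 = Sj N j := by
    unfold Sj
    refine Finset.sum_congr rfl fun k _ => ?_
    simp only [p, a, Polynomial.eval_mul, Polynomial.eval_C, Polynomial.eval_comp,
      Polynomial.eval_add, Polynomial.eval_X]
    rw [show 1 / (N : ℝ) * k + -1 = (k : ℝ) / N - 1 by ring]
  rw [h2] at h1
  have hA : 0 ≤ 1 / (L : ℝ) * ∑ l ∈ range L, wz (2 * Real.pi * l / L) ^ j *
      P (2 * Real.pi * l / L) := mul_nonneg (by positivity)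
    (Finset.sum_nonneg fun _ _ => mul_nonneg (pow_nonneg (One_wz_nonneg _) _) (h0 _))
  have hS0 : 0 ≤ Sj N j := Finset.sum_nonneg fun _ _ => sq_nonneg _
  unfold lamN
  rcases hS0.eq_or_lt with h3 | h3
  · rw [← h3, div_zero, zero_mul]
    exact hA
  · rw [div_mul_eq_mul_div, div_le_iff₀ h3, mul_comm _ (Sj N j)]
    exact h1

end Pool.Agent.MPbd65ca.Hm
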