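import Pool.Agent.Lib.MP_bd65ca_an_H.AvL

/-!
# The weighted grid average of the periodization

PROOF. `Dd_expand`: `wz (a - b) = ‖e^{i a} - e^{i b}‖ ^ 2`, so `Dd v` is the squared modulus of the
Vandermonde determinant of the `e^{i v l}` (`Matrix.det_vandermonde`, `Matrix.det_apply`), and
expanding
both factors gives the formula (all exponents are natural numbers `σ l < m`).
`PG_av`: insert `Dd_expand` and the definition of `PF` (an integral of products of Dirichlet
kernels),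
interchange the finite sums with the integral (`PFcAux.PF_int`); for every coordinate and `|k| ≤ d`:
`(1 / L) ∑_{l < L} e^{i k u_l} Dk (2 N) (u_l - y) = e^{i k y}`, `u_l = 2 π l / L`, by `Dk_exp` and
orthogonality of the characters modulo `L` (the frequencies `k + j`, `|j| < 2 N`, satisfy
`|k + j| < L`, and `|k| ≤ d < 2 N`); collect again with `Dd_expand`.
-/

open MeasureTheory FourierTransform Pointwise Set Finset Matrix
open scoped RealInnerProductSpace

namespace Pool.Agent.MPbd65ca.Hm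

open Pool.Agent.MPbd65ca.Oct Pool.Agent.MPbd65ca.Bp

private theorem PGa_wz (a b : ℝ) : ((wz (a - b) : ℝ) : ℂ) =
    (Complex.exp (Complex.I * b) - Complex.exp (Complex.I * a)) *
    (Complex.exp (-(Complex.I * b)) - Complex.exp (-(Complex.I * a))) := by
  have h : ∀ x : ℝ, Complex.exp (Complex.I * x) * Complex.exp (-(Complex.I * x)) = 1 := by
    intro x
    rw [← Complex.exp_add, add_neg_cancel, Complex.exp_zero]
  have h2 : Complex.exp (Complex.I * a) * Complex.exp (-(Complex.I * b)) +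
      Complex.exp (Complex.I * b) * Complex.exp (-(Complex.I * a)) =
        2 * ((Real.cos (a - b) : ℝ) : ℂ) := by
    rw [← Complex.exp_add, ← Complex.exp_add, Complex.ofReal_cos, Complex.two_cos]
    push_cast
    congr 2 <;> ring
  have ha := h a
  have hb := h b
  unfold wz
  rw [Complex.ofReal_sub, Complex.ofReal_mul]
  push_cast at h2 ⊢
  linear_combination h2 - ha - hb

private theorem PGa_det {m : ℕ} (z : Fin m → ℂ) : (Matrix.vandermonde z).det =
    ∑ σ : Equiv.Perm (Fin m), ((σ.sign : ℤ) : ℂ) * ∏ l, z l ^ (σ l : ℕ) := by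
  rw [← Matrix.det_transpose, Matrix.det_apply']
  refine Finset.sum_congr rfl fun σ _ => ?_
  congr 1

theorem Dd_expand {m : ℕ} (v : Fin m → ℝ) : ((Dd v : ℝ) : ℂ) =
    ∑ σ : Equiv.Perm (Fin m), ∑ τ : Equiv.Perm (Fin m),
      ((σ.sign : ℤ) : ℂ) * ((τ.sign : ℤ) : ℂ) *
        ∏ l, Complex.exp (Complex.I * (((σ l : ℕ) : ℂ) - ((τ l : ℕ) : ℂ)) * (v l : ℂ)) := by
  have h1 : ((Dd v : ℝ) : ℂ) = (Matrix.vandermonde fun l => Complex.exp (Complex.I * v l)).det *
      (Matrix.vandermonde fun l => Complex.exp (-(Complex.I * v l))).det := by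
    rw [Matrix.det_vandermonde, Matrix.det_vandermonde, ← Finset.prod_mul_distrib]
    unfold Dd
    rw [Complex.ofReal_prod]
    refine Finset.prod_congr rfl fun i _ => ?_
    rw [Complex.ofReal_prod, ← Finset.prod_mul_distrib]
    exact Finset.prod_congr rfl fun j _ => PGa_wz _ _
  rw [h1, PGa_det, PGa_det, Finset.sum_mul_sum]
  refine Finset.sum_congr rfl fun σ _ => Finset.sum_congr rfl fun τ _ => ?_
  rw [mul_mul_mul_comm, ← Finset.prod_mul_distrib]
  congr 1
  refine Finset.prod_congr rfl fun l _ => ?_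
  rw [← Complex.exp_nat_mul, ← Complex.exp_nat_mul, ← Complex.exp_add]
  congr 1
  ring

private theorem PGa_orth {L : ℕ} (hL : 0 < L) {n : ℤ} (hn : |n| < L) (hn0 : n ≠ 0) :
    ∑ x : Fin L, Complex.exp (Complex.I * n * ((2 * Real.pi * (x : ℕ) / L : ℝ) : ℂ)) = 0 := by
  have hL' : (L : ℂ) ≠ 0 := by exact_mod_cast hL.ne'
  obtain ⟨ζ, hζ⟩ : ∃ ζ : ℂ, ζ = Complex.exp (Complex.I * n * (2 * Real.pi / L)) := ⟨_, rfl⟩
  rw [Fin.sum_univ_eq_sum_range
    (fun x => Complex.exp (Complex.I * n * ((2 * Real.pi * (x : ℕ) / L : ℝ) : ℂ))) L]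
  have h0 : ∀ x ∈ Finset.range L,
      Complex.exp (Complex.I * n * ((2 * Real.pi * (x : ℕ) / L : ℝ) : ℂ)) = ζ ^ x := by
    intro x _
    rw [hζ, ← Complex.exp_nat_mul]
    congr 1
    push_cast
    ring
  rw [Finset.sum_congr rfl h0]
  have h1 : ζ ≠ 1 := by
    intro hc
    rw [hζ, Complex.exp_eq_one_iff] at hc
    obtain ⟨q, hq⟩ := hc
    have hpi : (Real.pi : ℂ) ≠ 0 := by exact_mod_cast Real.pi_ne_zero
    have hI := Complex.I_ne_zero
    have h2 : (n : ℂ) = q * L := by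
      field_simp at hq
      rw [hq, mul_comm]
    have h3 : n = q * L := by exact_mod_cast h2
    have h4 : (L : ℤ) ∣ n := ⟨q, by rw [h3, mul_comm]⟩
    exact hn0 (Int.eq_zero_of_abs_lt_dvd h4 hn)
  have h2 : ζ ^ L = 1 := by
    rw [hζ, ← Complex.exp_nat_mul]
    have : (L : ℂ) * (Complex.I * n * (2 * Real.pi / L)) = n * (2 * Real.pi * Complex.I) := by
      field_simp
    rw [this]
    exact Complex.exp_int_mul_two_pi_mul_I n
  have h4 := mul_geom_sum ζ L
  rw [h2, sub_self] at h4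
  exact (mul_eq_zero.1 h4).resolve_left (sub_ne_zero.2 h1)

private theorem PGa_one {N L d : ℕ} (hd : d < 2 * N) (hL : 2 * N + d ≤ L) {k : ℤ}
    (hk : |k| ≤ d) (y : ℝ) :
    ∑ x : Fin L, ((Dk (2 * N) (2 * Real.pi * (x : ℕ) / L - y) : ℝ) : ℂ) *
      Complex.exp (Complex.I * k * ((2 * Real.pi * (x : ℕ) / L : ℝ) : ℂ)) =
        L * Complex.exp (Complex.I * k * y) := by
  have hk' := abs_le.1 hk
  have h1 : ∀ x : Fin L, ((Dk (2 * N) (2 * Real.pi * (x : ℕ) / L - y) : ℝ) : ℂ) *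
      Complex.exp (Complex.I * k * ((2 * Real.pi * (x : ℕ) / L : ℝ) : ℂ)) =
      ∑ j ∈ Ioo (-((2 * N : ℕ) : ℤ)) ((2 * N : ℕ) : ℤ), Complex.exp (-(Complex.I * j * y)) *
        Complex.exp (Complex.I * ((j + k : ℤ) : ℂ) * ((2 * Real.pi * (x : ℕ) / L : ℝ) : ℂ)) := by
    intro x
    rw [Dk_exp, Finset.sum_mul]
    refine Finset.sum_congr rfl fun j _ => ?_
    rw [← Complex.exp_add, ← Complex.exp_add]
    congr 1
    push_cast
    ring
  rw [Finset.sum_congr rfl fun x _ => h1 x, Finset.sum_comm]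
  rw [Finset.sum_eq_single (-k)]
  · rw [← Finset.mul_sum]
    have h2 : ∀ x : Fin L, Complex.exp (Complex.I * ((-k + k : ℤ) : ℂ) *
        ((2 * Real.pi * (x : ℕ) / L : ℝ) : ℂ)) = 1 := by
      intro x
      rw [neg_add_cancel, Int.cast_zero, mul_zero, zero_mul, Complex.exp_zero]
    rw [Finset.sum_congr rfl fun x _ => h2 x, Finset.sum_const, Finset.card_univ,
      Fintype.card_fin, nsmul_eq_mul, mul_one, mul_comm]
    congr 2
    push_cast
    ring
  · intro j hj hjk
    rw [Finset.mem_Ioo] at hj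
    rw [← Finset.mul_sum, PGa_orth (by omega) (abs_lt.2 ⟨by omega, by omega⟩) (by omega),
      mul_zero]
  · intro h
    exact absurd (Finset.mem_Ioo.2 ⟨by omega, by omega⟩) h

private theorem PGa_prod {N L d : ℕ} (hd : d < 2 * N) (hL : 2 * N + d ≤ L)
    (y : Fin (d + 1) → ℝ) :
    ∑ X : Fin (d + 1) → Fin L,
      (∏ i, Dk (2 * N) (2 * Real.pi * (X i : ℕ) / L - y i)) *
        Dd (fun i => 2 * Real.pi * (X i : ℕ) / L) = (L : ℝ) ^ (d + 1) * Dd y := by
  have h1 : ((∑ X : Fin (d + 1) → Fin L,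
      (∏ i, Dk (2 * N) (2 * Real.pi * (X i : ℕ) / L - y i)) *
        Dd (fun i => 2 * Real.pi * (X i : ℕ) / L) : ℝ) : ℂ) =
      (((L : ℝ) ^ (d + 1) * Dd y : ℝ) : ℂ) := by
    rw [Complex.ofReal_sum, Complex.ofReal_mul, Dd_expand, Finset.mul_sum]
    have h2 : ∀ X : Fin (d + 1) → Fin L,
        (((∏ i, Dk (2 * N) (2 * Real.pi * (X i : ℕ) / L - y i)) *
          Dd (fun i => 2 * Real.pi * (X i : ℕ) / L) : ℝ) : ℂ) =
        ∑ σ : Equiv.Perm (Fin (d + 1)), ∑ τ : Equiv.Perm (Fin (d + 1)),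
          ((σ.sign : ℤ) : ℂ) * ((τ.sign : ℤ) : ℂ) *
          ∏ l, (((Dk (2 * N) (2 * Real.pi * (X l : ℕ) / L - y l) : ℝ) : ℂ) *
            Complex.exp (Complex.I * ((((σ l : ℕ) : ℤ) - ((τ l : ℕ) : ℤ) : ℤ) : ℂ) *
              ((2 * Real.pi * (X l : ℕ) / L : ℝ) : ℂ))) := by
      intro X
      rw [Complex.ofReal_mul, Dd_expand, Complex.ofReal_prod, Finset.mul_sum]
      refine Finset.sum_congr rfl fun σ _ => ?_
      rw [Finset.mul_sum]
      refine Finset.sum_congr rfl fun τ _ => ?_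
      rw [Finset.prod_mul_distrib]
      push_cast
      ring
    rw [Finset.sum_congr rfl fun X _ => h2 X, Finset.sum_comm]
    refine Finset.sum_congr rfl fun σ _ => ?_
    rw [Finset.sum_comm, Finset.mul_sum]
    refine Finset.sum_congr rfl fun τ _ => ?_
    rw [← Finset.mul_sum]
    have h3 := Finset.prod_univ_sum (fun _ : Fin (d + 1) => (Finset.univ : Finset (Fin L)))
      (fun l x => ((Dk (2 * N) (2 * Real.pi * (x : ℕ) / L - y l) : ℝ) : ℂ) *
            Complex.exp (Complex.I * ((((σ l : ℕ) : ℤ) - ((τ l : ℕ) : ℤ) : ℤ) : ℂ) *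
              ((2 * Real.pi * (x : ℕ) / L : ℝ) : ℂ)))
    rw [Fintype.piFinset_univ] at h3
    rw [← h3]
    have h4 : ∀ l : Fin (d + 1), ∑ x : Fin L,
        ((Dk (2 * N) (2 * Real.pi * (x : ℕ) / L - y l) : ℝ) : ℂ) *
            Complex.exp (Complex.I * ((((σ l : ℕ) : ℤ) - ((τ l : ℕ) : ℤ) : ℤ) : ℂ) *
              ((2 * Real.pi * (x : ℕ) / L : ℝ) : ℂ)) =
        L * Complex.exp (Complex.I * (((σ l : ℕ) : ℂ) - ((τ l : ℕ) : ℂ)) * (y l : ℂ)) := by
      intro l
      have h5 := (σ l).2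
      have h6 := (τ l).2
      rw [PGa_one hd hL (abs_le.2 ⟨by omega, by omega⟩) (y l)]
      push_cast
      rfl
    rw [Finset.prod_congr rfl fun l _ => h4 l, Finset.prod_mul_distrib, Finset.prod_const,
      Finset.card_univ, Fintype.card_fin]
    push_cast
    ring
  exact_mod_cast h1

theorem PG_av {d N L : ℕ} [NeZero N] (hd : d < 2 * N) (hL : 2 * N + d ≤ L) {F : E (d + 1) → ℝ}
    (hF : Integrable F) : Av L (d + 1) (fun u => PG d N F u * Dd u) =
      ∫ w, F w * Dd (fun i => 2 * Real.pi / (2 * N - 1) * w i) := by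
  have hN := Nat.pos_of_ne_zero (NeZero.ne N)
  have hL0 : (L : ℝ) ≠ 0 := by
    have : 0 < L := by omega
    exact_mod_cast this.ne'
  have h1 : ∀ u : Fin (d + 1) → ℝ, PG d N F u = ∫ w, F w *
      ∏ i, Dk (2 * N) (u i - 2 * Real.pi / (2 * N - 1) * w i) := by
    intro u
    unfold PG PF
    refine integral_congr_ae (ae_of_all _ fun w => ?_)
    simp only
    rw [Fin.prod_univ_castSucc]
  have h2 : ∀ u : Fin (d + 1) → ℝ, Integrable fun w : E (d + 1) => F w *
      ∏ i, Dk (2 * N) (u i - 2 * Real.pi / (2 * N - 1) * w i) := by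
    intro u
    refine (PFcAux.PF_int (N := N) hF (fun i => u i.castSucc) (u (Fin.last d))).congr
      (ae_of_all _ fun w => ?_)
    simp only
    rw [Fin.prod_univ_castSucc]
  unfold Av
  simp only [h1]
  have h3 : ∀ X : Fin (d + 1) → Fin L, (∫ w, F w *
      ∏ i, Dk (2 * N) (2 * Real.pi * (X i : ℕ) / L - 2 * Real.pi / (2 * N - 1) * w i)) *
        Dd (fun i => 2 * Real.pi * (X i : ℕ) / L) =
      ∫ w, F w * ((∏ i, Dk (2 * N) (2 * Real.pi * (X i : ℕ) / L -
        2 * Real.pi / (2 * N - 1) * w i)) * Dd (fun i => 2 * Real.pi * (X i : ℕ) / L)) := by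
    intro X
    rw [← integral_mul_const]
    refine integral_congr_ae (ae_of_all _ fun w => ?_)
    simp only
    ring
  rw [Finset.sum_congr rfl fun X _ => h3 X, ← integral_finsetSum, ← integral_const_mul]
  · refine integral_congr_ae (ae_of_all _ fun w => ?_)
    simp only
    rw [← Finset.mul_sum, PGa_prod hd hL (fun i => 2 * Real.pi / (2 * N - 1) * w i)]
    field_simp
  · intro X _
    refine ((h2 fun i => 2 * Real.pi * (X i : ℕ) / L).mul_const
      (Dd (fun i => 2 * Real.pi * (X i : ℕ) / L))).congr (ae_of_all _ fun w => ?_)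
    simp only
    ring

end Pool.Agent.MPbd65ca.Hm
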