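import Pool.Agent.Lib.MP_bd65ca_an_H.AvL

/-!
# The periodization of a function with spectrum in the cube of half side 1/2

PROOF. `cube_bip`: `|x i| + |x last| ≤ 1 / 2 + 1 / 2`.  So the lemmas of F/PFa-c apply.
`PG_nonneg`: `PF_nonneg`.  `PG_TPn`: by `PF_expand`, `PG d N F u` is
`∑ k ∈ Bx d N, 𝓕 F (k / (2 N - 1)) * e^{i ∑ j, k j * u j}`, and the coefficient is `0` unless
`|k j| / (2 N - 1) ≤ 1 / 2` for all `j`, i.e. `|k j| ≤ N - 1`.  For a fixed variable `i`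
(`Fin.lastCases`; both kinds of variables are treated by the same formula) the function of `t` is
`∑ k, c_k e^{i k i t}` with `|k i| ≤ N - 1`: `TP (N - 1)` as in the proof of `tg_PF` (F/PFc.lean).
-/

open MeasureTheory FourierTransform Pointwise Set Finset Matrix
open scoped RealInnerProductSpace

namespace Pool.Agent.MPbd65ca.Hm

open Pool.Agent.MPbd65ca.Oct Pool.Agent.MPbd65ca.Bp

theorem cube_bip (d : ℕ) : cube (d + 1) (1 / 2) ⊆ bip d := by
  intro x hx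
  have h1 : ∀ i, |x i| ≤ 1 / 2 := hx
  refine ⟨?_, fun i => ?_⟩
  · linarith [h1 (Fin.last d)]
  · linarith [h1 (Fin.last d), h1 i.castSucc]

theorem PG_nonneg {d N : ℕ} [NeZero N] {F : E (d + 1) → ℝ} (hF : Integrable F)
    (h0 : ∀ w, 0 ≤ F w) (h : ∀ ξ ∉ cube (d + 1) (1 / 2), 𝓕 (fun w => (F w : ℂ)) ξ = 0)
    (u : Fin (d + 1) → ℝ) : 0 ≤ PG d N F u :=
  PF_nonneg hF h0 (fun ξ hξ => h ξ fun hc => hξ (cube_bip d hc)) _ _

private theorem PG_expand {d N : ℕ} [NeZero N] {F : E (d + 1) → ℝ} (hF : Integrable F)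
    (u : Fin (d + 1) → ℝ) : (PG d N F u : ℂ) = ∑ k ∈ Bx d N,
      𝓕 (fun w => (F w : ℂ)) (WithLp.toLp 2 fun j => (k j : ℝ) / (2 * N - 1)) *
      Complex.exp (Complex.I * ((∑ j, (k j : ℝ) * u j : ℝ) : ℂ)) := by
  unfold PG
  rw [PF_expand hF]
  refine Finset.sum_congr rfl fun k _ => ?_
  rw [Fin.sum_univ_castSucc]

private theorem PG_coeff {d N : ℕ} [NeZero N] {F : E (d + 1) → ℝ}
    (h : ∀ ξ ∉ cube (d + 1) (1 / 2), 𝓕 (fun w => (F w : ℂ)) ξ = 0)
    (k : Fin (d + 1) → ℤ) (i : Fin (d + 1)) (hk : ¬ |k i| ≤ (N : ℤ) - 1) :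
    𝓕 (fun w => (F w : ℂ)) (WithLp.toLp 2 fun j => (k j : ℝ) / (2 * N - 1)) = 0 := by
  refine h _ fun hb => hk ?_
  have hN : (1 : ℝ) ≤ N := by exact_mod_cast Nat.one_le_iff_ne_zero.mpr (NeZero.ne N)
  have hM : (0 : ℝ) < 2 * N - 1 := by linarith
  have h2 : |(k i : ℝ) / (2 * N - 1)| ≤ 1 / 2 := hb i
  rw [abs_div, abs_of_pos hM, div_le_iff₀ hM] at h2
  have h3 : 2 * |(k i : ℝ)| ≤ 2 * N - 1 := by linarith
  have h4 : 2 * |k i| ≤ 2 * (N : ℤ) - 1 := by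
    have h5 : ((2 * |k i| : ℤ) : ℝ) ≤ ((2 * (N : ℤ) - 1 : ℤ) : ℝ) := by
      push_cast
      exact h3
    exact_mod_cast h5
  omega

theorem PG_TPn {d N : ℕ} [NeZero N] {F : E (d + 1) → ℝ} (hF : Integrable F)
    (h : ∀ ξ ∉ cube (d + 1) (1 / 2), 𝓕 (fun w => (F w : ℂ)) ξ = 0) :
    TPn (N - 1) (PG d N F) := by
  have hN : 0 < N := Nat.pos_of_ne_zero (NeZero.ne N)
  intro u i
  have hdeg : ∀ k : Fin (d + 1) → ℤ, |k i| ≤ (N : ℤ) - 1 →
      0 ≤ k i + ((N - 1 : ℕ) : ℤ) ∧ k i + ((N - 1 : ℕ) : ℤ) ≤ 2 * ((N - 1 : ℕ) : ℤ) := by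
    intro k hk
    have h1 := abs_le.1 hk
    constructor <;> omega
  refine ⟨∑ k ∈ Bx d N, if |k i| ≤ (N : ℤ) - 1 then
    Polynomial.C (𝓕 (fun w => (F w : ℂ)) (WithLp.toLp 2 fun j => (k j : ℝ) / (2 * N - 1)) *
      Complex.exp (Complex.I * ((∑ j ∈ univ.erase i, (k j : ℝ) * u j : ℝ) : ℂ))) *
    Polynomial.X ^ (k i + ((N - 1 : ℕ) : ℤ)).toNat else 0, ?_, ?_⟩
  · refine Polynomial.natDegree_sum_le_of_forall_le _ _ fun k _ => ?_
    split_ifs with hk
    · refine (Polynomial.natDegree_C_mul_X_pow_le _ _).trans ?_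
      have := hdeg k hk
      omega
    · simp
  · intro t
    rw [PG_expand hF, Polynomial.eval_finsetSum, Finset.sum_mul]
    refine Finset.sum_congr rfl fun k _ => ?_
    split_ifs with hk
    · rw [Polynomial.eval_mul, Polynomial.eval_C, Polynomial.eval_pow, Polynomial.eval_X,
        ← Complex.exp_nat_mul, mul_assoc, mul_assoc, ← Complex.exp_add, ← Complex.exp_add]
      congr 2
      have h1 : (((k i + ((N - 1 : ℕ) : ℤ)).toNat : ℕ) : ℂ) =
          (k i : ℂ) + ((N - 1 : ℕ) : ℂ) := by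
        have h2 := Int.toNat_of_nonneg (hdeg k hk).1
        exact_mod_cast congrArg (fun z : ℤ => (z : ℂ)) h2
      have h3 : (∑ j, (k j : ℝ) * (Function.update u i t) j) =
          (∑ j ∈ univ.erase i, (k j : ℝ) * u j) + k i * t := by
        rw [← Finset.sum_erase_add _ _ (Finset.mem_univ i), Function.update_self]
        congr 1
        refine Finset.sum_congr rfl fun j hj => ?_
        rw [Function.update_of_ne (Finset.ne_of_mem_erase hj)]
      rw [h1, h3]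
      push_cast
      ring
    · rw [PG_coeff h k i hk]
      simp

end Pool.Agent.MPbd65ca.Hm
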