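import Pool.Agent.Lib.MP_bd65ca_an_H.Sm
import Pool.Agent.Lib.MP_bd65ca_an_H.PGm
import Pool.Agent.Lib.MP_bd65ca_an_H.PGa
import Pool.Agent.Lib.MP_bd65ca_an_F.Riem

/-!
# The inequality for functions with spectrum in a cube

PROOF. `Sj_lim`: `Sj N j / N ^ (2 j + 1) = (1 / N) ∑ k < 2 N + j, (Lg j).eval (k / N - 1) ^ 2` is a
Riemann sum on `[-1, 1]` (plus `j` bounded terms divided by `N`), `N = n + 1 → ∞`.  `lamN_lim`:
inverse
(`hj_pos`).
`radial`: let `n = d + 1`, `N = q + n + 1`, `N₀ = 2 N - n`, `L = 2 N₀ + 2 N + n`, `q → ∞`.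
`Sm0` for `PG d N₀ G` (`M = N₀ - 1`, `M + n = 2 N - 1`), `PG_av`, and
`Dd (c₀ w) ≤ c₀ ^ (n (n - 1)) * Dl w ^ 2`, `c₀ = 2 π / (2 N₀ - 1)` (`wz_le`; `Dl ^ 2` has
`n (n - 1) / 2` squared factors) give
`n! (∏ j < n, lamN N j) * PF d N₀ G 0 0 ≤ c₀ ^ (n (n - 1)) * I`, `I = ∫ G * Dl ^ 2`.  Multiply by
`N ^ (n ^ 2) / (2 N₀) ^ n` (`∏ j < n, N ^ (2 j + 1) = N ^ (n ^ 2)`): the left side tends to
`n! ∏ ((j!)^2 / hj j) * G 0` (`lamN_lim`, `PF_lim` along `N₀`), the right side is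
`(c₀ N) ^ (n (n - 1)) * (N / (2 N₀)) ^ n * I → (π / 2) ^ (n (n - 1)) * (1 / 4) ^ n * I`.
`radialL`: the constant is positive; if the lintegral is `⊤` nothing is to prove, else use `radial`
and `ofReal_integral_eq_lintegral_ofReal`.
-/

open MeasureTheory FourierTransform Pointwise Set Finset Matrix Filter Topology
open scoped RealInnerProductSpace

namespace Pool.Agent.MPbd65ca.Hm

open Pool.Agent.MPbd65ca.Oct Pool.Agent.MPbd65ca.Bp

/-- The constant. -/
noncomputable def kp (n : ℕ) : ℝ :=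
  4 ^ n * (2 / Real.pi) ^ (n * (n - 1)) * ∏ j ∈ range n, (j.factorial : ℝ) ^ 2 / hj j

private theorem rad_riem {f : ℝ → ℝ} (hf : Continuous f) :
    Tendsto (fun n : ℕ => (∑ k ∈ range (2 * (n + 1)), f ((k : ℝ) / ((n + 1 : ℕ) : ℝ) - 1)) /
      ((n + 1 : ℕ) : ℝ)) atTop (𝓝 (∫ x in (-1 : ℝ)..1, f x)) := by
  rw [Metric.tendsto_atTop]
  intro ε hε
  have hu : UniformContinuousOn f (Icc (-1) 1) :=
    isCompact_Icc.uniformContinuousOn_of_continuous hf.continuousOn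
  rw [Metric.uniformContinuousOn_iff] at hu
  obtain ⟨δ, hδ, hu⟩ := hu (ε / 4) (by positivity)
  obtain ⟨M, hM⟩ := exists_nat_gt (1 / δ)
  refine ⟨M, fun n hn => ?_⟩
  have hN : (0 : ℝ) < ((n + 1 : ℕ) : ℝ) := by positivity
  have hNδ : 1 / ((n + 1 : ℕ) : ℝ) < δ := by
    rw [div_lt_iff₀ hN]
    have h1 : (M : ℝ) ≤ n := by exact_mod_cast hn
    have h2 : 1 / δ < ((n + 1 : ℕ) : ℝ) := by
      push_cast
      linarith
    rw [div_lt_iff₀ hδ] at h2
    linarith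
  obtain ⟨N, hNd⟩ : ∃ N : ℝ, N = ((n + 1 : ℕ) : ℝ) := ⟨_, rfl⟩
  rw [← hNd] at hN hNδ ⊢
  obtain ⟨a, ha⟩ : ∃ a : ℕ → ℝ, ∀ k, a k = (k : ℝ) / N - 1 :=
    ⟨fun k => (k : ℝ) / N - 1, fun _ => rfl⟩
  have hstep : ∀ k, a (k + 1) - a k = 1 / N := by
    intro k
    rw [ha, ha]
    push_cast
    ring
  have h0 : a 0 = -1 := by rw [ha]; simp
  have h1 : a (2 * (n + 1)) = 1 := by
    rw [ha]
    have : ((2 * (n + 1) : ℕ) : ℝ) = 2 * N := by rw [hNd]; push_cast; ring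
    rw [this, mul_div_assoc, div_self hN.ne']
    norm_num
  have hsum := intervalIntegral.sum_integral_adjacent_intervals (f := f) (a := a)
    (μ := volume) (n := 2 * (n + 1)) (fun k _ => hf.intervalIntegrable _ _)
  rw [h0, h1] at hsum
  have hterm : ∀ k ∈ range (2 * (n + 1)),
      ‖f ((k : ℝ) / N - 1) / N - ∫ x in a k..a (k + 1), f x‖ ≤ ε / 4 / N := by
    intro k hk
    rw [Finset.mem_range] at hk
    have e : f ((k : ℝ) / N - 1) / N = ∫ x in a k..a (k + 1), f (a k) := by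
      rw [intervalIntegral.integral_const, hstep, smul_eq_mul, ha]
      ring
    rw [e, ← intervalIntegral.integral_sub (by simp) (hf.intervalIntegrable _ _)]
    refine (intervalIntegral.norm_integral_le_of_norm_le_const (C := ε / 4) ?_).trans
      (le_of_eq ?_)
    · intro x hx
      have hle : a k ≤ a (k + 1) := by
        have := hstep k
        have : 0 < 1 / N := by positivity
        linarith
      rw [Set.uIoc_of_le hle] at hx
      have hk1 : (k : ℝ) + 1 ≤ 2 * N := by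
        rw [hNd]
        have : k + 1 ≤ 2 * (n + 1) := hk
        exact_mod_cast this
      have hb1 : -1 ≤ a k := by
        rw [ha]
        have : 0 ≤ (k : ℝ) / N := by positivity
        linarith
      have hb2 : a (k + 1) ≤ 1 := by
        rw [ha]
        push_cast
        have : ((k : ℝ) + 1) / N ≤ 2 := by
          rw [div_le_iff₀ hN]
          exact hk1
        linarith
      have h3 := hu (a k) ⟨hb1, hle.trans hb2⟩ x ⟨hb1.trans hx.1.le, hx.2.trans hb2⟩ (by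
        rw [Real.dist_eq, abs_sub_comm, abs_of_nonneg (by linarith [hx.1])]
        have := hstep k
        linarith [hx.2])
      rw [Real.dist_eq] at h3
      rw [Real.norm_eq_abs]
      exact h3.le
    · rw [hstep, abs_of_nonneg (by positivity)]
      ring
  rw [Real.dist_eq, Finset.sum_div, ← hsum, ← Finset.sum_sub_distrib, ← Real.norm_eq_abs]
  refine lt_of_le_of_lt (norm_sum_le _ _) (lt_of_le_of_lt (Finset.sum_le_sum hterm) ?_)
  rw [Finset.sum_const, card_range, nsmul_eq_mul]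
  have e2 : ((2 * (n + 1) : ℕ) : ℝ) * (ε / 4 / N) = ε / 2 := by
    have : ((2 * (n + 1) : ℕ) : ℝ) = 2 * N := by rw [hNd]; push_cast; ring
    rw [this]
    field_simp
    ring
  rw [e2]
  linarith

private theorem rad_Nlim : Tendsto (fun n : ℕ => 1 / ((n + 1 : ℕ) : ℝ)) atTop (𝓝 0) := by
  have h := tendsto_one_div_add_atTop_nhds_zero_nat (𝕜 := ℝ)
  refine h.congr fun n => ?_
  push_cast
  rfl

theorem Sj_lim (j : ℕ) : Tendsto (fun n : ℕ => Sj (n + 1) j / ((n + 1 : ℕ) : ℝ) ^ (2 * j + 1))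
    atTop (𝓝 (hj j)) := by
  obtain ⟨f, hf⟩ : ∃ f : ℝ → ℝ, ∀ x, f x = (Lg j).eval x ^ 2 := ⟨fun x => (Lg j).eval x ^ 2,
    fun _ => rfl⟩
  have hfc : Continuous f := by
    have : f = fun x => (Lg j).eval x ^ 2 := funext hf
    rw [this]
    exact (Lg j).continuous.pow 2
  have h1 := rad_riem hfc
  have h2 : Tendsto (fun n : ℕ => (∑ i ∈ range j,
      f (((2 * (n + 1) + i : ℕ) : ℝ) / ((n + 1 : ℕ) : ℝ) - 1)) * (1 / ((n + 1 : ℕ) : ℝ)))
      atTop (𝓝 ((∑ _i ∈ range j, f 1) * 0)) := by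
    refine Tendsto.mul (tendsto_finsetSum _ fun i _ => ?_) rad_Nlim
    have h3 : Tendsto (fun n : ℕ => ((2 * (n + 1) + i : ℕ) : ℝ) / ((n + 1 : ℕ) : ℝ) - 1) atTop
        (𝓝 1) := by
      have h4 : Tendsto (fun n : ℕ => 1 + (i : ℝ) * (1 / ((n + 1 : ℕ) : ℝ))) atTop
          (𝓝 (1 + (i : ℝ) * 0)) := (rad_Nlim.const_mul _).const_add _
      rw [mul_zero, add_zero] at h4
      refine h4.congr fun n => ?_
      have hN : ((n + 1 : ℕ) : ℝ) ≠ 0 := by positivity
      have e : ((2 * (n + 1) + i : ℕ) : ℝ) = 2 * ((n + 1 : ℕ) : ℝ) + i := by push_cast; ring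
      rw [e]
      field_simp
      ring
    exact (hfc.tendsto 1).comp h3
  have h5 := h1.add h2
  rw [mul_zero, add_zero] at h5
  have h6 : (∫ x in (-1 : ℝ)..1, f x) = hj j := by
    unfold hj
    exact intervalIntegral.integral_congr fun x _ => hf x
  rw [h6] at h5
  refine h5.congr fun n => ?_
  have hN : ((n + 1 : ℕ) : ℝ) ≠ 0 := by positivity
  unfold Sj
  rw [Finset.sum_range_add, add_div]
  congr 1
  · rw [Finset.sum_div, Finset.sum_div]
    refine Finset.sum_congr rfl fun k _ => ?_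
    rw [hf, mul_pow, ← pow_mul]
    have e : ((n + 1 : ℕ) : ℝ) ^ (2 * j + 1) = ((n + 1 : ℕ) : ℝ) ^ (j * 2) * ((n + 1 : ℕ) : ℝ) := by
      rw [pow_succ, mul_comm 2 j]
    rw [e, mul_div_mul_left _ _ (pow_ne_zero _ hN)]
  · rw [Finset.sum_div, Finset.sum_mul]
    refine Finset.sum_congr rfl fun k _ => ?_
    rw [hf, mul_pow, ← pow_mul]
    have e : ((n + 1 : ℕ) : ℝ) ^ (2 * j + 1) = ((n + 1 : ℕ) : ℝ) ^ (j * 2) * ((n + 1 : ℕ) : ℝ) := by
      rw [pow_succ, mul_comm 2 j]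
    rw [e, mul_div_mul_left _ _ (pow_ne_zero _ hN), mul_one_div]

theorem lamN_lim (j : ℕ) :
    Tendsto (fun n : ℕ => lamN (n + 1) j * ((n + 1 : ℕ) : ℝ) ^ (2 * j + 1)) atTop
      (𝓝 ((j.factorial : ℝ) ^ 2 / hj j)) := by
  have h := (tendsto_const_nhds (x := (j.factorial : ℝ) ^ 2)).div (Sj_lim j) (hj_pos j).ne'
  refine h.congr fun n => ?_
  rw [Pi.div_apply, lamN, div_div_eq_mul_div, mul_div_right_comm]

private theorem rad_wz (u : ℝ) : 0 ≤ wz u ∧ wz u ≤ u ^ 2 := by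
  unfold wz
  have h1 := Real.cos_le_one u
  have h2 := Real.one_sub_sq_div_two_le_cos (x := u)
  constructor
  · linarith
  · linarith

private theorem rad_cardpow (n : ℕ) (c : ℝ) :
    ∏ i : Fin n, ∏ _j ∈ Ioi i, c ^ 2 = c ^ (n * (n - 1)) := by
  simp only [Finset.prod_const]
  rw [Finset.prod_pow_eq_pow_sum, ← pow_mul]
  congr 1
  have h1 : ∑ i : Fin n, (Finset.Ioi i).card = ∑ i ∈ range n, (n - 1 - i) := by
    rw [← Fin.sum_univ_eq_sum_range (fun i => n - 1 - i) n]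
    exact Finset.sum_congr rfl fun i _ => Fin.card_Ioi i
  rw [h1, Finset.sum_range_reflect (fun i => i) n, mul_comm, Finset.sum_range_id_mul_two]

private theorem rad_Dd {n : ℕ} (c : ℝ) (w : Fin n → ℝ) :
    0 ≤ Dd (fun i => c * w i) ∧ Dd (fun i => c * w i) ≤ c ^ (n * (n - 1)) * Dl w ^ 2 := by
  have hnn : ∀ i j : Fin n, 0 ≤ wz (c * w i - c * w j) := fun i j => (rad_wz _).1
  constructor
  · exact Finset.prod_nonneg fun i _ => Finset.prod_nonneg fun j _ => hnn i j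
  · have h1 : Dd (fun i => c * w i) ≤ ∏ i, ∏ j ∈ Ioi i, (c ^ 2 * (w i - w j) ^ 2) := by
      refine Finset.prod_le_prod (fun i _ => Finset.prod_nonneg fun j _ => hnn i j) fun i _ => ?_
      refine Finset.prod_le_prod (fun j _ => hnn i j) fun j _ => ?_
      refine (rad_wz _).2.trans (le_of_eq ?_)
      ring
    refine h1.trans (le_of_eq ?_)
    simp only [Finset.prod_mul_distrib]
    rw [rad_cardpow, Dl]
    simp only [Finset.prod_pow]

private theorem rad_prod (x : ℝ) (n : ℕ) : ∏ i ∈ range n, x ^ (2 * i + 1) = x ^ (n * n) := by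
  induction n with
  | zero => simp
  | succ n ih =>
    rw [Finset.prod_range_succ, ih, ← pow_add]
    congr 1
    ring

private theorem rad_rat (a b : ℝ) (hb : 0 < b) :
    Tendsto (fun q : ℕ => ((q : ℝ) + a) / (4 * q + b)) atTop (𝓝 (1 / 4)) := by
  have h1 : Tendsto (fun q : ℕ => 4 * (q : ℝ) + b) atTop atTop :=
    tendsto_atTop_add_const_right _ _
      (Tendsto.const_mul_atTop (by norm_num) tendsto_natCast_atTop_atTop)
  have h2 : Tendsto (fun q : ℕ => 1 / 4 + (a - b / 4) / (4 * (q : ℝ) + b)) atTop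
      (𝓝 (1 / 4 + 0)) := (tendsto_const_nhds.div_atTop h1).const_add _
  rw [add_zero] at h2
  refine h2.congr fun q => ?_
  have h3 : (0 : ℝ) < 4 * (q : ℝ) + b := by positivity
  field_simp
  ring

private theorem rad_step {d : ℕ} {G : E (d + 1) → ℝ} (hi : Integrable G)
    (h0 : ∀ w, 0 ≤ G w) (h : ∀ ξ ∉ cube (d + 1) (1 / 2), 𝓕 (fun w => (G w : ℂ)) ξ = 0)
    (hI : Integrable fun w : E (d + 1) => G w * Dl (fun i => w i) ^ 2) (q : ℕ) :
    ((d + 1).factorial : ℝ) * (∏ i ∈ range (d + 1), lamN (q + (d + 1) + 1) i) *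
      PF d (2 * q + d + 2 + 1) G 0 0 ≤
    (2 * Real.pi / (2 * ((2 * q + d + 2 + 1 : ℕ) : ℝ) - 1)) ^ ((d + 1) * d) *
      ∫ w : E (d + 1), G w * Dl (fun i => w i) ^ 2 := by
  obtain ⟨N, hN⟩ : ∃ N : ℕ, N = q + (d + 1) + 1 := ⟨_, rfl⟩
  obtain ⟨K, hK⟩ : ∃ K : ℕ, K = 2 * q + d + 2 + 1 := ⟨_, rfl⟩
  rw [← hN, ← hK]
  have hK0 : NeZero K := ⟨by omega⟩
  have h1 := Sm0 (N := N) (L := 2 * K + 2 * N + (d + 1)) (n := d + 1) (M := K - 1) (by omega)
    (by omega) (by omega) (g := PG d K G) (PG_nonneg hi h0 h) (PG_TPn hi h)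
  have h2 := PG_av (d := d) (N := K) (L := 2 * K + 2 * N + (d + 1)) (by omega) (by omega) hi
  rw [h2] at h1
  refine le_trans (le_of_eq rfl) (h1.trans ?_)
  rw [← integral_const_mul]
  refine integral_mono_of_nonneg (Filter.Eventually.of_forall fun w => ?_) (hI.const_mul _)
    (Filter.Eventually.of_forall fun w => ?_)
  · exact mul_nonneg (h0 w) (rad_Dd _ _).1
  · have h3 := (rad_Dd (2 * Real.pi / (2 * (K : ℝ) - 1)) (fun i : Fin (d + 1) => w i)).2
    rw [Nat.add_sub_cancel] at h3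
    have h4 := mul_le_mul_of_nonneg_left h3 (h0 w)
    refine h4.trans (le_of_eq ?_)
    ring

theorem radial {d : ℕ} {G : E (d + 1) → ℝ} (hc : Continuous G) (hi : Integrable G)
    (h0 : ∀ w, 0 ≤ G w) (h : ∀ ξ ∉ cube (d + 1) (1 / 2), 𝓕 (fun w => (G w : ℂ)) ξ = 0)
    (hI : Integrable fun w : E (d + 1) => G w * Dl (fun i => w i) ^ 2) :
    (d + 1).factorial * kp (d + 1) * G 0 ≤ ∫ w : E (d + 1), G w * Dl (fun i => w i) ^ 2 := by
  obtain ⟨I, hId⟩ : ∃ I : ℝ, I = ∫ w : E (d + 1), G w * Dl (fun i => w i) ^ 2 := ⟨_, rfl⟩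
  rw [← hId]
  have hstep := rad_step hi h0 h hI
  rw [← hId] at hstep
  have hX : Tendsto (fun q : ℕ => ((d + 1).factorial : ℝ) *
      (∏ i ∈ range (d + 1), (lamN (q + (d + 1) + 1) i *
        ((q + (d + 1) + 1 : ℕ) : ℝ) ^ (2 * i + 1))) *
      (PF d (2 * q + d + 2 + 1) G 0 0 / (2 * ((2 * q + d + 2 + 1 : ℕ) : ℝ)) ^ (d + 1))) atTop
      (𝓝 (((d + 1).factorial : ℝ) *
        (∏ i ∈ range (d + 1), (i.factorial : ℝ) ^ 2 / hj i) * G 0)) := by
    refine Tendsto.mul (Tendsto.const_mul _ (tendsto_finsetProd _ fun i _ => ?_)) ?_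
    · exact (lamN_lim i).comp (tendsto_add_atTop_nat (d + 1))
    · have hφ : Tendsto (fun q : ℕ => 2 * q + d + 2) atTop atTop :=
        tendsto_atTop_mono (fun q => (by omega : q ≤ 2 * q + d + 2)) tendsto_id
      exact (PF_lim hc hi fun ξ hξ => h ξ fun hξ' => hξ (cube_bip d hξ')).comp hφ
  have hY : Tendsto (fun q : ℕ => (2 * Real.pi * (((q : ℝ) + (d + 2)) / (4 * q + (2 * d + 5)))) ^
      ((d + 1) * d) * (((q : ℝ) + (d + 2)) / (4 * q + (2 * d + 6))) ^ (d + 1) * I) atTop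
      (𝓝 ((2 * Real.pi * (1 / 4)) ^ ((d + 1) * d) * (1 / 4) ^ (d + 1) * I)) :=
    ((((rad_rat (d + 2) (2 * d + 5) (by positivity)).const_mul (2 * Real.pi)).pow _).mul
      ((rad_rat (d + 2) (2 * d + 6) (by positivity)).pow _)).mul_const _
  have hle := le_of_tendsto_of_tendsto' hX hY fun q => ?_
  · have e1 : ((d + 1).factorial : ℝ) * kp (d + 1) * G 0 =
        4 ^ (d + 1) * (2 / Real.pi) ^ ((d + 1) * d) * (((d + 1).factorial : ℝ) *
        (∏ i ∈ range (d + 1), (i.factorial : ℝ) ^ 2 / hj i) * G 0) := by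
      rw [kp, Nat.add_sub_cancel]
      ring
    rw [e1]
    have hpos : (0 : ℝ) ≤ 4 ^ (d + 1) * (2 / Real.pi) ^ ((d + 1) * d) := by positivity
    refine (mul_le_mul_of_nonneg_left hle hpos).trans (le_of_eq ?_)
    have e2 : ∀ A B C D : ℝ, A ^ (d + 1) * B ^ ((d + 1) * d) *
        (C ^ ((d + 1) * d) * D ^ (d + 1) * I) =
        (A * D) ^ (d + 1) * (B * C) ^ ((d + 1) * d) * I := by
      intro A B C D
      rw [mul_pow, mul_pow]
      ring
    have e3 : 2 / Real.pi * (2 * Real.pi * (1 / 4)) = 1 := by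
      have := Real.pi_ne_zero
      field_simp
      norm_num
    rw [e2, e3]
    norm_num
  · have h1 := hstep q
    have hN : (0 : ℝ) < ((q + (d + 1) + 1 : ℕ) : ℝ) := by positivity
    have hN0 : (0 : ℝ) < ((2 * q + d + 2 + 1 : ℕ) : ℝ) := by positivity
    obtain ⟨N, hNd⟩ : ∃ N : ℝ, N = ((q + (d + 1) + 1 : ℕ) : ℝ) := ⟨_, rfl⟩
    obtain ⟨K, hKd⟩ : ∃ K : ℝ, K = ((2 * q + d + 2 + 1 : ℕ) : ℝ) := ⟨_, rfl⟩
    rw [← hNd] at hN ⊢
    rw [← hKd] at hN0 h1 ⊢
    have eN : (q : ℝ) + (d + 2) = N := by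
      rw [hNd]
      push_cast
      ring
    have eK : 4 * (q : ℝ) + (2 * d + 6) = 2 * K := by
      rw [hKd]
      push_cast
      ring
    have eK1 : 4 * (q : ℝ) + (2 * d + 5) = 2 * K - 1 := by
      rw [hKd]
      push_cast
      ring
    rw [eN, eK, eK1, Finset.prod_mul_distrib, rad_prod]
    have hw : 0 ≤ N ^ ((d + 1) * (d + 1)) / (2 * K) ^ (d + 1) := by positivity
    have h2 := mul_le_mul_of_nonneg_right h1 hw
    refine le_trans (le_of_eq ?_) (h2.trans (le_of_eq ?_))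
    · ring
    · have e4 : N ^ ((d + 1) * (d + 1)) = N ^ ((d + 1) * d) * N ^ (d + 1) := by
        rw [← pow_add]
        congr 1
      rw [e4, ← mul_div_assoc (2 * Real.pi), mul_div_right_comm (2 * Real.pi), mul_pow, div_pow N]
      ring


theorem radialL {d : ℕ} {G : E (d + 1) → ℝ} (hc : Continuous G) (hi : Integrable G)
    (h0 : ∀ w, 0 ≤ G w) (h : ∀ ξ ∉ cube (d + 1) (1 / 2), 𝓕 (fun w => (G w : ℂ)) ξ = 0) :
    ENNReal.ofReal ((d + 1).factorial * kp (d + 1) * G 0) ≤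
      ∫⁻ w : E (d + 1), ENNReal.ofReal (G w * Dl (fun i => w i) ^ 2) := by
  by_cases ht : ∫⁻ w : E (d + 1), ENNReal.ofReal (G w * Dl (fun i => w i) ^ 2) = ⊤
  · rw [ht]
    exact le_top
  · have hcc : Continuous fun w : E (d + 1) => G w * Dl (fun i => w i) ^ 2 := by
      refine hc.mul (Continuous.pow ?_ 2)
      unfold Dl
      refine continuous_finsetProd _ fun i _ => continuous_finsetProd _ fun j _ => ?_
      exact (PiLp.continuous_apply 2 _ i).sub (PiLp.continuous_apply 2 _ j)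
    have hnn : ∀ w : E (d + 1), 0 ≤ G w * Dl (fun i => w i) ^ 2 := fun w =>
      mul_nonneg (h0 w) (sq_nonneg _)
    have hI : Integrable fun w : E (d + 1) => G w * Dl (fun i => w i) ^ 2 :=
      (lintegral_ofReal_ne_top_iff_integrable hcc.aestronglyMeasurable
        (Filter.Eventually.of_forall hnn)).1 ht
    rw [← ofReal_integral_eq_lintegral_ofReal hI (Filter.Eventually.of_forall hnn)]
    exact ENNReal.ofReal_le_ofReal (radial hc hi h0 h hI)

end Pool.Agent.MPbd65ca.Hm
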