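import Pool.Agent.Lib.MP_bd65ca_an_H.Defs

/-!
# A change of variables by a rational function

PROOF. Let `φ u = u - ∑ j, m j / (u - b j)`, `φ' u = 1 + ∑ j, m j / (u - b j) ^ 2 > 0` off the
poles.  For
`k ≤ n` let `S k` be the set of the `u` different from all `b j` with exactly `k` indices `j` such
that
`u < b j`.  The `S k`, `k = 0, ..., n`, are measurable, disjoint and cover the complement of the
poles.  If
`u < u'` lie in `S k`, then `{j | u' < b j} ⊆ {j | u < b j}` have the same cardinality, so they are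
equal, hence `(u - b j) (u' - b j) > 0` for all `j` and
`φ u' - φ u = (u' - u) (1 + ∑ j, m j / ((u - b j) (u' - b j))) > 0`: `φ` is injective on `S k`.
`lintegral_image_eq_lintegral_abs_deriv_mul` (JacobianOneDim) on `S k`:
`∫⁻ u in S k, ofReal (φ' u) * g (φ u) = ∫⁻ a in φ '' S k, g a ≤ ∫⁻ a, g a`; add up the `n + 1`
pieces.
-/

open MeasureTheory FourierTransform Pointwise Set Finset Matrix
open scoped RealInnerProductSpace

namespace Pool.Agent.MPbd65ca.Hm

open Pool.Agent.MPbd65ca.Oct Pool.Agent.MPbd65ca.Bp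

/-- The points with exactly `k` poles on the right. -/
private def Rat_S {n : ℕ} (b : Fin n → ℝ) (k : ℕ) : Set ℝ :=
  {u : ℝ | (∀ j, u ≠ b j) ∧ (Finset.univ.filter fun j => u < b j).card = k}

private theorem Rat_meas {n : ℕ} (b : Fin n → ℝ) (k : ℕ) : MeasurableSet (Rat_S b k) := by
  have h1 : MeasurableSet {u : ℝ | ∀ j, u ≠ b j} := by
    have e : {u : ℝ | ∀ j, u ≠ b j} = ⋂ j, {u : ℝ | u ≠ b j} := by
      ext u
      simp
    rw [e]
    exact MeasurableSet.iInter fun j => (measurableSet_singleton (b j)).compl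
  have h2 : Measurable fun u : ℝ => (Finset.univ.filter fun j => u < b j).card := by
    have e : (fun u : ℝ => (Finset.univ.filter fun j => u < b j).card) =
        fun u : ℝ => ∑ j, if u < b j then 1 else 0 := by
      funext u
      rw [Finset.card_filter]
    rw [e]
    exact Finset.measurable_sum _ fun j _ =>
      Measurable.ite measurableSet_Iio measurable_const measurable_const
  exact h1.inter (h2 (measurableSet_singleton k))

private theorem Rat_lt {n : ℕ} (b m : Fin n → ℝ) (hm : ∀ j, 0 ≤ m j) {k : ℕ} {u u' : ℝ}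
    (hu : u ∈ Rat_S b k) (hu' : u' ∈ Rat_S b k) (h : u < u') :
    u - ∑ j, m j / (u - b j) < u' - ∑ j, m j / (u' - b j) := by
  obtain ⟨h1, h2⟩ := hu
  obtain ⟨h3, h4⟩ := hu'
  have hsub : (Finset.univ.filter fun j => u' < b j) ⊆ (Finset.univ.filter fun j => u < b j) := by
    intro j hj
    rw [Finset.mem_filter] at hj ⊢
    exact ⟨hj.1, h.trans hj.2⟩
  have heq := Finset.eq_of_subset_of_card_le hsub (by rw [h2, h4])
  have hpos : ∀ j, 0 < (u - b j) * (u' - b j) := by
    intro j
    rcases lt_or_gt_of_ne (h1 j) with h5 | h5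
    · have h6 : j ∈ Finset.univ.filter fun j => u < b j :=
        Finset.mem_filter.2 ⟨Finset.mem_univ j, h5⟩
      rw [← heq] at h6
      have h7 := (Finset.mem_filter.1 h6).2
      exact mul_pos_of_neg_of_neg (by linarith) (by linarith)
    · exact mul_pos (by linarith) (by linarith)
  have hle : ∑ j, m j / (u' - b j) ≤ ∑ j, m j / (u - b j) := by
    refine Finset.sum_le_sum fun j _ => ?_
    have h5 : u - b j ≠ 0 := sub_ne_zero.2 (h1 j)
    have h6 : u' - b j ≠ 0 := sub_ne_zero.2 (h3 j)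
    have e : m j / (u - b j) - m j / (u' - b j) =
        m j * (u' - u) / ((u - b j) * (u' - b j)) := by
      rw [div_sub_div _ _ h5 h6]
      congr 1
      ring
    have h7 : 0 ≤ m j * (u' - u) / ((u - b j) * (u' - b j)) :=
      div_nonneg (mul_nonneg (hm j) (by linarith)) (hpos j).le
    linarith
  linarith

private theorem Rat_piece {n : ℕ} (b m : Fin n → ℝ) (hm : ∀ j, 0 ≤ m j) (g : ℝ → ENNReal)
    (k : ℕ) :
    ∫⁻ u in Rat_S b k, ENNReal.ofReal (1 + ∑ j, m j / (u - b j) ^ 2) *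
      g (u - ∑ j, m j / (u - b j)) ≤ ∫⁻ a, g a := by
  have hinj : Set.InjOn (fun u : ℝ => u - ∑ j, m j / (u - b j)) (Rat_S b k) := by
    intro u hu u' hu' he
    rcases lt_trichotomy u u' with h | h | h
    · exact absurd he (Rat_lt b m hm hu hu' h).ne
    · exact h
    · exact absurd he (Rat_lt b m hm hu' hu h).ne'
  have hder : ∀ u ∈ Rat_S b k, HasDerivWithinAt (fun u : ℝ => u - ∑ j, m j / (u - b j))
      (1 + ∑ j, m j / (u - b j) ^ 2) (Rat_S b k) u := by
    intro u hu
    refine HasDerivAt.hasDerivWithinAt ?_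
    have h1 : ∀ j ∈ Finset.univ, HasDerivAt (fun u : ℝ => m j / (u - b j))
        ((0 * (u - b j) - m j * 1) / (u - b j) ^ 2) u := fun j _ =>
      (hasDerivAt_const u (m j)).div ((hasDerivAt_id u).sub_const (b j))
        (sub_ne_zero.2 (hu.1 j))
    have h2 := (hasDerivAt_id u).sub (HasDerivAt.fun_sum h1)
    have e : 1 + ∑ j, m j / (u - b j) ^ 2 =
        1 - ∑ j, (0 * (u - b j) - m j * 1) / (u - b j) ^ 2 := by
      rw [sub_eq_add_neg, ← Finset.sum_neg_distrib]
      congr 1
      refine Finset.sum_congr rfl fun j _ => ?_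
      rw [← neg_div]
      congr 1
      ring
    rw [e]
    exact h2
  have h1 := lintegral_image_eq_lintegral_abs_deriv_mul (Rat_meas b k) hder hinj g
  have h2 : ∀ u : ℝ, |1 + ∑ j, m j / (u - b j) ^ 2| = 1 + ∑ j, m j / (u - b j) ^ 2 := by
    intro u
    refine abs_of_nonneg ?_
    have : 0 ≤ ∑ j, m j / (u - b j) ^ 2 :=
      Finset.sum_nonneg fun j _ => div_nonneg (hm j) (sq_nonneg _)
    linarith
  simp only [h2] at h1
  rw [← h1]
  exact setLIntegral_le_lintegral _ _

theorem rat_sub {n : ℕ} (b m : Fin n → ℝ) (hm : ∀ j, 0 ≤ m j) {g : ℝ → ENNReal}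
    (hg : Measurable g) :
    ∫⁻ u in {u : ℝ | ∀ j, u ≠ b j}, ENNReal.ofReal (1 + ∑ j, m j / (u - b j) ^ 2) *
      g (u - ∑ j, m j / (u - b j)) ≤ ((n : ENNReal) + 1) * ∫⁻ a, g a := by
  have _ := hg
  have hU : {u : ℝ | ∀ j, u ≠ b j} ⊆ ⋃ k : Fin (n + 1), Rat_S b (k : ℕ) := by
    intro u hu
    have h1 : (Finset.univ.filter fun j => u < b j).card < n + 1 := by
      have h2 := Finset.card_le_univ (Finset.univ.filter fun j => u < b j)
      rw [Fintype.card_fin] at h2
      omega
    exact Set.mem_iUnion.2 ⟨⟨_, h1⟩, hu, rfl⟩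
  refine (lintegral_mono_set hU).trans ((lintegral_iUnion_le _ _).trans ?_)
  rw [tsum_fintype]
  have h1 : ∀ k ∈ (Finset.univ : Finset (Fin (n + 1))),
      ∫⁻ u in Rat_S b (k : ℕ), ENNReal.ofReal (1 + ∑ j, m j / (u - b j) ^ 2) *
        g (u - ∑ j, m j / (u - b j)) ≤ ∫⁻ a, g a := fun k _ => Rat_piece b m hm g (k : ℕ)
  refine (Finset.sum_le_sum h1).trans ?_
  rw [Finset.sum_const, Finset.card_univ, Fintype.card_fin, nsmul_eq_mul]
  push_cast
  exact le_rfl

end Pool.Agent.MPbd65ca.Hm
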