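import Pool.Agent.Lib.MP_bd65ca_an_H.HL

/-!
# The change of variables `C ↦ t + V (C - t) V`

PROOF. `ad_mp`: for unitary `Q` the map `x ↦ hc (cj Q (hm x))` is real linear and isometric
(`norm_hm`, `‖Q A Q*‖ = ‖A‖` in the Frobenius norm: `tr (Q A Q* Q A Q*) = tr (A A)`) with the
inverse given
by `Q*`, so it is a linear isometry equivalence (`LinearIsometryEquiv.measurePreserving`).
`diag_scale`: for a real diagonal matrix `D = dg u` with nonzero entries the map
`x ↦ hc (cj D (hm x))` is `x (i, j) ↦ u i * u j * x (i, j)` in coordinates; its determinant is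
`∏ i, ∏ j, u i u j = (∏ i, u i) ^ (2 n)` (`Real.map_linearMap_volume_pi_eq_smul_volume_pi` with a
diagonal
matrix, or `lintegral` scaling in each coordinate).  Spectral theorem
(`Matrix.IsHermitian.spectral_theorem`): `V = Q * dg u * Q*`, `det V = ∏ i, u i`; `V C V = V C V*`
is the
composition of the three maps, so
`∫⁻ g (hm x) = ofReal (‖V.det‖ ^ (2 n)) * ∫⁻ g (V (hm x) V)`.  Finally the translation by `hc (t •
1)`
(`hc`, `hm` linear, `lintegral_add_right_eq_self`): `C = t + C'`.
-/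

open MeasureTheory FourierTransform Pointwise Set Finset Matrix
open scoped RealInnerProductSpace

namespace Pool.Agent.MPbd65ca.Hm

open Pool.Agent.MPbd65ca.Oct Pool.Agent.MPbd65ca.Bp

variable {n : ℕ}

private theorem Scl_hc_add (A B : MM n) : hc (A + B) = hc A + hc B := by
  ext q
  rw [PiLp.add_apply]
  unfold hc
  rw [PiLp.toLp_apply, PiLp.toLp_apply, PiLp.toLp_apply]
  split_ifs
  · simp
  · simp only [Pi.add_apply, Complex.add_re]
    ring
  · simp only [Pi.add_apply, Complex.add_im]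
    ring

private theorem Scl_hc_smul (c : ℝ) (A : MM n) :
    hc (fun i j => (c : ℂ) * A i j) = c • hc A := by
  ext q
  rw [PiLp.smul_apply]
  unfold hc
  rw [PiLp.toLp_apply, PiLp.toLp_apply, smul_eq_mul]
  split_ifs
  · simp
  · simp only [Complex.re_ofReal_mul]
    ring
  · simp only [Complex.im_ofReal_mul]
    ring

private theorem Scl_cj_add (Q : Matrix (Fin n) (Fin n) ℂ) (A B : MM n) :
    cj Q (Matrix.of (A + B)) = cj Q (Matrix.of A) + cj Q (Matrix.of B) := by
  funext i j
  have : (Matrix.of (A + B) : Matrix (Fin n) (Fin n) ℂ) = Matrix.of A + Matrix.of B := rfl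
  unfold cj
  rw [this, Matrix.mul_add, Matrix.add_mul]
  rfl

private theorem Scl_cj_smul (Q : Matrix (Fin n) (Fin n) ℂ) (c : ℝ) (A : MM n) :
    cj Q (Matrix.of fun i j => (c : ℂ) * A i j) = fun i j => (c : ℂ) * cj Q (Matrix.of A) i j := by
  funext i j
  have : (Matrix.of (fun i j => (c : ℂ) * A i j) : Matrix (Fin n) (Fin n) ℂ) =
      (c : ℂ) • Matrix.of A := by
    ext i j
    rfl
  unfold cj
  rw [this, Matrix.mul_smul, Matrix.smul_mul]
  rfl

private theorem Scl_cont_cj (Q : Matrix (Fin n) (Fin n) ℂ) :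
    Continuous fun A : MM n => cj Q (Matrix.of A) := by
  refine continuous_pi fun i => continuous_pi fun j => ?_
  unfold cj
  simp only [Matrix.mul_apply, Matrix.of_apply]
  fun_prop

/-- The conjugation as a linear map in coordinates. -/
private noncomputable def SclT (Q : Matrix (Fin n) (Fin n) ℂ) : E (n * n) →ₗ[ℝ] E (n * n) where
  toFun x := hc (cj Q (Matrix.of (hm x)))
  map_add' x y := by
    rw [hm_add, Scl_cj_add, Scl_hc_add]
  map_smul' c x := by
    rw [hm_smul, Scl_cj_smul, Scl_hc_smul]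
    rfl

private theorem Scl_hm_hc_cj (Q : Matrix (Fin n) (Fin n) ℂ) (x : E (n * n)) :
    hm (hc (cj Q (Matrix.of (hm x)))) = cj Q (Matrix.of (hm x)) :=
  hm_hc (cj_herm (hm_herm x))

private theorem Scl_norm {Q : Matrix (Fin n) (Fin n) ℂ}
    (hQ : Q ∈ Matrix.unitaryGroup (Fin n) ℂ) (x : E (n * n)) :
    ‖hc (cj Q (Matrix.of (hm x)))‖ = ‖x‖ := by
  have h1 := inner_hc (cj_herm (W := Q) (hm_herm x)) (hc (cj Q (Matrix.of (hm x))))
  have h2 := inner_hc (hm_herm x) x
  rw [Scl_hm_hc_cj] at h1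
  rw [hc_hm] at h2
  have h3 : (Matrix.of (cj Q (Matrix.of (hm x))) : Matrix (Fin n) (Fin n) ℂ) =
      Q * Matrix.of (hm x) * Qᴴ := by
    ext i j
    rfl
  have hQQ : Qᴴ * Q = 1 := Matrix.mem_unitaryGroup_iff'.1 hQ
  have h4 : (Q * Matrix.of (hm x) * Qᴴ * (Q * Matrix.of (hm x) * Qᴴ)).trace =
      (Matrix.of (hm x) * Matrix.of (hm x)).trace := by
    have e : Q * Matrix.of (hm x) * Qᴴ * (Q * Matrix.of (hm x) * Qᴴ) =
        Q * (Matrix.of (hm x) * (Qᴴ * Q) * Matrix.of (hm x) * Qᴴ) := by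
      simp only [Matrix.mul_assoc]
    rw [e, hQQ, Matrix.mul_one, Matrix.trace_mul_comm, Matrix.mul_assoc, hQQ, Matrix.mul_one]
  rw [h3, h4, ← h2, real_inner_self_eq_norm_sq, real_inner_self_eq_norm_sq] at h1
  exact (sq_eq_sq₀ (norm_nonneg _) (norm_nonneg _)).1 h1

theorem ad_mp {Q : Matrix (Fin n) (Fin n) ℂ} (hQ : Q ∈ Matrix.unitaryGroup (Fin n) ℂ) :
    MeasurePreserving (fun x : E (n * n) => hc (cj Q (Matrix.of (hm x)))) := by
  let li : E (n * n) →ₗᵢ[ℝ] E (n * n) := ⟨SclT Q, fun x => Scl_norm hQ x⟩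
  have h := (li.toLinearIsometryEquiv rfl).measurePreserving
  have e : (⇑(li.toLinearIsometryEquiv rfl) : E (n * n) → E (n * n)) =
      fun x : E (n * n) => hc (cj Q (Matrix.of (hm x))) := by
    funext x
    rw [LinearIsometry.coe_toLinearIsometryEquiv]
    rfl
  rwa [e] at h

/-- The weights of the diagonal map. -/
private def SclW (u : Fin n → ℝ) (q : Fin (n * n)) : ℝ :=
  u (finProdFinEquiv.symm q).1 * u (finProdFinEquiv.symm q).2

/-- The diagonal map. -/
private noncomputable def SclS (u : Fin n → ℝ) : E (n * n) →ₗ[ℝ] E (n * n) :=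
  Matrix.toEuclideanLin (Matrix.diagonal (SclW u))

private theorem SclS_apply (u : Fin n → ℝ) (x : E (n * n)) (q : Fin (n * n)) :
    SclS u x q = SclW u q * x q := by
  have h : SclS u x q = (Matrix.diagonal (SclW u)).mulVec (fun i => x i) q := rfl
  rw [h, Matrix.mulVec_diagonal]

private theorem SclS_det (u : Fin n → ℝ) : LinearMap.det (SclS u) = (∏ i, u i) ^ (2 * n) := by
  unfold SclS
  rw [Matrix.toEuclideanLin_eq_toLin_orthonormal, LinearMap.det_toLin, Matrix.det_diagonal,
    ← finProdFinEquiv.prod_comp, Fintype.prod_prod_type]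
  have e : ∀ i j : Fin n, SclW u (finProdFinEquiv (i, j)) = u i * u j := by
    intro i j
    unfold SclW
    rw [finProdFinEquiv.symm_apply_apply]
  simp only [e, Finset.prod_mul_distrib, Finset.prod_const, Finset.card_univ, Fintype.card_fin]
  rw [Finset.prod_pow]
  ring

private theorem Scl_hm_S (u : Fin n → ℝ) (x : E (n * n)) :
    hm (SclS u x) = cj (dg u) (Matrix.of (hm x)) := by
  funext i j
  have e : cj (dg u) (Matrix.of (hm x)) i j = (u i : ℂ) * hm x i j * (u j : ℂ) := by
    unfold cj dg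
    rw [Matrix.diagonal_conjTranspose, Matrix.mul_diagonal, Matrix.diagonal_mul]
    simp
  rw [e]
  have w : ∀ i j : Fin n, SclS u x (finProdFinEquiv (i, j)) =
      u i * u j * x (finProdFinEquiv (i, j)) := by
    intro i j
    rw [SclS_apply]
    unfold SclW
    rw [finProdFinEquiv.symm_apply_apply]
  unfold hm
  split_ifs with h1 h2
  · subst h1
    rw [w]
    push_cast
    ring
  · rw [w, w]
    push_cast
    ring
  · rw [w, w]
    push_cast
    ring

theorem diag_scale {u : Fin n → ℝ} (hu : ∀ i, u i ≠ 0) {g : MM n → ENNReal}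
    (hg : Measurable g) : ∫⁻ x : E (n * n), g (hm x) =
      ENNReal.ofReal ((∏ i, |u i|) ^ (2 * n)) *
        ∫⁻ x : E (n * n), g (cj (dg u) (Matrix.of (hm x))) := by
  have hd : LinearMap.det (SclS u) ≠ 0 := by
    rw [SclS_det]
    exact pow_ne_zero _ (Finset.prod_ne_zero_iff.2 fun i _ => hu i)
  have hm1 := Measure.map_linearMap_addHaar_eq_smul_addHaar (volume : Measure (E (n * n))) hd
  have hmeas : Measurable fun x : E (n * n) => g (hm x) := hg.comp continuous_hm.measurable
  have h2 : ∫⁻ x : E (n * n), g (cj (dg u) (Matrix.of (hm x))) =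
      ENNReal.ofReal |(LinearMap.det (SclS u))⁻¹| * ∫⁻ x : E (n * n), g (hm x) := by
    calc ∫⁻ x : E (n * n), g (cj (dg u) (Matrix.of (hm x)))
        = ∫⁻ x : E (n * n), g (hm (SclS u x)) := by
          simp only [Scl_hm_S]
      _ = ∫⁻ x, g (hm x) ∂(Measure.map (SclS u) volume) := by
          rw [lintegral_map hmeas (LinearMap.continuous_of_finiteDimensional _).measurable]
      _ = _ := by
          rw [hm1, lintegral_smul_measure, smul_eq_mul]
  rw [h2, ← mul_assoc, ← ENNReal.ofReal_mul (by positivity)]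
  have h3 : (∏ i, |u i|) ^ (2 * n) * |(LinearMap.det (SclS u))⁻¹| = 1 := by
    rw [SclS_det, ← Finset.abs_prod, abs_inv, abs_pow]
    refine mul_inv_cancel₀ (pow_ne_zero _ (abs_ne_zero.2 ?_))
    exact Finset.prod_ne_zero_iff.2 fun i _ => hu i
  rw [h3, ENNReal.ofReal_one, one_mul]

private theorem Scl_cj_cj (P Q : Matrix (Fin n) (Fin n) ℂ) (A : Matrix (Fin n) (Fin n) ℂ) :
    cj P (Matrix.of (cj Q A)) = cj (P * Q) A := by
  funext i j
  have e : (Matrix.of (cj Q A) : Matrix (Fin n) (Fin n) ℂ) = Q * A * Qᴴ := by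
    ext i j
    rfl
  have e1 : cj P (Matrix.of (cj Q A)) i j = (P * Matrix.of (cj Q A) * Pᴴ) i j := rfl
  have e2 : cj (P * Q) A i j = (P * Q * A * (P * Q)ᴴ) i j := rfl
  rw [e1, e2, e, Matrix.conjTranspose_mul]
  simp only [Matrix.mul_assoc]

private theorem Scl_ad {Q : Matrix (Fin n) (Fin n) ℂ}
    (hQ : Q ∈ Matrix.unitaryGroup (Fin n) ℂ) {G : MM n → ENNReal} (hG : Measurable G) :
    ∫⁻ x : E (n * n), G (cj Q (Matrix.of (hm x))) = ∫⁻ x : E (n * n), G (hm x) := by
  have h := (ad_mp hQ).lintegral_comp (f := fun x : E (n * n) => G (hm x))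
    (hG.comp continuous_hm.measurable)
  rw [← h]
  refine lintegral_congr fun x => ?_
  rw [Scl_hm_hc_cj]

private theorem Scl_core {V : Matrix (Fin n) (Fin n) ℂ} (hV : V.IsHermitian) (hdet : V.det ≠ 0)
    {G : MM n → ENNReal} (hG : Measurable G) :
    ∫⁻ x : E (n * n), G (hm x) = ENNReal.ofReal (‖V.det‖ ^ (2 * n)) *
      ∫⁻ x : E (n * n), G (cj V (Matrix.of (hm x))) := by
  set Q : Matrix (Fin n) (Fin n) ℂ := (hV.eigenvectorUnitary : Matrix (Fin n) (Fin n) ℂ) with hQd
  have hQ : Q ∈ Matrix.unitaryGroup (Fin n) ℂ := hV.eigenvectorUnitary.2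
  have hQs : Qᴴ ∈ Matrix.unitaryGroup (Fin n) ℂ := by
    exact (star hV.eigenvectorUnitary).2
  have hsp : V = Q * dg hV.eigenvalues * Qᴴ := by
    have h := hV.spectral_theorem
    rw [Unitary.conjStarAlgAut_apply] at h
    exact h
  have hdp : ‖V.det‖ = ∏ i, |hV.eigenvalues i| := by
    rw [hV.det_eq_prod_eigenvalues, norm_prod]
    refine Finset.prod_congr rfl fun i _ => ?_
    exact RCLike.norm_ofReal _
  have hu : ∀ i, hV.eigenvalues i ≠ 0 := by
    intro i hi
    apply hdet
    rw [hV.det_eq_prod_eigenvalues]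
    exact Finset.prod_eq_zero (Finset.mem_univ i) (by rw [hi]; exact RCLike.ofReal_zero)
  have h1 : ∀ x : E (n * n), cj V (Matrix.of (hm x)) =
      cj Q (Matrix.of (cj (dg hV.eigenvalues) (Matrix.of (cj Qᴴ (Matrix.of (hm x)))))) := by
    intro x
    rw [Scl_cj_cj, Scl_cj_cj, ← hsp]
  have hG1 : Measurable fun A : MM n => G (cj Q (Matrix.of A)) :=
    hG.comp (Scl_cont_cj Q).measurable
  have hG2 : Measurable fun A : MM n =>
      G (cj Q (Matrix.of (cj (dg hV.eigenvalues) (Matrix.of A)))) :=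
    hG1.comp (Scl_cont_cj _).measurable
  have h2 : ∫⁻ x : E (n * n), G (cj V (Matrix.of (hm x))) =
      ∫⁻ x : E (n * n), G (cj Q (Matrix.of (cj (dg hV.eigenvalues) (Matrix.of (hm x))))) := by
    simp only [h1]
    exact Scl_ad hQs hG2
  rw [h2, hdp, ← diag_scale hu hG1]
  exact (Scl_ad hQ hG).symm

theorem scl {V : Matrix (Fin n) (Fin n) ℂ} (hV : V.IsHermitian) (hdet : V.det ≠ 0) (t : ℝ)
    {g : MM n → ENNReal} (hg : Measurable g) :
    ∫⁻ x : E (n * n), g (hm x) = ENNReal.ofReal (‖V.det‖ ^ (2 * n)) *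
      ∫⁻ x : E (n * n), g (fun i j => ((t : ℂ) • (1 : Matrix (Fin n) (Fin n) ℂ) +
        V * (Matrix.of (hm x) - (t : ℂ) • 1) * V) i j) := by
  have htH : (Matrix.of (fun i j => ((t : ℂ) • (1 : Matrix (Fin n) (Fin n) ℂ)) i j) :
      Matrix (Fin n) (Fin n) ℂ).IsHermitian := by
    refine Matrix.IsHermitian.ext fun i j => ?_
    rw [Matrix.of_apply, Matrix.of_apply, Matrix.smul_apply, Matrix.smul_apply]
    by_cases h : i = j
    · subst h
      simp
    · rw [Matrix.one_apply_ne h, Matrix.one_apply_ne (Ne.symm h)]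
      simp
  set T : MM n := fun i j => ((t : ℂ) • (1 : Matrix (Fin n) (Fin n) ℂ)) i j with hT
  have hmT : hm (hc T) = T := hm_hc htH
  have hG : Measurable fun A : MM n => g (A + T) := by
    refine hg.comp ?_
    exact (continuous_id.add continuous_const).measurable
  have h1 := Scl_core hV hdet hG
  have h2 : ∫⁻ x : E (n * n), g (hm x + T) = ∫⁻ x : E (n * n), g (hm x) := by
    have h := lintegral_add_right_eq_self (μ := (volume : Measure (E (n * n))))
      (fun x : E (n * n) => g (hm x)) (hc T)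
    rw [← h]
    refine lintegral_congr fun x => ?_
    rw [hm_add, hmT]
  have h3 : ∫⁻ x : E (n * n), g (cj V (Matrix.of (hm x)) + T) =
      ∫⁻ x : E (n * n), g (fun i j => ((t : ℂ) • (1 : Matrix (Fin n) (Fin n) ℂ) +
        V * (Matrix.of (hm x) - (t : ℂ) • 1) * V) i j) := by
    have h := lintegral_add_right_eq_self (μ := (volume : Measure (E (n * n))))
      (fun x : E (n * n) => g (fun i j => ((t : ℂ) • (1 : Matrix (Fin n) (Fin n) ℂ) +
        V * (Matrix.of (hm x) - (t : ℂ) • 1) * V) i j)) (hc T)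
    rw [← h]
    refine lintegral_congr fun x => ?_
    congr 1
    funext i j
    have e : (Matrix.of (hm (x + hc T)) : Matrix (Fin n) (Fin n) ℂ) - (t : ℂ) • 1 =
        Matrix.of (hm x) := by
      rw [hm_add, hmT]
      ext i j
      simp [hT]
    rw [e, Pi.add_apply, Pi.add_apply, Matrix.add_apply, add_comm]
    unfold cj
    rw [hV.eq]
  rw [← h2, h1, h3]

end Pool.Agent.MPbd65ca.Hm
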