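import Pool.Agent.Lib.MP_bd65ca_an_H.Tm

/-!
# The inequality S(m)

PROOF. `Sm`: induction on `m` for all `j`, `M`, `g`; `m = 0`: `Av_zero`.  Step: `Tm` for `g` on
`Fin (m + 1)` (`M + m ≤ 2 N - 1` from `M + (m + 1) ≤ 2 N`) and the induction hypothesis with `j + 1`
for `v ↦ g (Fin.cons 0 v)` (`TPn_cons`, `Sy_cons`); `lamN N j ≥ 0`;
`∏ i ∈ range (m + 1), lamN N (j + i) = lamN N j * ∏ i ∈ range m, lamN N (j + 1 + i)`.
`Sm0`: apply `Sm` with `j = 0` to the symmetrization `∑ σ, g (fun i => u (σ i))` (`Sy`, `TPn`: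
`Function.update u i t ∘ σ = Function.update (u ∘ σ) (σ⁻¹ i) t`); both sides are `n!` times those
for
`g` (`Av_perm`, `Dd_perm`).
-/

open MeasureTheory FourierTransform Pointwise Set Finset Matrix
open scoped RealInnerProductSpace

namespace Pool.Agent.MPbd65ca.Hm

open Pool.Agent.MPbd65ca.Oct Pool.Agent.MPbd65ca.Bp

theorem lamN_nonneg (N j : ℕ) : 0 ≤ lamN N j := by
  unfold lamN Sj
  exact div_nonneg (by positivity) (Finset.sum_nonneg fun k _ => sq_nonneg _)

theorem Sm {N L : ℕ} (hN : 0 < N) (m : ℕ) : ∀ {j M : ℕ}, 2 * N + j + m ≤ L → M + m ≤ 2 * N →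
    ∀ {g : (Fin m → ℝ) → ℝ}, (∀ u, 0 ≤ g u) → TPn M g → Sy g →
      m.factorial * (∏ i ∈ range m, lamN N (j + i)) * g 0 ≤
      Av L m (fun u => g u * (∏ i, wz (u i) ^ j) * Dd u) := by
  induction m with
  | zero =>
    intro j M _ _ g h0 _ _
    rw [Av_zero]
    simp only [Nat.factorial_zero, Nat.cast_one, Finset.range_zero, Finset.prod_empty, one_mul,
      Finset.univ_eq_empty, mul_one]
    unfold Dd
    simp only [Finset.univ_eq_empty, Finset.prod_empty, mul_one]
    exact le_refl _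
  | succ m ih =>
    intro j M hL hM g h0 hg hs
    have h1 := Tm (j := j) (L := L) hN (by omega) m (M := M) (by omega) h0 hg hs
    have h2 := ih (j := j + 1) (M := M) (by omega) (by omega)
      (g := fun v => g (Fin.cons 0 v)) (fun v => h0 _) (TPn_cons hg 0) (Sy_cons hs 0)
    have h3 : (Fin.cons (0 : ℝ) (0 : Fin m → ℝ) : Fin (m + 1) → ℝ) = 0 := by
      funext i
      refine Fin.cases ?_ (fun i => ?_) i
      · rw [Fin.cons_zero]
        rfl
      · rw [Fin.cons_succ]
        rfl
    rw [h3] at h2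
    have h4 : ((m + 1).factorial : ℝ) * (∏ i ∈ range (m + 1), lamN N (j + i)) * g 0 =
        (m + 1) * lamN N j * (m.factorial * (∏ i ∈ range m, lamN N (j + 1 + i)) * g 0) := by
      rw [Finset.prod_range_succ', Nat.factorial_succ, add_zero]
      have h5 : ∏ i ∈ range m, lamN N (j + (i + 1)) = ∏ i ∈ range m, lamN N (j + 1 + i) := by
        refine Finset.prod_congr rfl fun i _ => ?_
        rw [show j + (i + 1) = j + 1 + i by ring]
      rw [h5]
      push_cast
      ring
    rw [h4]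
    refine le_trans (mul_le_mul_of_nonneg_left h2 ?_) h1
    have := lamN_nonneg N j
    positivity

private theorem SmAux.Av_sum {ι : Type*} (s : Finset ι) (L m : ℕ)
    (F : ι → (Fin m → ℝ) → ℝ) : Av L m (fun u => ∑ i ∈ s, F i u) = ∑ i ∈ s, Av L m (F i) := by
  unfold Av
  rw [Finset.sum_comm, Finset.mul_sum]

private theorem SmAux.upd {n : ℕ} (σ : Equiv.Perm (Fin n)) (u : Fin n → ℝ) (i : Fin n) (t : ℝ) :
    (fun k => Function.update u i t (σ k)) =
      Function.update (fun k => u (σ k)) (σ.symm i) t := by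
  funext k
  by_cases h : k = σ.symm i
  · rw [h, Equiv.apply_symm_apply, Function.update_self, Function.update_self]
  · have h' : σ k ≠ i := fun h2 => h (by rw [← h2, Equiv.symm_apply_apply])
    rw [Function.update_of_ne h', Function.update_of_ne h]

theorem Sm0 {N L n M : ℕ} (hN : 0 < N) (hL : 2 * N + n ≤ L) (hM : M + n ≤ 2 * N)
    {g : (Fin n → ℝ) → ℝ} (h0 : ∀ u, 0 ≤ g u) (hg : TPn M g) :
    n.factorial * (∏ i ∈ range n, lamN N i) * g 0 ≤ Av L n (fun u => g u * Dd u) := by
  obtain ⟨G, hG⟩ : ∃ G : (Fin n → ℝ) → ℝ,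
      G = fun u => ∑ σ : Equiv.Perm (Fin n), g (fun i => u (σ i)) := ⟨_, rfl⟩
  have hG0 : ∀ u, 0 ≤ G u := by
    intro u
    rw [hG]
    exact Finset.sum_nonneg fun σ _ => h0 _
  have hGT : TPn M G := by
    intro u i
    rw [hG]
    refine TrigAux.sum Finset.univ fun σ _ => ?_
    have h1 : (fun t => g (fun k => Function.update u i t (σ k))) =
        fun t => g (Function.update (fun k => u (σ k)) (σ.symm i) t) := by
      funext t
      rw [SmAux.upd]
    rw [h1]
    exact hg _ _
  have hGS : Sy G := by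
    intro τ u
    rw [hG]
    refine Fintype.sum_equiv (Equiv.mulLeft τ) _ _ fun σ => ?_
    rfl
  have h2 := Sm (j := 0) hN n (L := L) (by omega) hM hG0 hGT hGS
  have hcard : (∑ _σ : Equiv.Perm (Fin n), (1 : ℝ)) = n.factorial := by
    rw [Finset.sum_const, Finset.card_univ, Fintype.card_perm, Fintype.card_fin, nsmul_eq_mul,
      mul_one]
  have h3 : G 0 = n.factorial * g 0 := by
    rw [hG, ← hcard, Finset.sum_mul]
    refine Finset.sum_congr rfl fun σ _ => ?_
    rw [one_mul]
    rfl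
  have h4 : Av L n (fun u => G u * (∏ i, wz (u i) ^ 0) * Dd u) =
      n.factorial * Av L n (fun u => g u * Dd u) := by
    have h5 : (fun u => G u * (∏ i, wz (u i) ^ 0) * Dd u) = fun u =>
        ∑ σ : Equiv.Perm (Fin n), (fun v => g v * Dd v) (fun i => u (σ i)) := by
      funext u
      rw [hG]
      simp only [pow_zero, Finset.prod_const_one, mul_one]
      rw [Finset.sum_mul]
      refine Finset.sum_congr rfl fun σ _ => ?_
      rw [Dd_perm]
    rw [h5, SmAux.Av_sum, ← hcard, Finset.sum_mul]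
    refine Finset.sum_congr rfl fun σ _ => ?_
    rw [Av_perm σ (fun v => g v * Dd v), one_mul]
  rw [h4, h3] at h2
  have h6 : (∏ i ∈ range n, lamN N (0 + i)) = ∏ i ∈ range n, lamN N i := by
    refine Finset.prod_congr rfl fun i _ => ?_
    rw [zero_add]
  rw [h6] at h2
  have h7 : (0 : ℝ) < n.factorial := by exact_mod_cast n.factorial_pos
  refine le_of_mul_le_mul_left ?_ h7
  calc (n.factorial : ℝ) * (n.factorial * (∏ i ∈ range n, lamN N i) * g 0) =
      n.factorial * (∏ i ∈ range n, lamN N i) * (n.factorial * g 0) := by ring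
    _ ≤ _ := h2

end Pool.Agent.MPbd65ca.Hm
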