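import Pool.Agent.Lib.MP_bd65ca_an_H.HA

/-!
# Splitting off the first row and column

PROOF. The coordinates of `E ((n + 1) * (n + 1))` are indexed by pairs in `Fin (n + 1) × Fin (n +
1)`:
`(0, 0)`; `(0, j + 1)`, `(j + 1, 0)`; `(i + 1, j + 1)`.  The map
`x ↦ (x (0, 0), (x (0, j + 1))_j, (x (j + 1, 0))_j, (x (i + 1, j + 1)))` is a volume preserving
equivalence onto
`ℝ × (Fin n → ℝ) × (Fin n → ℝ) × E (n * n)` (compose `PiLp.volume_preserving_ofLp`,
`volume_measurePreserving_piCongrLeft` for an equivalence of the index sets,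
`volume_measurePreserving_sumPiEquivProdPi`; cf. `ProdAux.Phi_mp` in MP_bd65ca_an/Prod.lean), and
`hm x = bord a w (hm y)` with `w j = (x (0, j + 1) - I x (j + 1, 0)) / √2`
(`hm x 0 (j + 1) = star (w j)`).  For each `j` the map `(s, t) ↦ (s - I t) / √2`, `ℝ × ℝ → ℂ`, sends
Lebesgue measure to `2 • volume` (`Complex.volume_preserving_equiv_real_prod`, scaling), so the
product over
`j` gives the factor `2 ^ n` (`Measure.pi`; or induct).
-/

open MeasureTheory FourierTransform Pointwise Set Finset Matrix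
open scoped RealInnerProductSpace

namespace Pool.Agent.MPbd65ca.Hm

open Pool.Agent.MPbd65ca.Oct Pool.Agent.MPbd65ca.Bp

theorem continuous_bord {n : ℕ} :
    Continuous fun p : ℝ × (Fin n → ℂ) × MM n => bord p.1 p.2.1 p.2.2 := by
  refine continuous_pi fun i => continuous_pi fun j => ?_
  refine Fin.cases ?_ (fun i => ?_) i
  · refine Fin.cases ?_ (fun j => ?_) j
    · exact Complex.continuous_ofReal.comp continuous_fst
    · exact continuous_star.comp ((continuous_apply j).comp (continuous_fst.comp continuous_snd))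
  · refine Fin.cases ?_ (fun j => ?_) j
    · exact (continuous_apply i).comp (continuous_fst.comp continuous_snd)
    · exact (continuous_apply j).comp ((continuous_apply i).comp
        (continuous_snd.comp continuous_snd))

/-- The matrix of the real coordinates. -/
private def Spl_m {n : ℕ} (p : ℝ × (Fin n → ℝ × ℝ) × (Fin (n * n) → ℝ)) :
    Fin (n + 1) → Fin (n + 1) → ℝ :=
  Fin.cons (Fin.cons p.1 fun j => (p.2.1 j).1)
    fun i => Fin.cons (p.2.1 i).2 fun j => p.2.2 (finProdFinEquiv (i, j))

/-- The vector of the real coordinates. -/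
private def Spl_T {n : ℕ} (p : ℝ × (Fin n → ℝ × ℝ) × (Fin (n * n) → ℝ)) :
    Fin ((n + 1) * (n + 1)) → ℝ :=
  fun q => Spl_m p (finProdFinEquiv.symm q).1 (finProdFinEquiv.symm q).2

private theorem Spl_Te {n : ℕ} (p : ℝ × (Fin n → ℝ × ℝ) × (Fin (n * n) → ℝ))
    (i j : Fin (n + 1)) : Spl_T p (finProdFinEquiv (i, j)) = Spl_m p i j := by
  rw [Spl_T, Equiv.symm_apply_apply]

private theorem Spl_meas (n : ℕ) : Measurable (Spl_T (n := n)) := by
  refine measurable_pi_iff.2 fun q => ?_
  change Measurable fun p => Spl_m p (finProdFinEquiv.symm q).1 (finProdFinEquiv.symm q).2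
  generalize (finProdFinEquiv.symm q).1 = i
  generalize (finProdFinEquiv.symm q).2 = j
  refine Fin.cases ?_ (fun i => ?_) i
  · refine Fin.cases ?_ (fun j => ?_) j
    · exact measurable_fst
    · exact measurable_fst.comp ((measurable_pi_apply j).comp (measurable_fst.comp measurable_snd))
  · refine Fin.cases ?_ (fun j => ?_) j
    · exact measurable_snd.comp ((measurable_pi_apply i).comp (measurable_fst.comp measurable_snd))
    · exact (measurable_pi_apply (finProdFinEquiv (i, j))).comp
        (measurable_snd.comp measurable_snd)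

private theorem Spl_mp (n : ℕ) : MeasurePreserving (Spl_T (n := n)) := by
  refine ⟨Spl_meas n, ?_⟩
  symm
  rw [volume_pi]
  refine Measure.pi_eq fun s hs => ?_
  rw [Measure.map_apply (Spl_meas n) (MeasurableSet.univ_pi hs)]
  have h : Spl_T ⁻¹' (Set.univ.pi s) = s (finProdFinEquiv ((0 : Fin (n + 1)), (0 : Fin (n + 1)))) ×ˢ
      ((Set.univ.pi fun j : Fin n => s (finProdFinEquiv ((0 : Fin (n + 1)), j.succ)) ×ˢ
        s (finProdFinEquiv (j.succ, (0 : Fin (n + 1))))) ×ˢ
      (Set.univ.pi fun q : Fin (n * n) => s (finProdFinEquiv ((finProdFinEquiv.symm q).1.succ,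
        (finProdFinEquiv.symm q).2.succ)))) := by
    ext p
    simp only [Set.mem_preimage, Set.mem_pi, Set.mem_univ, true_implies, Set.mem_prod]
    constructor
    · intro h
      have h' : ∀ i j, Spl_m p i j ∈ s (finProdFinEquiv (i, j)) := fun i j => by
        have := h (finProdFinEquiv (i, j))
        rwa [Spl_Te] at this
      refine ⟨h' 0 0, fun j => ⟨h' 0 j.succ, h' j.succ 0⟩, fun q => ?_⟩
      have := h' (finProdFinEquiv.symm q).1.succ (finProdFinEquiv.symm q).2.succ
      simp only [Spl_m, Fin.cons_succ, Prod.mk.eta, Equiv.apply_symm_apply] at this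
      exact this
    · rintro ⟨h1, h2, h3⟩ q
      obtain ⟨⟨i, j⟩, rfl⟩ := finProdFinEquiv.surjective q
      rw [Spl_Te]
      refine Fin.cases ?_ (fun i => ?_) i
      · refine Fin.cases h1 (fun j => (h2 j).1) j
      · refine Fin.cases (h2 i).2 (fun j => ?_) j
        have := h3 (finProdFinEquiv (i, j))
        rw [Equiv.symm_apply_apply] at this
        exact this
  rw [h, Measure.volume_eq_prod, Measure.prod_prod, Measure.volume_eq_prod, Measure.prod_prod,
    volume_pi_pi, volume_pi_pi]
  simp only [Measure.volume_eq_prod, Measure.prod_prod]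
  rw [Finset.prod_mul_distrib]
  have e1 : ∏ q : Fin ((n + 1) * (n + 1)), volume (s q) =
      ∏ i : Fin (n + 1), ∏ j : Fin (n + 1), volume (s (finProdFinEquiv (i, j))) := by
    rw [← finProdFinEquiv.prod_comp, Fintype.prod_prod_type]
  have e2 : ∏ q : Fin (n * n), volume (s (finProdFinEquiv ((finProdFinEquiv.symm q).1.succ,
      (finProdFinEquiv.symm q).2.succ))) =
      ∏ i : Fin n, ∏ j : Fin n, volume (s (finProdFinEquiv (i.succ, j.succ))) := by
    rw [← finProdFinEquiv.prod_comp, Fintype.prod_prod_type]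
    simp only [Equiv.symm_apply_apply]
  rw [e1, e2, Fin.prod_univ_succ, Fin.prod_univ_succ]
  simp only [Fin.prod_univ_succ (n := n), Finset.prod_mul_distrib]
  ring

/-- The complex coordinate. -/
private noncomputable def Spl_ph (p : ℝ × ℝ) : ℂ :=
  (((p.1 : ℝ) : ℂ) - Complex.I * ((p.2 : ℝ) : ℂ)) / ((Real.sqrt 2 : ℝ) : ℂ)

private theorem Spl_hm {n : ℕ} (p : ℝ × (Fin n → ℝ × ℝ) × (Fin (n * n) → ℝ)) :
    hm (WithLp.toLp 2 (Spl_T p)) =
      bord p.1 (fun j => Spl_ph (p.2.1 j)) (hm (WithLp.toLp 2 p.2.2)) := by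
  funext i j
  unfold hm
  simp only [Spl_Te]
  refine Fin.cases ?_ (fun i => ?_) i
  · refine Fin.cases ?_ (fun j => ?_) j
    · rw [if_pos rfl]
      rfl
    · rw [if_neg (Fin.succ_ne_zero j).symm, if_pos (Fin.succ_pos j)]
      simp only [bord, Spl_m, Fin.cons_zero, Fin.cons_succ, Spl_ph]
      simp [Complex.conj_ofReal, Complex.conj_I, sub_eq_add_neg]
  · refine Fin.cases ?_ (fun j => ?_) j
    · rw [if_neg (Fin.succ_ne_zero i), if_neg (Fin.not_lt_zero _)]
      simp only [bord, Spl_m, Fin.cons_zero, Fin.cons_succ, Spl_ph]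
    · simp only [bord, Spl_m, Fin.cons_succ, Fin.succ_inj, Fin.succ_lt_succ_iff]

private theorem Spl_ph_mp : MeasurePreserving Spl_ph volume ((2 : NNReal) • volume) := by
  have hr : (1 / Real.sqrt 2 : ℝ) ≠ 0 := by positivity
  have h1 := (Complex.volume_preserving_equiv_real_prod).symm
  have h2 := Complex.conjLIE.measurePreserving
  have h3 : MeasurePreserving (fun z : ℂ => (1 / Real.sqrt 2 : ℝ) • z) volume
      ((2 : NNReal) • volume) := by
    refine ⟨measurable_const_smul _, ?_⟩
    rw [Measure.map_addHaar_smul _ hr, Complex.finrank_real_complex]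
    have h4 : |((1 / Real.sqrt 2 : ℝ) ^ 2)⁻¹| = 2 := by
      rw [div_pow, one_pow, Real.sq_sqrt (by norm_num), one_div, inv_inv]
      norm_num
    rw [h4]
    have h5 : ENNReal.ofReal 2 = ((2 : NNReal) : ENNReal) := by
      rw [ENNReal.ofReal_ofNat]
      rfl
    rw [h5]
    rfl
  have h6 := h3.comp (h2.comp h1)
  have h7 : Spl_ph = (fun z : ℂ => (1 / Real.sqrt 2 : ℝ) • z) ∘
      (Complex.conjLIE ∘ Complex.measurableEquivRealProd.symm) := by
    funext p
    simp only [Function.comp, Complex.measurableEquivRealProd_symm_apply, Spl_ph,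
      Complex.conjLIE_apply]
    apply Complex.ext
    · simp [div_eq_inv_mul]
    · simp [div_eq_inv_mul]
  rw [h7]
  exact h6

private theorem Spl_pi (n : ℕ) : MeasurePreserving
    (fun (u : Fin n → ℝ × ℝ) (j : Fin n) => Spl_ph (u j)) volume
    ((2 ^ n : ENNReal) • (volume : Measure (Fin n → ℂ))) := by
  have h1 := measurePreserving_pi (fun _ : Fin n => (volume : Measure (ℝ × ℝ)))
    (fun _ : Fin n => (2 : NNReal) • (volume : Measure ℂ)) (fun _ => Spl_ph_mp)
  have h2 : Measure.pi (fun _ : Fin n => (2 : NNReal) • (volume : Measure ℂ)) =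
      (2 ^ n : ENNReal) • (volume : Measure (Fin n → ℂ)) := by
    refine Measure.pi_eq fun s hs => ?_
    rw [Measure.smul_apply, volume_pi_pi, smul_eq_mul]
    have h3 : ∀ i, ((2 : NNReal) • (volume : Measure ℂ)) (s i) = 2 * volume (s i) := fun i => rfl
    simp only [h3]
    rw [Finset.prod_mul_distrib, Finset.prod_const, card_univ, Fintype.card_fin]
  rw [h2] at h1
  exact h1

theorem split {n : ℕ} {g : MM (n + 1) → ENNReal} (hg : Measurable g) :
    ∫⁻ x : E ((n + 1) * (n + 1)), g (hm x) =
      2 ^ n * ∫⁻ a : ℝ, ∫⁻ w : Fin n → ℂ, ∫⁻ y : E (n * n), g (bord a w (hm y)) := by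
  have hms : Measurable fun X : Fin ((n + 1) * (n + 1)) → ℝ =>
      g (hm (WithLp.toLp 2 X)) :=
    hg.comp (continuous_hm.measurable.comp
      (PiLp.volume_preserving_toLp (Fin ((n + 1) * (n + 1)))).measurable)
  have e1 : ∫⁻ x : E ((n + 1) * (n + 1)), g (hm x) =
      ∫⁻ X : Fin ((n + 1) * (n + 1)) → ℝ, g (hm (WithLp.toLp 2 X)) :=
    ((PiLp.volume_preserving_toLp (Fin ((n + 1) * (n + 1)))).lintegral_comp
      (f := fun x => g (hm x)) (hg.comp continuous_hm.measurable)).symm
  have e2 := (Spl_mp n).lintegral_comp hms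
  rw [e1, ← e2]
  simp only [Spl_hm]
  -- the function on the product
  have hmb : Measurable fun p : ℝ × (Fin n → ℂ) × (Fin (n * n) → ℝ) =>
      g (bord p.1 p.2.1 (hm (WithLp.toLp 2 p.2.2))) := by
    have h3 : Measurable fun p : ℝ × (Fin n → ℂ) × (Fin (n * n) → ℝ) =>
        (p.1, p.2.1, hm (WithLp.toLp 2 p.2.2)) :=
      measurable_fst.prodMk ((measurable_fst.comp measurable_snd).prodMk
        (continuous_hm.measurable.comp
          ((PiLp.volume_preserving_toLp (Fin (n * n))).measurable.comp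
            (measurable_snd.comp measurable_snd))))
    exact hg.comp ((continuous_bord (n := n)).measurable.comp h3)
  have hph : Measurable fun u : Fin n → ℝ × ℝ => fun j => Spl_ph (u j) :=
    (Spl_pi n).measurable
  have hmp : Measurable fun p : ℝ × (Fin n → ℝ × ℝ) × (Fin (n * n) → ℝ) =>
      g (bord p.1 (fun j => Spl_ph (p.2.1 j)) (hm (WithLp.toLp 2 p.2.2))) :=
    hmb.comp (measurable_fst.prodMk ((hph.comp (measurable_fst.comp measurable_snd)).prodMk
      (measurable_snd.comp measurable_snd)))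
  rw [Measure.volume_eq_prod, lintegral_prod _ hmp.aemeasurable]
  have h2 : (2 : ENNReal) ^ n ≠ ⊤ := by simp
  rw [← lintegral_const_mul' _ _ h2]
  refine lintegral_congr fun a => ?_
  have hmp2 : Measurable fun p : (Fin n → ℝ × ℝ) × (Fin (n * n) → ℝ) =>
      g (bord a (fun j => Spl_ph (p.1 j)) (hm (WithLp.toLp 2 p.2))) :=
    hmp.comp (measurable_const.prodMk measurable_id)
  have hmb2 : Measurable fun p : (Fin n → ℂ) × (Fin (n * n) → ℝ) =>
      g (bord a p.1 (hm (WithLp.toLp 2 p.2))) :=
    hmb.comp (measurable_const.prodMk measurable_id)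
  rw [Measure.volume_eq_prod, lintegral_prod _ hmp2.aemeasurable]
  have hF : Measurable fun w : Fin n → ℂ => ∫⁻ y : Fin (n * n) → ℝ,
      g (bord a w (hm (WithLp.toLp 2 y))) := hmb2.lintegral_prod_right'
  have e3 := (Spl_pi n).lintegral_comp hF
  rw [e3, lintegral_smul_measure, smul_eq_mul]
  congr 1
  refine lintegral_congr fun w => ?_
  have hg3 : Measurable fun y : E (n * n) => g (bord a w (hm y)) := by
    have h3 : Measurable fun y : E (n * n) => (a, w, hm y) :=
      measurable_const.prodMk (measurable_const.prodMk continuous_hm.measurable)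
    exact hg.comp ((continuous_bord (n := n)).measurable.comp h3)
  exact (PiLp.volume_preserving_toLp (Fin (n * n))).lintegral_comp hg3

end Pool.Agent.MPbd65ca.Hm
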