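import Pool.Agent.Lib.MP_bd65ca_an_H.Rat
import Pool.Agent.Lib.MP_bd65ca_an_H.Lin

/-!
# The eigenvector parametrization

PROOF. Let `D u = u • 1 - B`.  Tonelli: `u` outside.  For all but finitely many `u` (`(D u).det`
is the
characteristic polynomial) `D u` is invertible; `lin_sub` for
`w ↦ g (u - (star w ⬝ᵥ ((D u)⁻¹.mulVec w)).re) w * ofReal (1 + nz ((D u)⁻¹.mulVec w))`: with
`w = (D u).mulVec z` it is `g (u - (star z ⬝ᵥ (D u).mulVec z).re) ((D u).mulVec z) * ofReal (1 +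
nz z)`
(`D u` is Hermitian, so `w* D⁻¹ w = z* D z`).  So the left side is
`∫⁻ u, ∫⁻ w, g (u - (w* D⁻¹ w).re) w * ofReal (1 + nz (D⁻¹ w))`; Tonelli again, `w` outside.  For
fixed
`w`: spectral theorem `B = Q * dg b * Q*` (`Matrix.IsHermitian.spectral_theorem`), `w' = Q* w`,
`m j = ‖w' j‖ ^ 2`: `w* D⁻¹ w = ∑ m j / (u - b j)`, `nz (D⁻¹ w) = ∑ m j / (u - b j) ^ 2`, for `u`
different
from all `b j`; `rat_sub`.
-/

open MeasureTheory FourierTransform Pointwise Set Finset Matrix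
open scoped RealInnerProductSpace

namespace Pool.Agent.MPbd65ca.Hm

open Pool.Agent.MPbd65ca.Oct Pool.Agent.MPbd65ca.Bp

private lemma spec {n : ℕ} {B : Matrix (Fin n) (Fin n) ℂ} (hB : B.IsHermitian) :
    ∃ (Q : Matrix (Fin n) (Fin n) ℂ) (b : Fin n → ℝ), Q * Qᴴ = 1 ∧ Qᴴ * Q = 1 ∧
      B = Q * dg b * Qᴴ := by
  refine ⟨hB.eigenvectorUnitary, hB.eigenvalues, ?_, ?_, ?_⟩
  · exact Unitary.mul_star_self_of_mem hB.eigenvectorUnitary.2
  · exact Unitary.star_mul_self_of_mem hB.eigenvectorUnitary.2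
  · conv_lhs => rw [hB.spectral_theorem]
    rw [Unitary.conjStarAlgAut_apply]
    rfl

private lemma nz_coe {n : ℕ} (v : Fin n → ℂ) : ((nz v : ℝ) : ℂ) = star v ⬝ᵥ v := by
  unfold nz dotProduct
  push_cast
  refine Finset.sum_congr rfl fun i _ => ?_
  rw [Pi.star_apply, Complex.star_def, Complex.conj_mul']

private lemma nz_conj {n : ℕ} {Q : Matrix (Fin n) (Fin n) ℂ} (h1 : Q * Qᴴ = 1)
    (v : Fin n → ℂ) : nz (Qᴴ.mulVec v) = nz v := by
  have : ((nz (Qᴴ.mulVec v) : ℝ) : ℂ) = ((nz v : ℝ) : ℂ) := by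
    rw [nz_coe, nz_coe, Matrix.star_mulVec, Matrix.conjTranspose_conjTranspose,
      ← Matrix.dotProduct_mulVec, Matrix.mulVec_mulVec, h1, Matrix.one_mulVec]
  exact_mod_cast this

private lemma dg_mulVec {n : ℕ} (c : Fin n → ℝ) (v : Fin n → ℂ) :
    (dg c).mulVec v = fun i => (c i : ℂ) * v i := by
  unfold dg
  ext i
  rw [Matrix.mulVec_diagonal]

private lemma quad {n : ℕ} (Q : Matrix (Fin n) (Fin n) ℂ) (c : Fin n → ℝ) (z : Fin n → ℂ) :
    star z ⬝ᵥ (Q * dg c * Qᴴ).mulVec z = ((∑ i, c i * ‖(Qᴴ.mulVec z) i‖ ^ 2 : ℝ) : ℂ) := by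
  have h1 : (Q * dg c * Qᴴ).mulVec z = Q.mulVec ((dg c).mulVec (Qᴴ.mulVec z)) := by
    rw [Matrix.mulVec_mulVec, Matrix.mulVec_mulVec, Matrix.mul_assoc]
  have h2 : star z ᵥ* Q = star (Qᴴ.mulVec z) := by
    rw [Matrix.star_mulVec, Matrix.conjTranspose_conjTranspose]
  rw [h1, Matrix.dotProduct_mulVec, h2, dg_mulVec]
  unfold dotProduct
  push_cast
  refine Finset.sum_congr rfl fun i _ => ?_
  rw [Pi.star_apply, Complex.star_def, ← Complex.conj_mul']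
  ring

private lemma Du_eq {n : ℕ} {B Q : Matrix (Fin n) (Fin n) ℂ} {b : Fin n → ℝ}
    (h1 : Q * Qᴴ = 1) (hB : B = Q * dg b * Qᴴ) (u : ℝ) :
    (u : ℂ) • (1 : Matrix (Fin n) (Fin n) ℂ) - B = Q * dg (fun i => u - b i) * Qᴴ := by
  have h2 : dg (fun i => u - b i) = (u : ℂ) • (1 : Matrix (Fin n) (Fin n) ℂ) - dg b := by
    unfold dg
    ext i j
    rw [Matrix.sub_apply, Matrix.smul_apply, Matrix.diagonal_apply, Matrix.diagonal_apply,
      Matrix.one_apply]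
    split_ifs <;> simp
  rw [h2, Matrix.mul_sub, Matrix.sub_mul, ← hB, Matrix.mul_smul, Matrix.smul_mul,
    Matrix.mul_one, h1]

private lemma det_Du {n : ℕ} {Q : Matrix (Fin n) (Fin n) ℂ} (h1 : Q * Qᴴ = 1)
    (c : Fin n → ℝ) : (Q * dg c * Qᴴ).det = ∏ i, (c i : ℂ) := by
  have h2 : Q.det * Qᴴ.det = 1 := by
    rw [← Matrix.det_mul, h1, Matrix.det_one]
  rw [Matrix.det_mul, Matrix.det_mul]
  unfold dg
  rw [Matrix.det_diagonal]
  calc _ = (Q.det * Qᴴ.det) * ∏ i, (c i : ℂ) := by ring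
    _ = _ := by rw [h2, one_mul]

/-- The function after the substitution. -/
private noncomputable def Psi {n : ℕ} (Q : Matrix (Fin n) (Fin n) ℂ) (b : Fin n → ℝ)
    (g : ℝ → (Fin n → ℂ) → ENNReal) (u : ℝ) (w : Fin n → ℂ) : ENNReal :=
  ENNReal.ofReal (1 + ∑ i, ‖(Qᴴ.mulVec w) i‖ ^ 2 / (u - b i) ^ 2) *
    g (u - ∑ i, ‖(Qᴴ.mulVec w) i‖ ^ 2 / (u - b i)) w

private lemma mv_meas {n : ℕ} (Q : Matrix (Fin n) (Fin n) ℂ) (i : Fin n) :
    Measurable fun w : Fin n → ℂ => ‖(Qᴴ.mulVec w) i‖ ^ 2 := by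
  have : Continuous fun w : Fin n → ℂ => ‖(Qᴴ.mulVec w) i‖ ^ 2 := by
    have h : Continuous fun w : Fin n → ℂ => Qᴴ.mulVec w :=
      Continuous.matrix_mulVec continuous_const continuous_id
    exact ((continuous_apply i).comp h).norm.pow 2
  exact this.measurable

private lemma Psi_meas {n : ℕ} (Q : Matrix (Fin n) (Fin n) ℂ) (b : Fin n → ℝ)
    {g : ℝ → (Fin n → ℂ) → ENNReal} (hg : Measurable (Function.uncurry g)) :
    Measurable (Function.uncurry (Psi Q b g)) := by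
  unfold Psi Function.uncurry
  have h1 : ∀ i, Measurable fun p : ℝ × (Fin n → ℂ) => ‖(Qᴴ.mulVec p.2) i‖ ^ 2 :=
    fun i => (mv_meas Q i).comp measurable_snd
  have h2 : Measurable fun p : ℝ × (Fin n → ℂ) =>
      1 + ∑ i, ‖(Qᴴ.mulVec p.2) i‖ ^ 2 / (p.1 - b i) ^ 2 := by
    refine measurable_const.add (Finset.measurable_fun_sum _ fun i _ => ?_)
    exact (h1 i).div ((measurable_fst.sub_const _).pow_const 2)
  have h3 : Measurable fun p : ℝ × (Fin n → ℂ) =>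
      p.1 - ∑ i, ‖(Qᴴ.mulVec p.2) i‖ ^ 2 / (p.1 - b i) := by
    refine measurable_fst.sub (Finset.measurable_fun_sum _ fun i _ => ?_)
    exact (h1 i).div (measurable_fst.sub_const _)
  exact h2.ennreal_ofReal.mul (hg.comp (h3.prodMk measurable_snd))

private lemma inner_eq {n : ℕ} {Q : Matrix (Fin n) (Fin n) ℂ} {b : Fin n → ℝ}
    (h1 : Q * Qᴴ = 1) (h2 : Qᴴ * Q = 1) {g : ℝ → (Fin n → ℂ) → ENNReal}
    {u : ℝ} (hu : ∀ i, u ≠ b i) (z : Fin n → ℂ) :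
    Psi Q b g u ((Q * dg (fun i => u - b i) * Qᴴ).mulVec z) =
      g (u - (star z ⬝ᵥ ((Q * dg (fun i => u - b i) * Qᴴ).mulVec z)).re)
        ((Q * dg (fun i => u - b i) * Qᴴ).mulVec z) * ENNReal.ofReal (1 + nz z) := by
  have h3 : Qᴴ.mulVec ((Q * dg (fun i => u - b i) * Qᴴ).mulVec z) =
      fun i => ((u - b i : ℝ) : ℂ) * (Qᴴ.mulVec z) i := by
    rw [Matrix.mulVec_mulVec]
    have : Qᴴ * (Q * dg (fun i => u - b i) * Qᴴ) = dg (fun i => u - b i) * Qᴴ := by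
      rw [Matrix.mul_assoc, ← Matrix.mul_assoc, h2, Matrix.one_mul]
    rw [this, ← Matrix.mulVec_mulVec, dg_mulVec]
  have h4 : ∀ i, u - b i ≠ 0 := fun i => sub_ne_zero.2 (hu i)
  have h5 : ∀ i, ‖(Qᴴ.mulVec ((Q * dg (fun i => u - b i) * Qᴴ).mulVec z)) i‖ ^ 2 =
      (u - b i) ^ 2 * ‖(Qᴴ.mulVec z) i‖ ^ 2 := by
    intro i
    rw [h3]
    simp only
    rw [norm_mul, mul_pow, Complex.norm_real, Real.norm_eq_abs, sq_abs]
  unfold Psi
  simp only [h5]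
  have h6 : ∑ i, (u - b i) ^ 2 * ‖(Qᴴ.mulVec z) i‖ ^ 2 / (u - b i) ^ 2 = nz z := by
    rw [← nz_conj h1 z]
    unfold nz
    refine Finset.sum_congr rfl fun i _ => ?_
    rw [mul_comm, mul_div_assoc, div_self (pow_ne_zero 2 (h4 i)), mul_one]
  have h7 : ∑ i, (u - b i) ^ 2 * ‖(Qᴴ.mulVec z) i‖ ^ 2 / (u - b i) =
      (star z ⬝ᵥ ((Q * dg (fun i => u - b i) * Qᴴ).mulVec z)).re := by
    rw [quad, Complex.ofReal_re]
    refine Finset.sum_congr rfl fun i _ => ?_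
    have := h4 i
    field_simp
  rw [h6, h7, mul_comm]

private lemma left_eq {n : ℕ} {B Q : Matrix (Fin n) (Fin n) ℂ} {b : Fin n → ℝ}
    (h1 : Q * Qᴴ = 1) (h2 : Qᴴ * Q = 1) (hQ : B = Q * dg b * Qᴴ)
    {g : ℝ → (Fin n → ℂ) → ENNReal} (hg : Measurable (Function.uncurry g))
    {u : ℝ} (hu : ∀ i, u ≠ b i) :
    ∫⁻ z : Fin n → ℂ,
      g (u - (star z ⬝ᵥ (((u : ℂ) • (1 : Matrix (Fin n) (Fin n) ℂ) - B).mulVec z)).re)
        (((u : ℂ) • (1 : Matrix (Fin n) (Fin n) ℂ) - B).mulVec z) *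
      ENNReal.ofReal (‖((u : ℂ) • (1 : Matrix (Fin n) (Fin n) ℂ) - B).det‖ ^ 2 * (1 + nz z)) =
    ∫⁻ w : Fin n → ℂ, Psi Q b g u w := by
  rw [Du_eq h1 hQ u]
  have hdet : (Q * dg (fun i => u - b i) * Qᴴ).det ≠ 0 := by
    rw [det_Du h1]
    refine Finset.prod_ne_zero_iff.2 fun i _ => ?_
    exact_mod_cast sub_ne_zero.2 (hu i)
  have hm : Measurable (Psi Q b g u) := (Psi_meas Q b hg).of_uncurry_left
  refine Eq.trans ?_ (lin_sub hdet hm).symm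
  refine Eq.trans ?_ (lintegral_const_mul' _ _ ENNReal.ofReal_ne_top)
  refine lintegral_congr fun z => ?_
  refine Eq.trans ?_ (congrArg (fun t => ENNReal.ofReal
    (‖(Q * dg (fun i => u - b i) * Qᴴ).det‖ ^ 2) * t) (inner_eq h1 h2 hu z)).symm
  have hpos : 0 ≤ ‖(Q * dg (fun i => u - b i) * Qᴴ).det‖ ^ 2 := by positivity
  rw [ENNReal.ofReal_mul hpos]
  ring

private lemma right_le {n : ℕ} (Q : Matrix (Fin n) (Fin n) ℂ) (b : Fin n → ℝ)
    {g : ℝ → (Fin n → ℂ) → ENNReal} (hg : Measurable (Function.uncurry g))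
    (w : Fin n → ℂ) :
    ∫⁻ u in {u : ℝ | ∀ j, u ≠ b j}, Psi Q b g u w ≤ ((n : ENNReal) + 1) * ∫⁻ a : ℝ, g a w := by
  have hm : Measurable fun a => g a w := hg.of_uncurry_right
  exact rat_sub b (fun i => ‖(Qᴴ.mulVec w) i‖ ^ 2) (fun i => by positivity) hm

private lemma meas_left {n : ℕ} (B : Matrix (Fin n) (Fin n) ℂ)
    {g : ℝ → (Fin n → ℂ) → ENNReal} (hg : Measurable (Function.uncurry g)) :
    Measurable fun p : (Fin n → ℂ) × ℝ =>
      g (p.2 - (star p.1 ⬝ᵥ (((p.2 : ℂ) • (1 : Matrix (Fin n) (Fin n) ℂ) - B).mulVec p.1)).re)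
        (((p.2 : ℂ) • (1 : Matrix (Fin n) (Fin n) ℂ) - B).mulVec p.1) *
      ENNReal.ofReal (‖((p.2 : ℂ) • (1 : Matrix (Fin n) (Fin n) ℂ) - B).det‖ ^ 2 *
        (1 + nz p.1)) := by
  have hcont : Continuous fun p : (Fin n → ℂ) × ℝ =>
      ((p.2 : ℂ) • (1 : Matrix (Fin n) (Fin n) ℂ) - B) := by
    fun_prop
  have hcv : Continuous fun p : (Fin n → ℂ) × ℝ =>
      (((p.2 : ℂ) • (1 : Matrix (Fin n) (Fin n) ℂ) - B).mulVec p.1) :=
    Continuous.matrix_mulVec hcont continuous_fst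
  have hm1 : Measurable fun p : (Fin n → ℂ) × ℝ => p.2 -
      (star p.1 ⬝ᵥ (((p.2 : ℂ) • (1 : Matrix (Fin n) (Fin n) ℂ) - B).mulVec p.1)).re := by
    refine (continuous_snd.sub (Complex.continuous_re.comp ?_)).measurable
    exact Continuous.dotProduct (continuous_star.comp continuous_fst) hcv
  have hnz : Continuous fun z : Fin n → ℂ => nz z := by
    unfold nz
    fun_prop
  have hm2 : Measurable fun p : (Fin n → ℂ) × ℝ =>
      (‖((p.2 : ℂ) • (1 : Matrix (Fin n) (Fin n) ℂ) - B).det‖ ^ 2 * (1 + nz p.1)) := by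
    refine Continuous.measurable ?_
    exact ((Continuous.matrix_det hcont).norm.pow 2).mul
      (continuous_const.add (hnz.comp continuous_fst))
  exact (hg.comp (hm1.prodMk hcv.measurable)).mul hm2.ennreal_ofReal

private lemma U_facts {n : ℕ} (b : Fin n → ℝ) : MeasurableSet {u : ℝ | ∀ j, u ≠ b j} ∧
    (volume : Measure ℝ).restrict {u : ℝ | ∀ j, u ≠ b j} = volume := by
  have hUc : {u : ℝ | ∀ j, u ≠ b j}ᶜ = Set.range b := by
    ext u
    simp only [Set.mem_compl_iff, Set.mem_ofPred_eq, not_forall, not_not, Set.mem_range]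
    exact ⟨fun ⟨j, hj⟩ => ⟨j, hj.symm⟩, fun ⟨j, hj⟩ => ⟨j, hj.symm⟩⟩
  constructor
  · have : MeasurableSet {u : ℝ | ∀ j, u ≠ b j}ᶜ := by
      rw [hUc]
      exact (Set.finite_range b).measurableSet
    exact this.of_compl
  · refine Measure.restrict_eq_self_of_ae_mem ?_
    rw [ae_iff]
    have : {a | ¬ a ∈ {u : ℝ | ∀ j, u ≠ b j}} = Set.range b := hUc
    rw [this]
    exact (Set.finite_range b).measure_zero _

theorem stepA {n : ℕ} {B : Matrix (Fin n) (Fin n) ℂ} (hB : B.IsHermitian)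
    {g : ℝ → (Fin n → ℂ) → ENNReal} (hg : Measurable (Function.uncurry g)) :
    ∫⁻ z : Fin n → ℂ, ∫⁻ u : ℝ,
      g (u - (star z ⬝ᵥ (((u : ℂ) • (1 : Matrix (Fin n) (Fin n) ℂ) - B).mulVec z)).re)
        (((u : ℂ) • (1 : Matrix (Fin n) (Fin n) ℂ) - B).mulVec z) *
      ENNReal.ofReal (‖((u : ℂ) • (1 : Matrix (Fin n) (Fin n) ℂ) - B).det‖ ^ 2 * (1 + nz z)) ≤
    ((n : ENNReal) + 1) * ∫⁻ w : Fin n → ℂ, ∫⁻ a : ℝ, g a w := by
  obtain ⟨Q, b, h1, h2, hQ⟩ := spec hB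
  obtain ⟨hUm, hrest⟩ := U_facts b
  have hP := Psi_meas Q b hg
  rw [lintegral_lintegral_swap (meas_left B hg).aemeasurable, ← hrest,
    setLIntegral_congr_fun hUm (fun u hu => left_eq h1 h2 hQ hg hu),
    lintegral_lintegral_swap hP.aemeasurable,
    ← lintegral_const_mul' _ _ (by simp : ((n : ENNReal) + 1) ≠ ⊤)]
  refine lintegral_mono fun w => ?_
  have := right_le Q b hg w
  rw [hrest] at this ⊢
  exact this

end Pool.Agent.MPbd65ca.Hm
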