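import Pool.Agent.Lib.MP_bd65ca_an_S.FinS
import Pool.Agent.Lib.MP_bd65ca_an_H.FinH

/-!
# New Turán domains: the definitions of the statement
-/

open MeasureTheory
open Pool.Agent.MPbd65ca Pool.Agent.MPbd65ca.Bp Pool.Agent.MPbd65ca.Sp

namespace Pool.Agent.MPbd65ca.Hm

/-- `K` is a symmetric convex body with `I(K) = 2 ^ n / |K|`. -/
def TuranDomain {n : ℕ} (K : Set (E n)) : Prop :=
  IsBody K ∧ turan K = 2 ^ n / volume.real K

/-- Every linear image of `K` is a symmetric convex body with `I = 2 ^ n / volume`. -/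
def AllImages {n : ℕ} (K : Set (E n)) : Prop :=
  ∀ A : E n ≃L[ℝ] E n, TuranDomain (A '' K)

/-- The factor with the index `j` of the value for the Hermitian matrices. -/
noncomputable def hterm (j : ℕ) : ℝ :=
  (2 * j).factorial * (2 * j + 1).factorial / ((2 * Real.pi) ^ j * (j.factorial : ℝ) ^ 3)

/-- The value for the Hermitian matrices of order `m`. -/
noncomputable def hval (m : ℕ) : ℝ := ∏ j ∈ Finset.range m, hterm j

end Pool.Agent.MPbd65ca.Hm
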