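import Pool.Agent.Lib.MP_bd65ca_an_H.One
import Pool.Agent.Lib.MP_bd65ca_an_H.AvL

/-!
# The inequality T(m)

PROOF. Induction on `m` (for all `M`, `g`; `j` fixed).  `m = 0`: `one_lam` for `t ↦ g (Fin.cons t
0)`
(`Av_cons`, `Av_zero`, `TPn_head`).
Step `m → m + 1` (`g` on `Fin (m + 2)`, `M + (m + 1) ≤ 2 N - 1`): for fixed `t` apply the induction
hypothesis to `g_t v = g (Fin.cons t v) * ∏ i, wz (t - v i)` on `Fin (m + 1)`, degree `M + 1` in
every variable (`TP_mul`, `TP_wz`; the other factors do not depend on the variable), symmetric,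
nonnegative:
`h t := Av L (m + 1) (fun v => g (cons t v) * (∏ i, wz (t - v i)) * (∏ i, wz (v i) ^ j) * Dd v)
  - (m + 1) * lamN N j * wz t *
    Av L m (fun y => g (cons t (cons 0 y)) * (∏ i, wz (t - y i)) * (∏ i, wz (y i) ^ (j + 1)) * Dd
  y) ≥ 0`
(`g_t (cons 0 y) = g (cons t (cons 0 y)) * wz (t - 0) * ∏ wz (t - y i)`, `Dd_cons` is not needed
here).
`h` is `TP (M + (m + 1))`: the first part has degree `M + (m + 1)` in `t`, the second `M + 1 + m`
(`TP_Av`, `TP_mul`, `TP_prod`, `TP.add`, `constMul`).  `one_lam` for `h` (`TP_mono`):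
`lamN N j * h 0 ≤ (1 / L) ∑ l, wz (u_l) ^ j * h (u_l)`.
`h 0 = J := Av L (m + 1) (fun v => g (cons 0 v) * (∏ i, wz (v i) ^ (j + 1)) * Dd v)` (`wz_zero`,
`wz_neg`), and the right side is, by `Av_cons`, `Dd_cons`,
`Av L (m + 2) (fun u => g u * (∏ i, wz (u i) ^ j) * Dd u) - (m + 1) * lamN N j * J`, since
`wz t ^ j * wz t * g (cons t (cons 0 y)) * ∏ wz (t - y i) * ∏ wz (y i) ^ (j + 1) * Dd y
  = g (cons 0 (cons t y)) * (∏ over cons t y of wz ^ (j + 1)) * Dd (cons t y)` (`Sy_swap`,
  `Dd_cons`).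
-/

open MeasureTheory FourierTransform Pointwise Set Finset Matrix
open scoped RealInnerProductSpace

namespace Pool.Agent.MPbd65ca.Hm

open Pool.Agent.MPbd65ca.Oct Pool.Agent.MPbd65ca.Bp

private theorem Tm_cmul {M : ℕ} {f : ℝ → ℝ} (hf : TP M f) (c : ℝ) :
    TP M (fun u => f u * c) := by
  have h := TP_mul hf (TP.const 0 c)
  simpa using h

private theorem Tm_prod1 {m : ℕ} (u v : ℝ) (y : Fin m → ℝ) (k : ℕ) :
    ∏ i, wz ((Fin.cons v y : Fin (m + 1) → ℝ) i) ^ k = wz v ^ k * ∏ i, wz (y i) ^ k ∧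
      ∏ i, wz (u - (Fin.cons v y : Fin (m + 1) → ℝ) i) = wz (u - v) * ∏ i, wz (u - y i) := by
  constructor
  · rw [Fin.prod_univ_succ, Fin.cons_zero]
    simp only [Fin.cons_succ]
  · rw [Fin.prod_univ_succ, Fin.cons_zero]
    simp only [Fin.cons_succ]

/-- The function to which the induction hypothesis is applied. -/
private theorem Tm_gt {m M : ℕ} {g : (Fin (m + 2) → ℝ) → ℝ} (h0 : ∀ u, 0 ≤ g u)
    (hT : TPn M g) (hS : Sy g) (t : ℝ) :
    (∀ v, 0 ≤ (fun v : Fin (m + 1) → ℝ => g (Fin.cons t v) * ∏ i, wz (t - v i)) v) ∧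
      TPn (M + 1) (fun v : Fin (m + 1) → ℝ => g (Fin.cons t v) * ∏ i, wz (t - v i)) ∧
      Sy (fun v : Fin (m + 1) → ℝ => g (Fin.cons t v) * ∏ i, wz (t - v i)) := by
  refine ⟨fun v => mul_nonneg (h0 _) (Finset.prod_nonneg fun i _ => wz_nonneg _), ?_, ?_⟩
  · intro u i
    have h1 := TPn_cons hT t u i
    have h2 : TP 1 (fun s => ∏ k, wz (t - Function.update u i s k)) := by
      have h3 : (fun s => ∏ k, wz (t - Function.update u i s k)) =
          fun s => wz (t - s) * ∏ k ∈ Finset.univ.erase i, wz (t - u k) := by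
        funext s
        rw [← Finset.mul_prod_erase Finset.univ _ (Finset.mem_univ i), Function.update_self]
        congr 1
        refine Finset.prod_congr rfl fun k hk => ?_
        rw [Function.update_of_ne (Finset.ne_of_mem_erase hk)]
      rw [h3]
      exact Tm_cmul (TP_wz t).2 _
    exact TP_mul h1 h2
  · intro σ u
    have h1 := Sy_cons hS t σ u
    have h2 : ∏ i, wz (t - u (σ i)) = ∏ i, wz (t - u i) :=
      Equiv.prod_comp σ fun i => wz (t - u i)
    simp only at h1 ⊢
    rw [h1, h2]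

theorem Tm {N L j : ℕ} (hN : 0 < N) (hL : 2 * N + j ≤ L) (m : ℕ) : ∀ {M : ℕ},
    M + m ≤ 2 * N - 1 → ∀ {g : (Fin (m + 1) → ℝ) → ℝ}, (∀ u, 0 ≤ g u) → TPn M g → Sy g →
      (m + 1) * lamN N j *
        Av L m (fun v => g (Fin.cons 0 v) * (∏ i, wz (v i) ^ (j + 1)) * Dd v) ≤
      Av L (m + 1) (fun u => g u * (∏ i, wz (u i) ^ j) * Dd u) := by
  induction m with
  | zero =>
    intro M hM g h0 hT hS
    have h1 := one_lam hN hL (TP_mono (by omega) (TPn_head hT 0)) (fun u => h0 _)
    have hD : ∀ v : Fin 0 → ℝ, Dd v = 1 := fun v => by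
      unfold Dd
      simp
    rw [Av_zero, Av_cons]
    simp only [Av_zero]
    have e1 : ∀ t : ℝ, g (Fin.cons t 0) *
        (∏ i, wz ((Fin.cons t (0 : Fin 0 → ℝ) : Fin (0 + 1) → ℝ) i) ^ j) *
        Dd (Fin.cons t (0 : Fin 0 → ℝ) : Fin (0 + 1) → ℝ) = wz t ^ j * g (Fin.cons t 0) := by
      intro t
      rw [Dd_cons, (Tm_prod1 0 t (0 : Fin 0 → ℝ) j).1, hD]
      simp only [Finset.univ_eq_empty, Finset.prod_empty, mul_one]
      ring
    simp only [e1, hD, Finset.univ_eq_empty, Finset.prod_empty, mul_one]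
    simp only [Nat.cast_zero, zero_add, one_mul]
    exact h1
  | succ m ih =>
    intro M hM g h0 hT hS
    set A : ℝ → ℝ := fun t => Av L (m + 1) (fun v => g (Fin.cons t v) *
      (∏ i, wz (t - v i)) * (∏ i, wz (v i) ^ j) * Dd v) with hA
    set B : ℝ → ℝ := fun t => Av L m (fun y => g (Fin.cons t (Fin.cons 0 y)) *
      (∏ i, wz (t - y i)) * (∏ i, wz (y i) ^ (j + 1)) * Dd y) with hB
    set J : ℝ := Av L (m + 1) (fun v => g (Fin.cons 0 v) * (∏ i, wz (v i) ^ (j + 1)) * Dd v)
      with hJ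
    have hh0 : ∀ t, 0 ≤ A t + (wz t * B t) * (-((m + 1) * lamN N j)) := by
      intro t
      obtain ⟨g1, g2, g3⟩ := Tm_gt h0 hT hS t
      have h1 := ih (M := M + 1) (by omega) g1 g2 g3
      have h2 : Av L m (fun v => (fun v : Fin (m + 1) → ℝ => g (Fin.cons t v) *
          ∏ i, wz (t - v i)) (Fin.cons 0 v) * (∏ i, wz (v i) ^ (j + 1)) * Dd v) =
          wz t * B t := by
        rw [hB]
        simp only
        rw [← Av_smul]
        congr 1
        funext y
        rw [(Tm_prod1 t 0 y 0).2, sub_zero]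
        ring
      rw [h2] at h1
      have h3 : Av L (m + 1) (fun u => (fun v : Fin (m + 1) → ℝ => g (Fin.cons t v) *
          ∏ i, wz (t - v i)) u * (∏ i, wz (u i) ^ j) * Dd u) = A t := rfl
      rw [h3] at h1
      linarith
    have hTA : TP (M + (m + 1)) A := by
      rw [hA]
      refine TP_Av fun v => ?_
      have h1 := TP_mul (TPn_head hT v) (TP_prod (Finset.univ : Finset (Fin (m + 1)))
        (M := 1) (f := fun i t => wz (t - v i)) fun i _ => (TP_wz (v i)).1)
      rw [Finset.card_univ, Fintype.card_fin, mul_one] at h1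
      exact Tm_cmul (Tm_cmul h1 _) _
    have hTB : TP (M + m) B := by
      rw [hB]
      refine TP_Av fun y => ?_
      have h1 := TP_mul (TPn_head hT (Fin.cons 0 y)) (TP_prod (Finset.univ : Finset (Fin m))
        (M := 1) (f := fun i t => wz (t - y i)) fun i _ => (TP_wz (y i)).1)
      rw [Finset.card_univ, Fintype.card_fin, mul_one] at h1
      exact Tm_cmul (Tm_cmul h1 _) _
    have hTw : TP 1 wz := by
      have h1 := (TP_wz 0).1
      simpa using h1
    have hTh : TP (2 * N - 1) (fun t => A t + (wz t * B t) * (-((m + 1) * lamN N j))) := by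
      refine TP_mono (M := M + (m + 1)) (by omega) (TP.add hTA ?_)
      exact Tm_cmul (TP_mono (by omega) (TP_mul hTw hTB)) _
    have h1 := one_lam hN hL hTh hh0
    have hA0 : A 0 = J := by
      rw [hA, hJ]
      simp only
      congr 1
      funext v
      have e1 : ∏ i, wz (0 - v i) = ∏ i, wz (v i) :=
        Finset.prod_congr rfl fun i _ => by rw [zero_sub, wz_neg]
      have e2 : ∏ i, wz (v i) ^ (j + 1) = (∏ i, wz (v i)) * ∏ i, wz (v i) ^ j := by
        rw [← Finset.prod_mul_distrib]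
        exact Finset.prod_congr rfl fun i _ => pow_succ' _ _
      rw [e1, e2]
      ring
    simp only [hA0, wz_zero, zero_mul, add_zero] at h1
    have hI : Av L (m + 1 + 1) (fun u => g u * (∏ i, wz (u i) ^ j) * Dd u) =
        1 / (L : ℝ) * ∑ l ∈ range L, wz (2 * Real.pi * l / L) ^ j *
          A (2 * Real.pi * l / L) := by
      rw [Av_cons]
      congr 1
      refine Finset.sum_congr rfl fun l _ => ?_
      rw [hA]
      simp only
      rw [← Av_smul]
      congr 1
      funext v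
      rw [Dd_cons, (Tm_prod1 0 _ v j).1]
      ring
    have hJ2 : J = 1 / (L : ℝ) * ∑ l ∈ range L, wz (2 * Real.pi * l / L) ^ j *
        (wz (2 * Real.pi * l / L) * B (2 * Real.pi * l / L)) := by
      rw [hJ, Av_cons]
      congr 1
      refine Finset.sum_congr rfl fun l _ => ?_
      rw [hB]
      simp only
      rw [← mul_assoc, ← Av_smul]
      congr 1
      funext y
      rw [Dd_cons, (Tm_prod1 0 _ y (j + 1)).1, Sy_swap hS]
      ring
    have h2 : 1 / (L : ℝ) * ∑ l ∈ range L, wz (2 * Real.pi * l / L) ^ j *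
        (A (2 * Real.pi * l / L) + wz (2 * Real.pi * l / L) * B (2 * Real.pi * l / L) *
          -((m + 1) * lamN N j)) =
        Av L (m + 1 + 1) (fun u => g u * (∏ i, wz (u i) ^ j) * Dd u) -
          (m + 1) * lamN N j * J := by
      rw [hI, hJ2]
      have e1 : ∀ l : ℕ, wz (2 * Real.pi * l / L) ^ j *
          (A (2 * Real.pi * l / L) + wz (2 * Real.pi * l / L) * B (2 * Real.pi * l / L) *
            -((m + 1) * lamN N j)) =
          wz (2 * Real.pi * l / L) ^ j * A (2 * Real.pi * l / L) -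
            ((m + 1) * lamN N j) * (wz (2 * Real.pi * l / L) ^ j *
              (wz (2 * Real.pi * l / L) * B (2 * Real.pi * l / L))) := fun l => by ring
      simp only [e1]
      rw [Finset.sum_sub_distrib, ← Finset.mul_sum]
      ring
    rw [h2] at h1
    push_cast
    linarith

end Pool.Agent.MPbd65ca.Hm
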