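import Pool.Agent.Lib.MP_bd65ca_an_H.HL
import Pool.Agent.Lib.MP_bd65ca_an_H.AvL

/-!
# The unitary matrix `Wz`

Let `s = sz z`, so `s ^ 2 = 1 + z* z`, `s ≥ 1`.

PROOF. With `P = vecMulVec z (star z)`: `P * P = (z* z) P`, `V = 1 - P / (s (s + 1))`, so
`V * V = 1 - P / s ^ 2` (use `z* z = s ^ 2 - 1`), `V z = z / s`.  `Vz_det`: `det (1 - α z z*) = 1
- α z* z`
(`Matrix.det_one_add_replicateCol_mul_replicateRow` or `det_one_sub_mul_comm`),
`1 - (s ^ 2 - 1) / (s (s + 1)) = 1 / s`.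
`Wz_unitary`: compute `Wz * Wzᴴ` blockwise: `1 / s ^ 2 + z* z / s ^ 2 = 1`, `z* / s ^ 2 - z* V / s
= 0`,
`z z* / s ^ 2 + V V = 1` (`Fin.sum_univ_succ`, `Fin.cases` on the indices).
`Wz_conj`: with `B = u + V (C - u) V`: `cj (Wz z) (bord u 0 C)` has the entries
`u / s^2 + z* C z / s^2`, `u z / s^2 - V C z / s`, `u z z* / s^2 + V C V`, and
`u - z* (u - B) z`, `(u - B) z`, `B` are the same, since `u - B = V (u - C) V`, `V z = z / s`,
`V V = 1 - z z* / s^2`; `z* C z` is real as `C` is Hermitian.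
`Wz_det`: `u - B = V (u - C) V`, `det V = 1 / s`.
`bord_diag`: block computation; `oneW W' = bord 1 0 W'`-type matrix is unitary.
-/

open MeasureTheory FourierTransform Pointwise Set Finset Matrix
open scoped RealInnerProductSpace

namespace Pool.Agent.MPbd65ca.Hm

open Pool.Agent.MPbd65ca.Oct Pool.Agent.MPbd65ca.Bp

variable {n : ℕ}

private def blk (a : ℂ) (r c : Fin n → ℂ) (M : Matrix (Fin n) (Fin n) ℂ) :
    Matrix (Fin (n + 1)) (Fin (n + 1)) ℂ :=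
  Matrix.of (Fin.cons (Fin.cons a r) fun i => Fin.cons (c i) (M i))

private theorem blk00 (a : ℂ) (r c : Fin n → ℂ) (M : Matrix (Fin n) (Fin n) ℂ) :
    blk a r c M 0 0 = a := rfl

private theorem blk0s (a : ℂ) (r c : Fin n → ℂ) (M : Matrix (Fin n) (Fin n) ℂ) (j : Fin n) :
    blk a r c M 0 j.succ = r j := rfl

private theorem blks0 (a : ℂ) (r c : Fin n → ℂ) (M : Matrix (Fin n) (Fin n) ℂ) (i : Fin n) :
    blk a r c M i.succ 0 = c i := rfl

private theorem blkss (a : ℂ) (r c : Fin n → ℂ) (M : Matrix (Fin n) (Fin n) ℂ) (i j : Fin n) :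
    blk a r c M i.succ j.succ = M i j := rfl

private theorem blk_ext {A : Matrix (Fin (n + 1)) (Fin (n + 1)) ℂ} {a : ℂ} {r c : Fin n → ℂ}
    {M : Matrix (Fin n) (Fin n) ℂ} (h1 : A 0 0 = a) (h2 : ∀ j, A 0 j.succ = r j)
    (h3 : ∀ i, A i.succ 0 = c i) (h4 : ∀ i j, A i.succ j.succ = M i j) : A = blk a r c M := by
  ext i j
  refine Fin.cases ?_ (fun i => ?_) i
  · refine Fin.cases ?_ (fun j => ?_) j
    · exact h1
    · exact h2 j
  · refine Fin.cases ?_ (fun j => ?_) j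
    · exact h3 i
    · exact h4 i j

private theorem blk_mul (a a' : ℂ) (r c r' c' : Fin n → ℂ) (M M' : Matrix (Fin n) (Fin n) ℂ) :
    blk a r c M * blk a' r' c' M' =
      blk (a * a' + r ⬝ᵥ c') (a • r' + Matrix.vecMul r M') (a' • c + M.mulVec c')
        (Matrix.vecMulVec c r' + M * M') := by
  refine blk_ext ?_ (fun j => ?_) (fun i => ?_) (fun i j => ?_)
  · rw [Matrix.mul_apply, Fin.sum_univ_succ]
    rfl
  · rw [Matrix.mul_apply, Fin.sum_univ_succ]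
    rfl
  · rw [Matrix.mul_apply, Fin.sum_univ_succ]
    rw [Pi.add_apply, Pi.smul_apply, smul_eq_mul, mul_comm a']
    rfl
  · rw [Matrix.mul_apply, Fin.sum_univ_succ, Matrix.add_apply, Matrix.mul_apply]
    rfl

private theorem blk_star (a : ℂ) (r c : Fin n → ℂ) (M : Matrix (Fin n) (Fin n) ℂ) :
    (blk a r c M)ᴴ = blk (star a) (star c) (star r) Mᴴ := by
  refine blk_ext ?_ (fun j => ?_) (fun i => ?_) (fun i j => ?_) <;> rfl

private theorem blk_one : (1 : Matrix (Fin (n + 1)) (Fin (n + 1)) ℂ) = blk 1 0 0 1 := by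
  refine blk_ext ?_ (fun j => ?_) (fun i => ?_) (fun i j => ?_)
  · exact Matrix.one_apply_eq 0
  · exact Matrix.one_apply_ne (Fin.succ_ne_zero j).symm
  · exact Matrix.one_apply_ne (Fin.succ_ne_zero i)
  · by_cases h : i = j
    · subst h
      rw [Matrix.one_apply_eq, Matrix.one_apply_eq]
    · rw [Matrix.one_apply_ne h, Matrix.one_apply_ne (fun h' => h (Fin.succ_injective _ h'))]

private theorem blk_dg (u : ℝ) (v : Fin n → ℝ) :
    dg (Fin.cons u v : Fin (n + 1) → ℝ) = blk (u : ℂ) 0 0 (dg v) := by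
  unfold dg
  refine blk_ext ?_ (fun j => ?_) (fun i => ?_) (fun i j => ?_)
  · rw [Matrix.diagonal_apply_eq, Fin.cons_zero]
  · exact Matrix.diagonal_apply_ne _ (Fin.succ_ne_zero j).symm
  · exact Matrix.diagonal_apply_ne _ (Fin.succ_ne_zero i)
  · by_cases h : i = j
    · subst h
      rw [Matrix.diagonal_apply_eq, Matrix.diagonal_apply_eq, Fin.cons_succ]
    · rw [Matrix.diagonal_apply_ne _ h,
        Matrix.diagonal_apply_ne _ (fun h' => h (Fin.succ_injective _ h'))]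

private theorem bord_blk (a : ℝ) (w : Fin n → ℂ) (B : MM n) :
    Matrix.of (bord a w B) = blk (a : ℂ) (star w) w B := rfl

private theorem nz_eq (z : Fin n → ℂ) : star z ⬝ᵥ z = ((nz z : ℝ) : ℂ) := by
  unfold nz dotProduct
  rw [Complex.ofReal_sum]
  refine Finset.sum_congr rfl fun i _ => ?_
  change (starRingEnd ℂ) (z i) * z i = _
  rw [mul_comm, Complex.mul_conj, Complex.normSq_eq_norm_sq]

theorem sz_sq (z : Fin n → ℂ) : sz z ^ 2 = 1 + nz z ∧ 1 ≤ sz z := by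
  have h : 0 ≤ nz z := Finset.sum_nonneg fun i _ => sq_nonneg _
  unfold sz
  refine ⟨Real.sq_sqrt (by linarith), ?_⟩
  rw [Real.one_le_sqrt]
  linarith

private theorem sz_pos (z : Fin n → ℂ) : 0 < sz z := lt_of_lt_of_le one_pos (sz_sq z).2

private theorem szc (z : Fin n → ℂ) : ((sz z : ℝ) : ℂ) ≠ 0 :=
  Complex.ofReal_ne_zero.2 (sz_pos z).ne'

private theorem szc1 (z : Fin n → ℂ) : ((sz z : ℝ) : ℂ) + 1 ≠ 0 := by
  have h := sz_pos z
  have h1 : ((sz z + 1 : ℝ) : ℂ) ≠ 0 := Complex.ofReal_ne_zero.2 (by linarith)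
  rwa [Complex.ofReal_add, Complex.ofReal_one] at h1

private theorem zz (z : Fin n → ℂ) : star z ⬝ᵥ z = ((sz z : ℝ) : ℂ) ^ 2 - 1 := by
  rw [nz_eq, ← Complex.ofReal_pow, (sz_sq z).1]
  push_cast
  ring

private theorem star_sz (z : Fin n → ℂ) : star ((sz z : ℝ) : ℂ) = ((sz z : ℝ) : ℂ) :=
  Complex.conj_ofReal _

private theorem Vz_eq (z : Fin n → ℂ) : Vz z =
    1 - (1 / (((sz z : ℝ) : ℂ) * (((sz z : ℝ) : ℂ) + 1))) • Matrix.vecMulVec z (star z) := by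
  unfold Vz
  push_cast
  rfl

theorem Vz_herm (z : Fin n → ℂ) : (Vz z).IsHermitian := by
  unfold Vz Matrix.IsHermitian
  rw [Matrix.conjTranspose_sub, Matrix.conjTranspose_one, Matrix.conjTranspose_smul,
    Matrix.conjTranspose_vecMulVec, star_star]
  have h : star (((1 / (sz z * (sz z + 1)) : ℝ) : ℂ)) = ((1 / (sz z * (sz z + 1)) : ℝ) : ℂ) :=
    Complex.conj_ofReal _
  rw [h]

theorem Vz_det (z : Fin n → ℂ) : (Vz z).det = ((1 / sz z : ℝ) : ℂ) := by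
  have h0 := szc z
  have h1 := szc1 z
  have h2 : Vz z = 1 + Matrix.replicateCol Unit
      ((-(1 / (((sz z : ℝ) : ℂ) * (((sz z : ℝ) : ℂ) + 1)))) • z) *
        Matrix.replicateRow Unit (star z) := by
    rw [← Matrix.vecMulVec_eq, Matrix.smul_vecMulVec, neg_smul, ← sub_eq_add_neg, Vz_eq]
  rw [h2, Matrix.det_one_add_replicateCol_mul_replicateRow, dotProduct_smul, zz]
  push_cast
  rw [smul_eq_mul]
  field_simp
  ring

private theorem Vz_mulVec (z : Fin n → ℂ) :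
    (Vz z).mulVec z = (1 / ((sz z : ℝ) : ℂ)) • z := by
  have h0 := szc z
  have h1 := szc1 z
  have h3 : (Matrix.vecMulVec z (star z)).mulVec z = (((sz z : ℝ) : ℂ) ^ 2 - 1) • z := by
    rw [Matrix.vecMulVec_mulVec, zz]
    ext i
    simp [mul_comm]
  rw [Vz_eq, Matrix.sub_mulVec, Matrix.one_mulVec, Matrix.smul_mulVec, h3, smul_smul]
  have h4 : z - (1 / (((sz z : ℝ) : ℂ) * (((sz z : ℝ) : ℂ) + 1)) *
      (((sz z : ℝ) : ℂ) ^ 2 - 1)) • z = (1 - 1 / (((sz z : ℝ) : ℂ) * (((sz z : ℝ) : ℂ) + 1)) *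
      (((sz z : ℝ) : ℂ) ^ 2 - 1)) • z := by
    rw [sub_smul, one_smul]
  rw [h4]
  have h5 : 1 - 1 / (((sz z : ℝ) : ℂ) * (((sz z : ℝ) : ℂ) + 1)) *
      (((sz z : ℝ) : ℂ) ^ 2 - 1) = 1 / ((sz z : ℝ) : ℂ) := by
    field_simp
    ring
  rw [h5]

private theorem Vz_vecMul (z : Fin n → ℂ) :
    Matrix.vecMul (star z) (Vz z) = (1 / ((sz z : ℝ) : ℂ)) • star z := by
  have h := Matrix.star_mulVec (Vz z) z
  rw [Vz_mulVec, (Vz_herm z).eq, star_smul] at h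
  rw [← h, star_div₀, star_one, star_sz]

private theorem Vz_sq (z : Fin n → ℂ) :
    Vz z * Vz z = 1 - (1 / ((sz z : ℝ) : ℂ) ^ 2) • Matrix.vecMulVec z (star z) := by
  have h0 := szc z
  have h1 := szc1 z
  have h2 : Vz z * Vz z = Vz z - (1 / (((sz z : ℝ) : ℂ) * (((sz z : ℝ) : ℂ) + 1))) •
      Matrix.vecMulVec ((Vz z).mulVec z) (star z) := by
    conv_lhs => rw [Vz_eq z]
    rw [← Vz_eq z]
    have h3 : Vz z * (1 - (1 / (((sz z : ℝ) : ℂ) * (((sz z : ℝ) : ℂ) + 1))) •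
        Matrix.vecMulVec z (star z)) = Vz z - (1 / (((sz z : ℝ) : ℂ) * (((sz z : ℝ) : ℂ) + 1))) •
      Matrix.vecMulVec ((Vz z).mulVec z) (star z) := by
      rw [Matrix.mul_sub, Matrix.mul_one, Matrix.mul_smul, Matrix.mul_vecMulVec]
    rw [← Vz_eq z] at h3
    exact h3
  rw [h2, Vz_mulVec, Matrix.smul_vecMulVec, smul_smul]
  conv_lhs => rw [Vz_eq z]
  rw [sub_sub, ← add_smul]
  have h5 : 1 / (((sz z : ℝ) : ℂ) * (((sz z : ℝ) : ℂ) + 1)) +
      1 / (((sz z : ℝ) : ℂ) * (((sz z : ℝ) : ℂ) + 1)) * (1 / ((sz z : ℝ) : ℂ)) =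
      1 / ((sz z : ℝ) : ℂ) ^ 2 := by
    field_simp
  rw [h5]

private theorem Wz_blk (z : Fin n → ℂ) : Wz z = blk (1 / ((sz z : ℝ) : ℂ))
    (-((1 / ((sz z : ℝ) : ℂ)) • star z)) ((1 / ((sz z : ℝ) : ℂ)) • z) (Vz z) := by
  unfold Wz
  refine blk_ext ?_ (fun j => ?_) (fun i => ?_) (fun i j => ?_)
  · change ((1 / sz z : ℝ) : ℂ) = _
    push_cast
    rfl
  · change -(star (z j) / ((sz z : ℝ) : ℂ)) = -((1 / ((sz z : ℝ) : ℂ)) * star (z j))
    ring
  · change z i / ((sz z : ℝ) : ℂ) = (1 / ((sz z : ℝ) : ℂ)) * z i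
    ring
  · rfl

private theorem Wz_star (z : Fin n → ℂ) : (Wz z)ᴴ = blk (1 / ((sz z : ℝ) : ℂ))
    ((1 / ((sz z : ℝ) : ℂ)) • star z) (-((1 / ((sz z : ℝ) : ℂ)) • z)) (Vz z) := by
  have hs : star (1 / ((sz z : ℝ) : ℂ)) = 1 / ((sz z : ℝ) : ℂ) := by
    rw [star_div₀, star_one, star_sz]
  rw [Wz_blk, blk_star, (Vz_herm z).eq, star_neg, star_smul, star_smul, star_star, hs]

theorem Wz_unitary (z : Fin n → ℂ) : Wz z ∈ Matrix.unitaryGroup (Fin (n + 1)) ℂ := by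
  have h0 := szc z
  rw [Matrix.mem_unitaryGroup_iff]
  change Wz z * (Wz z)ᴴ = 1
  rw [Wz_star, Wz_blk, blk_mul, blk_one]
  have e1 : 1 / ((sz z : ℝ) : ℂ) * (1 / ((sz z : ℝ) : ℂ)) +
      (-((1 / ((sz z : ℝ) : ℂ)) • star z)) ⬝ᵥ (-((1 / ((sz z : ℝ) : ℂ)) • z)) = 1 := by
    rw [neg_dotProduct, dotProduct_neg, neg_neg, smul_dotProduct, dotProduct_smul, zz,
      smul_eq_mul, smul_eq_mul]
    field_simp
    ring
  have e2 : (1 / ((sz z : ℝ) : ℂ)) • ((1 / ((sz z : ℝ) : ℂ)) • star z) +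
      Matrix.vecMul (-((1 / ((sz z : ℝ) : ℂ)) • star z)) (Vz z) = 0 := by
    rw [Matrix.neg_vecMul, Matrix.smul_vecMul, Vz_vecMul, add_neg_cancel]
  have e3 : (1 / ((sz z : ℝ) : ℂ)) • ((1 / ((sz z : ℝ) : ℂ)) • z) +
      (Vz z).mulVec (-((1 / ((sz z : ℝ) : ℂ)) • z)) = 0 := by
    rw [Matrix.mulVec_neg, Matrix.mulVec_smul, Vz_mulVec, add_neg_cancel]
  have e4 : Matrix.vecMulVec ((1 / ((sz z : ℝ) : ℂ)) • z) ((1 / ((sz z : ℝ) : ℂ)) • star z) +
      Vz z * Vz z = 1 := by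
    rw [Vz_sq, Matrix.smul_vecMulVec, Matrix.vecMulVec_smul, smul_smul]
    have h5 : 1 / ((sz z : ℝ) : ℂ) * (1 / ((sz z : ℝ) : ℂ)) = 1 / ((sz z : ℝ) : ℂ) ^ 2 := by
      field_simp
    rw [h5]
    abel
  rw [e1, e2, e3, e4]

/-- The matrix `B` given by `C`. -/
noncomputable def BC (z : Fin n → ℂ) (u : ℝ) (C : Matrix (Fin n) (Fin n) ℂ) :
    Matrix (Fin n) (Fin n) ℂ :=
  (u : ℂ) • (1 : Matrix (Fin n) (Fin n) ℂ) + Vz z * (C - (u : ℂ) • 1) * Vz z

private theorem BC_sub (z : Fin n → ℂ) (u : ℝ) (C : Matrix (Fin n) (Fin n) ℂ) :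
    (u : ℂ) • (1 : Matrix (Fin n) (Fin n) ℂ) - BC z u C =
      Vz z * ((u : ℂ) • 1 - C) * Vz z := by
  unfold BC
  rw [← neg_sub C, Matrix.mul_neg, Matrix.neg_mul]
  abel

private theorem BC_eq (z : Fin n → ℂ) (u : ℝ) (C : Matrix (Fin n) (Fin n) ℂ) :
    BC z u C = ((u : ℂ) * (1 / ((sz z : ℝ) : ℂ) ^ 2)) • Matrix.vecMulVec z (star z) +
      Vz z * C * Vz z := by
  unfold BC
  rw [Matrix.mul_sub, Matrix.sub_mul, Matrix.mul_smul, Matrix.mul_one, Matrix.smul_mul, Vz_sq,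
    smul_sub, smul_smul]
  abel

theorem Wz_conj (z : Fin n → ℂ) (u : ℝ) {C : Matrix (Fin n) (Fin n) ℂ} (hC : C.IsHermitian) :
    cj (Wz z) (Matrix.of (bord u 0 C)) =
      bord (u - (star z ⬝ᵥ (((u : ℂ) • (1 : Matrix (Fin n) (Fin n) ℂ) - BC z u C).mulVec z)).re)
        (((u : ℂ) • (1 : Matrix (Fin n) (Fin n) ℂ) - BC z u C).mulVec z) (BC z u C) := by
  have h0 := szc z
  have hV := Vz_herm z
  have hH : (BC z u C).IsHermitian := by
    have h1 : (Vz z * C * Vz z).IsHermitian := by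
      have h := Matrix.isHermitian_mul_mul_conjTranspose (Vz z) hC
      rwa [hV.eq] at h
    unfold BC Matrix.IsHermitian
    rw [Matrix.conjTranspose_add, Matrix.conjTranspose_mul, Matrix.conjTranspose_mul,
      Matrix.conjTranspose_sub, Matrix.conjTranspose_smul, Matrix.conjTranspose_one, hV.eq, hC.eq,
      Matrix.mul_assoc]
    have h2 : star (u : ℂ) = (u : ℂ) := Complex.conj_ofReal _
    rw [h2]
  have hD : ((u : ℂ) • (1 : Matrix (Fin n) (Fin n) ℂ) - BC z u C).IsHermitian := by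
    unfold Matrix.IsHermitian
    rw [Matrix.conjTranspose_sub, Matrix.conjTranspose_smul, Matrix.conjTranspose_one, hH.eq]
    have h2 : star (u : ℂ) = (u : ℂ) := Complex.conj_ofReal _
    rw [h2]
  have hreal : (((star z ⬝ᵥ (((u : ℂ) • (1 : Matrix (Fin n) (Fin n) ℂ) -
      BC z u C).mulVec z)).re : ℝ) : ℂ) = star z ⬝ᵥ (((u : ℂ) •
        (1 : Matrix (Fin n) (Fin n) ℂ) - BC z u C).mulVec z) := by
    have h := hD.im_star_dotProduct_mulVec_self z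
    refine Complex.ext ?_ ?_
    · rw [Complex.ofReal_re]
    · rw [Complex.ofReal_im]
      exact h.symm
  have hw : ((u : ℂ) • (1 : Matrix (Fin n) (Fin n) ℂ) - BC z u C).mulVec z =
      ((u : ℂ) * (1 / ((sz z : ℝ) : ℂ) ^ 2)) • z -
        (1 / ((sz z : ℝ) : ℂ)) • (Vz z * C).mulVec z := by
    rw [BC_sub, ← Matrix.mulVec_mulVec, Vz_mulVec, Matrix.mulVec_smul, Matrix.mul_sub,
      Matrix.sub_mulVec, Matrix.mul_smul, Matrix.mul_one, Matrix.smul_mulVec, Vz_mulVec, smul_sub,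
      smul_smul, smul_smul]
    have h5 : 1 / ((sz z : ℝ) : ℂ) * (u : ℂ) * (1 / ((sz z : ℝ) : ℂ)) =
        (u : ℂ) * (1 / ((sz z : ℝ) : ℂ) ^ 2) := by
      field_simp
    rw [h5]
  have hstar : Matrix.of (cj (Wz z) (Matrix.of (bord u 0 C))) =
      Wz z * blk (u : ℂ) 0 0 C * (Wz z)ᴴ := by
    have h6 : Matrix.of (bord u 0 C) = blk (u : ℂ) 0 0 C := by
      rw [bord_blk, star_zero]
    rw [h6]
    rfl
  have hbl : Wz z * blk (u : ℂ) 0 0 C * (Wz z)ᴴ =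
      blk (((u - (star z ⬝ᵥ (((u : ℂ) • (1 : Matrix (Fin n) (Fin n) ℂ) -
        BC z u C).mulVec z)).re : ℝ) : ℂ))
        (star (((u : ℂ) • (1 : Matrix (Fin n) (Fin n) ℂ) - BC z u C).mulVec z))
        (((u : ℂ) • (1 : Matrix (Fin n) (Fin n) ℂ) - BC z u C).mulVec z) (BC z u C) := by
    rw [Complex.ofReal_sub, hreal, hw, BC_eq, Wz_star, Wz_blk, blk_mul, blk_mul]
    have a1 : (1 / ((sz z : ℝ) : ℂ)) • (0 : Fin n → ℂ) +
        Matrix.vecMul (-((1 / ((sz z : ℝ) : ℂ)) • star z)) C =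
        -((1 / ((sz z : ℝ) : ℂ)) • Matrix.vecMul (star z) C) := by
      rw [smul_zero, zero_add, Matrix.neg_vecMul, Matrix.smul_vecMul]
    have a2 : (u : ℂ) • ((1 / ((sz z : ℝ) : ℂ)) • z) + (Vz z).mulVec 0 =
        ((u : ℂ) * (1 / ((sz z : ℝ) : ℂ))) • z := by
      rw [Matrix.mulVec_zero, add_zero, smul_smul]
    have a3 : Matrix.vecMulVec ((1 / ((sz z : ℝ) : ℂ)) • z) (0 : Fin n → ℂ) + Vz z * C =
        Vz z * C := by
      rw [Matrix.vecMulVec_zero, zero_add]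
    have a4 : 1 / ((sz z : ℝ) : ℂ) * (u : ℂ) +
        (-((1 / ((sz z : ℝ) : ℂ)) • star z)) ⬝ᵥ (0 : Fin n → ℂ) =
        1 / ((sz z : ℝ) : ℂ) * (u : ℂ) := by
      rw [dotProduct_zero, add_zero]
    rw [a1, a2, a3, a4]
    have hVC : star z ⬝ᵥ (Vz z * C).mulVec z = (1 / ((sz z : ℝ) : ℂ)) *
        (star z ⬝ᵥ C.mulVec z) := by
      rw [← Matrix.mulVec_mulVec, Matrix.dotProduct_mulVec, Vz_vecMul, smul_dotProduct,
        smul_eq_mul]
    have hst : star ((Vz z * C).mulVec z) = Matrix.vecMul (Matrix.vecMul (star z) C) (Vz z) := by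
      rw [Matrix.star_mulVec, Matrix.conjTranspose_mul, hV.eq, hC.eq, Matrix.vecMul_vecMul]
    have b1 : 1 / ((sz z : ℝ) : ℂ) * (u : ℂ) * (1 / ((sz z : ℝ) : ℂ)) +
        (-((1 / ((sz z : ℝ) : ℂ)) • Matrix.vecMul (star z) C)) ⬝ᵥ
          (-((1 / ((sz z : ℝ) : ℂ)) • z)) =
        (u : ℂ) - star z ⬝ᵥ (((u : ℂ) * (1 / ((sz z : ℝ) : ℂ) ^ 2)) • z -
          (1 / ((sz z : ℝ) : ℂ)) • (Vz z * C).mulVec z) := by
      rw [neg_dotProduct, dotProduct_neg, neg_neg, smul_dotProduct, dotProduct_smul,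
        dotProduct_sub, dotProduct_smul, dotProduct_smul, zz, hVC, Matrix.dotProduct_mulVec]
      simp only [smul_eq_mul]
      field_simp
      ring
    have b2 : (1 / ((sz z : ℝ) : ℂ) * (u : ℂ)) • ((1 / ((sz z : ℝ) : ℂ)) • star z) +
        Matrix.vecMul (-((1 / ((sz z : ℝ) : ℂ)) • Matrix.vecMul (star z) C)) (Vz z) =
        star (((u : ℂ) * (1 / ((sz z : ℝ) : ℂ) ^ 2)) • z -
          (1 / ((sz z : ℝ) : ℂ)) • (Vz z * C).mulVec z) := by
      have hu : star (u : ℂ) = (u : ℂ) := Complex.conj_ofReal _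
      have hsr : star (1 / ((sz z : ℝ) : ℂ)) = 1 / ((sz z : ℝ) : ℂ) := by
        rw [star_div₀, star_one, star_sz]
      have hsr2 : star ((u : ℂ) * (1 / ((sz z : ℝ) : ℂ) ^ 2)) =
          (u : ℂ) * (1 / ((sz z : ℝ) : ℂ) ^ 2) := by
        rw [star_mul', hu, star_div₀, star_one, star_pow, star_sz]
      rw [Matrix.neg_vecMul, Matrix.smul_vecMul, star_sub, star_smul, star_smul, hst, hsr, hsr2,
        smul_smul, ← sub_eq_add_neg]
      have h7 : 1 / ((sz z : ℝ) : ℂ) * (u : ℂ) * (1 / ((sz z : ℝ) : ℂ)) =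
          (u : ℂ) * (1 / ((sz z : ℝ) : ℂ) ^ 2) := by
        field_simp
      rw [h7]
    have b3 : (1 / ((sz z : ℝ) : ℂ)) • (((u : ℂ) * (1 / ((sz z : ℝ) : ℂ))) • z) +
        (Vz z * C).mulVec (-((1 / ((sz z : ℝ) : ℂ)) • z)) =
        ((u : ℂ) * (1 / ((sz z : ℝ) : ℂ) ^ 2)) • z -
          (1 / ((sz z : ℝ) : ℂ)) • (Vz z * C).mulVec z := by
      rw [Matrix.mulVec_neg, Matrix.mulVec_smul, smul_smul, ← sub_eq_add_neg]
      have h7 : 1 / ((sz z : ℝ) : ℂ) * ((u : ℂ) * (1 / ((sz z : ℝ) : ℂ))) =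
          (u : ℂ) * (1 / ((sz z : ℝ) : ℂ) ^ 2) := by
        field_simp
      rw [h7]
    have b4 : Matrix.vecMulVec (((u : ℂ) * (1 / ((sz z : ℝ) : ℂ))) • z)
        ((1 / ((sz z : ℝ) : ℂ)) • star z) + Vz z * C * Vz z =
        ((u : ℂ) * (1 / ((sz z : ℝ) : ℂ) ^ 2)) • Matrix.vecMulVec z (star z) +
          Vz z * C * Vz z := by
      rw [Matrix.smul_vecMulVec, Matrix.vecMulVec_smul, smul_smul]
      have h7 : (u : ℂ) * (1 / ((sz z : ℝ) : ℂ)) * (1 / ((sz z : ℝ) : ℂ)) =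
          (u : ℂ) * (1 / ((sz z : ℝ) : ℂ) ^ 2) := by
        field_simp
      rw [h7]
    rw [b1, b2, b3, b4]
  have hfin := hstar.trans hbl
  rw [← bord_blk] at hfin
  exact hfin

theorem Wz_det (z : Fin n → ℂ) (u : ℝ) (C : Matrix (Fin n) (Fin n) ℂ) :
    ‖((u : ℂ) • (1 : Matrix (Fin n) (Fin n) ℂ) - BC z u C).det‖ =
      ‖((u : ℂ) • (1 : Matrix (Fin n) (Fin n) ℂ) - C).det‖ / sz z ^ 2 := by
  have h := sz_pos z
  rw [BC_sub, Matrix.det_mul, Matrix.det_mul, Vz_det, norm_mul, norm_mul, Complex.norm_real,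
    Real.norm_of_nonneg (by positivity)]
  field_simp

private theorem blk_conj (W : Matrix (Fin n) (Fin n) ℂ) (u : ℂ) (D : Matrix (Fin n) (Fin n) ℂ) :
    blk 1 0 0 W * blk u 0 0 D * (blk 1 0 0 W)ᴴ = blk u 0 0 (W * D * Wᴴ) := by
  rw [blk_star, blk_mul, blk_mul]
  simp

theorem bord_diag (z : Fin n → ℂ) {W : Matrix (Fin n) (Fin n) ℂ}
    (hW : W ∈ Matrix.unitaryGroup (Fin n) ℂ) :
    ∃ U ∈ Matrix.unitaryGroup (Fin (n + 1)) ℂ, ∀ (u : ℝ) (v : Fin n → ℝ),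
      cj (Wz z) (Matrix.of (bord u 0 (cj W (dg v)))) =
        cj U (dg (Fin.cons u v : Fin (n + 1) → ℝ)) := by
  have hW1 : W * Wᴴ = 1 := Matrix.mem_unitaryGroup_iff.1 hW
  have hU : blk 1 0 0 W ∈ Matrix.unitaryGroup (Fin (n + 1)) ℂ := by
    rw [Matrix.mem_unitaryGroup_iff]
    change blk 1 0 0 W * (blk 1 0 0 W)ᴴ = 1
    have h := blk_conj W 1 1
    rw [← blk_one, Matrix.mul_one, Matrix.mul_one, hW1, ← blk_one] at h
    exact h
  refine ⟨Wz z * blk 1 0 0 W, mul_mem (Wz_unitary z) hU, fun u v => ?_⟩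
  have h1 : Matrix.of (bord u 0 (cj W (dg v))) = blk 1 0 0 W *
      dg (Fin.cons u v : Fin (n + 1) → ℝ) * (blk 1 0 0 W)ᴴ := by
    rw [blk_dg, blk_conj, bord_blk, star_zero]
    rfl
  funext i j
  unfold cj
  rw [show Matrix.of (bord u 0 fun i j => (W * dg v * Wᴴ) i j) =
    Matrix.of (bord u 0 (cj W (dg v))) from rfl, h1, Matrix.conjTranspose_mul]
  simp only [Matrix.mul_assoc]

theorem det_cj {W : Matrix (Fin n) (Fin n) ℂ} (hW : W ∈ Matrix.unitaryGroup (Fin n) ℂ) (u : ℝ)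
    (v : Fin n → ℝ) :
    ‖((u : ℂ) • (1 : Matrix (Fin n) (Fin n) ℂ) - Matrix.of (cj W (dg v))).det‖ ^ 2 *
      Dl v ^ 2 = Dl (Fin.cons u v : Fin (n + 1) → ℝ) ^ 2 := by
  have hW1 : W * Wᴴ = 1 := Matrix.mem_unitaryGroup_iff.1 hW
  have h1 : (u : ℂ) • (1 : Matrix (Fin n) (Fin n) ℂ) - Matrix.of (cj W (dg v)) =
      W * Matrix.diagonal (fun i => ((u - v i : ℝ) : ℂ)) * Wᴴ := by
    have h2 : Matrix.diagonal (fun i => ((u - v i : ℝ) : ℂ)) =
        (u : ℂ) • (1 : Matrix (Fin n) (Fin n) ℂ) - dg v := by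
      unfold dg
      rw [Matrix.smul_one_eq_diagonal, Matrix.diagonal_sub]
      push_cast
      rfl
    rw [h2, Matrix.mul_sub, Matrix.sub_mul, Matrix.mul_smul, Matrix.mul_one, Matrix.smul_mul,
      hW1]
    rfl
  have h3 : W.det * Wᴴ.det = 1 := by
    rw [← Matrix.det_mul, hW1, Matrix.det_one]
  have h4 : ((u : ℂ) • (1 : Matrix (Fin n) (Fin n) ℂ) - Matrix.of (cj W (dg v))).det =
      ((∏ i, (u - v i) : ℝ) : ℂ) := by
    rw [h1, Matrix.det_mul, Matrix.det_mul, Matrix.det_diagonal, Complex.ofReal_prod]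
    linear_combination (∏ i, ((u - v i : ℝ) : ℂ)) * h3
  rw [h4, Complex.norm_real, Real.norm_eq_abs, sq_abs, Dl_cons, mul_pow]

theorem continuous_Wz : Continuous fun z : Fin n → ℂ => Wz z := by
  have hs : Continuous fun z : Fin n → ℂ => ((sz z : ℝ) : ℂ) := by
    unfold sz nz
    fun_prop
  have hV : Continuous fun z : Fin n → ℂ => Vz z := by
    have hc : Continuous fun z : Fin n → ℂ =>
        1 / (((sz z : ℝ) : ℂ) * (((sz z : ℝ) : ℂ) + 1)) := by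
      refine continuous_const.div (hs.mul (hs.add continuous_const)) fun z => ?_
      exact mul_ne_zero (szc z) (szc1 z)
    simp only [Vz_eq]
    refine continuous_matrix fun i j => ?_
    simp only [Matrix.sub_apply, Matrix.smul_apply, Matrix.vecMulVec_apply, smul_eq_mul,
      Pi.star_apply]
    refine continuous_const.sub (hc.mul ((continuous_apply i).mul ?_))
    exact continuous_star.comp (continuous_apply j)
  have hs1 : Continuous fun z : Fin n → ℂ => 1 / ((sz z : ℝ) : ℂ) :=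
    continuous_const.div hs fun z => szc z
  refine continuous_matrix fun i j => ?_
  simp only [Wz_blk]
  refine Fin.cases ?_ (fun i => ?_) i
  · refine Fin.cases ?_ (fun j => ?_) j
    · simp only [blk00]
      exact hs1
    · simp only [blk0s, Pi.neg_apply, Pi.smul_apply, Pi.star_apply, smul_eq_mul]
      refine (hs1.mul ?_).neg
      exact continuous_star.comp (continuous_apply j)
  · refine Fin.cases ?_ (fun j => ?_) j
    · simp only [blks0, Pi.smul_apply, smul_eq_mul]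
      exact hs1.mul (continuous_apply i)
    · simp only [blkss]
      exact hV.matrix_elem i j

end Pool.Agent.MPbd65ca.Hm
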