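import Pool.Agent.Lib.MP_bd65ca_an_H.StA
import Pool.Agent.Lib.MP_bd65ca_an_H.Spl
import Pool.Agent.Lib.MP_bd65ca_an_H.Scl
import Pool.Agent.Lib.MP_bd65ca_an_H.Wzm

/-!
# The step of the Weyl inequality

PROOF. For fixed `z`, `u` apply `scl` (`V = Vz z`, `det = 1 / s`, `t = u`) to
`B ↦ g (bord (u - (z* (u - B) z).re) ((u - B) z) B) * ofReal (‖(u - B).det‖ ^ 2 * (1 + nz z))`
(continuous operations, so measurable): with `B = BC z u C`, `C = hm x` (`hm_herm`), `Wz_conj`,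
`Wz_det`:
`∫⁻ x, g (cj (Wz z) (bord u 0 C)) * ofReal (‖(u - C).det‖ ^ 2 * (1 + nz z) / s ^ 4) * s ^ (-2 n)`,
and
`(1 + nz z) / s ^ 4 / s ^ (2 n) = 1 / (1 + nz z) ^ (n + 1)` (`s ^ 2 = 1 + nz z`).  So the left
side (without
`2 ^ n`) is `∫⁻ z, ∫⁻ u, ∫⁻ x, g (bord ..) * ofReal (..)` with `B = hm x`; Tonelli, `x` outside,
`stepA`
for `B = hm x` and `g' a w = g (bord a w (hm x))`; then `split` (Tonelli again for the order of the
integrals).
-/

open MeasureTheory FourierTransform Pointwise Set Finset Matrix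
open scoped RealInnerProductSpace

namespace Pool.Agent.MPbd65ca.Hm

open Pool.Agent.MPbd65ca.Oct Pool.Agent.MPbd65ca.Bp

/-- The bordered matrix as a function of `z`, `u`, `B`. -/
private noncomputable def WSt_P {n : ℕ} (p : (Fin n → ℂ) × ℝ × MM n) : MM (n + 1) :=
  bord (p.2.1 - (star p.1 ⬝ᵥ (((p.2.1 : ℂ) • (1 : Matrix (Fin n) (Fin n) ℂ) -
      Matrix.of p.2.2).mulVec p.1)).re)
    (((p.2.1 : ℂ) • (1 : Matrix (Fin n) (Fin n) ℂ) - Matrix.of p.2.2).mulVec p.1) p.2.2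

/-- The weight. -/
private noncomputable def WSt_d {n : ℕ} (p : (Fin n → ℂ) × ℝ × MM n) : ℝ :=
  ‖((p.2.1 : ℂ) • (1 : Matrix (Fin n) (Fin n) ℂ) - Matrix.of p.2.2).det‖ ^ 2 * (1 + nz p.1)

private theorem WSt_cD {n : ℕ} : Continuous fun p : (Fin n → ℂ) × ℝ × MM n =>
    ((p.2.1 : ℂ) • (1 : Matrix (Fin n) (Fin n) ℂ) - Matrix.of p.2.2) := by
  have h1 : Continuous fun p : (Fin n → ℂ) × ℝ × MM n =>
      ((p.2.1 : ℂ) • (1 : Matrix (Fin n) (Fin n) ℂ)) :=
    (Complex.continuous_ofReal.comp (continuous_fst.comp continuous_snd)).smul continuous_const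
  have h2 : Continuous fun p : (Fin n → ℂ) × ℝ × MM n =>
      (Matrix.of p.2.2 : Matrix (Fin n) (Fin n) ℂ) := continuous_snd.comp continuous_snd
  exact h1.sub h2

private theorem WSt_cP {n : ℕ} : Continuous (WSt_P (n := n)) := by
  have h1 : Continuous fun p : (Fin n → ℂ) × ℝ × MM n =>
      ((p.2.1 : ℂ) • (1 : Matrix (Fin n) (Fin n) ℂ) - Matrix.of p.2.2).mulVec p.1 :=
    WSt_cD.matrix_mulVec continuous_fst
  have h2 : Continuous fun p : (Fin n → ℂ) × ℝ × MM n => star p.1 ⬝ᵥ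
      (((p.2.1 : ℂ) • (1 : Matrix (Fin n) (Fin n) ℂ) - Matrix.of p.2.2).mulVec p.1) :=
    (continuous_star.comp continuous_fst).dotProduct h1
  have h3 : Continuous fun p : (Fin n → ℂ) × ℝ × MM n => (p.2.1 - (star p.1 ⬝ᵥ
      (((p.2.1 : ℂ) • (1 : Matrix (Fin n) (Fin n) ℂ) - Matrix.of p.2.2).mulVec p.1)).re,
      ((p.2.1 : ℂ) • (1 : Matrix (Fin n) (Fin n) ℂ) - Matrix.of p.2.2).mulVec p.1, p.2.2) :=
    ((continuous_fst.comp continuous_snd).sub (Complex.continuous_re.comp h2)).prodMk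
      (h1.prodMk (continuous_snd.comp continuous_snd))
  exact continuous_bord.comp h3

private theorem WSt_cd {n : ℕ} : Continuous (WSt_d (n := n)) := by
  have h1 : Continuous fun p : (Fin n → ℂ) × ℝ × MM n =>
      ((p.2.1 : ℂ) • (1 : Matrix (Fin n) (Fin n) ℂ) - Matrix.of p.2.2).det :=
    WSt_cD.matrix_det
  have h2 : Continuous fun z : Fin n → ℂ => nz z := by
    unfold nz
    fun_prop
  exact (h1.norm.pow 2).mul (continuous_const.add (h2.comp continuous_fst))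

/-- The integrand. -/
private noncomputable def WSt_K {n : ℕ} (g : MM (n + 1) → ENNReal)
    (p : (Fin n → ℂ) × ℝ × MM n) : ENNReal := g (WSt_P p) * ENNReal.ofReal (WSt_d p)

private theorem WSt_mK {n : ℕ} {g : MM (n + 1) → ENNReal} (hg : Measurable g) :
    Measurable (WSt_K g) :=
  (hg.comp WSt_cP.measurable).mul (ENNReal.measurable_ofReal.comp WSt_cd.measurable)

/-- The change of variables for fixed `z`, `u`. -/
private theorem WSt_scl {n : ℕ} {g : MM (n + 1) → ENNReal} (hg : Measurable g) (z : Fin n → ℂ)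
    (u : ℝ) : ∫⁻ x : E (n * n), g (cj (Wz z) (Matrix.of (bord u 0 (hm x)))) *
        ENNReal.ofReal (‖((u : ℂ) • (1 : Matrix (Fin n) (Fin n) ℂ) - Matrix.of (hm x)).det‖ ^ 2 /
          (1 + nz z) ^ (n + 1)) = ∫⁻ x : E (n * n), WSt_K g (z, u, hm x) := by
  obtain ⟨hs2, hs1⟩ := sz_sq z
  have hs0 : 0 < sz z := lt_of_lt_of_le one_pos hs1
  have hdn : ‖(Vz z).det‖ = 1 / sz z := by
    rw [Vz_det, Complex.norm_real, Real.norm_eq_abs, abs_of_pos (by positivity)]
  have hdet : (Vz z).det ≠ 0 := by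
    rw [← norm_ne_zero_iff, hdn]
    positivity
  have hG : Measurable fun B : MM n => WSt_K g (z, u, B) :=
    (WSt_mK hg).comp (measurable_const.prodMk (measurable_const.prodMk measurable_id))
  rw [scl (Vz_herm z) hdet u hG, hdn, ← lintegral_const_mul' _ _ ENNReal.ofReal_ne_top]
  refine lintegral_congr fun x => ?_
  have h1 : WSt_K g (z, u, fun i j => ((u : ℂ) • (1 : Matrix (Fin n) (Fin n) ℂ) +
      Vz z * (Matrix.of (hm x) - (u : ℂ) • 1) * Vz z) i j) =
      g (cj (Wz z) (Matrix.of (bord u 0 (hm x)))) * ENNReal.ofReal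
        (‖((u : ℂ) • (1 : Matrix (Fin n) (Fin n) ℂ) - BC z u (Matrix.of (hm x))).det‖ ^ 2 *
          (1 + nz z)) := by
    have h2 := Wz_conj z u (hm_herm x)
    have h3 : cj (Wz z) (Matrix.of (bord u 0 (hm x))) =
      cj (Wz z) (Matrix.of (bord u 0 (Matrix.of (hm x)))) := rfl
    rw [h3, h2]
    rfl
  rw [h1, Wz_det, mul_left_comm, ← ENNReal.ofReal_mul (by positivity)]
  congr 2
  rw [← hs2, _root_.one_div_pow, ← pow_mul]
  have e : sz z ^ (2 * (n + 1)) = sz z ^ (2 * n) * sz z ^ 2 := by ring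
  rw [e]
  field_simp

theorem weyl_step {n : ℕ} {g : MM (n + 1) → ENNReal} (hg : Measurable g) :
    2 ^ n * ∫⁻ z : Fin n → ℂ, ∫⁻ u : ℝ, ∫⁻ x : E (n * n),
      g (cj (Wz z) (Matrix.of (bord u 0 (hm x)))) *
        ENNReal.ofReal (‖((u : ℂ) • (1 : Matrix (Fin n) (Fin n) ℂ) - Matrix.of (hm x)).det‖ ^ 2 /
          (1 + nz z) ^ (n + 1)) ≤
    ((n : ENNReal) + 1) * ∫⁻ x : E ((n + 1) * (n + 1)), g (hm x) := by
  have hK := WSt_mK hg
  simp only [WSt_scl hg]
  have hH : Measurable fun q : (Fin n → ℂ) × ℝ × E (n * n) => WSt_K g (q.1, q.2.1, hm q.2.2) :=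
    hK.comp (measurable_fst.prodMk ((measurable_fst.comp measurable_snd).prodMk
      (continuous_hm.measurable.comp (measurable_snd.comp measurable_snd))))
  have hF : Measurable fun q : ℝ × (Fin n → ℂ) × E (n * n) => g (bord q.1 q.2.1 (hm q.2.2)) :=
    hg.comp (continuous_bord.measurable.comp (measurable_fst.prodMk
      ((measurable_fst.comp measurable_snd).prodMk
        (continuous_hm.measurable.comp (measurable_snd.comp measurable_snd)))))
  -- the integral over `x` outside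
  have h1 : ∫⁻ z : Fin n → ℂ, ∫⁻ u : ℝ, ∫⁻ x : E (n * n), WSt_K g (z, u, hm x) =
      ∫⁻ x : E (n * n), ∫⁻ z : Fin n → ℂ, ∫⁻ u : ℝ, WSt_K g (z, u, hm x) := by
    have h2 : ∀ z : Fin n → ℂ, ∫⁻ u : ℝ, ∫⁻ x : E (n * n), WSt_K g (z, u, hm x) =
        ∫⁻ x : E (n * n), ∫⁻ u : ℝ, WSt_K g (z, u, hm x) := by
      intro z
      refine lintegral_lintegral_swap (Measurable.aemeasurable ?_)
      exact hH.comp (measurable_const.prodMk (measurable_fst.prodMk measurable_snd))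
    simp only [h2]
    refine lintegral_lintegral_swap (Measurable.aemeasurable ?_)
    have h3 : Measurable fun q : ((Fin n → ℂ) × E (n * n)) × ℝ =>
        WSt_K g (q.1.1, q.2, hm q.1.2) :=
      hH.comp ((measurable_fst.comp measurable_fst).prodMk (measurable_snd.prodMk
        (measurable_snd.comp measurable_fst)))
    exact h3.lintegral_prod_right'
  rw [h1]
  -- the integral over `z`, `u`
  have h4 : ∀ x : E (n * n), ∫⁻ z : Fin n → ℂ, ∫⁻ u : ℝ, WSt_K g (z, u, hm x) ≤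
      ((n : ENNReal) + 1) * ∫⁻ w : Fin n → ℂ, ∫⁻ a : ℝ, g (bord a w (hm x)) := by
    intro x
    have hg' : Measurable (Function.uncurry fun (a : ℝ) (w : Fin n → ℂ) =>
        g (bord a w (hm x))) :=
      hF.comp (measurable_fst.prodMk (measurable_snd.prodMk measurable_const))
    exact stepA (hm_herm x) hg'
  have h5 : ∫⁻ x : E (n * n), ∫⁻ w : Fin n → ℂ, ∫⁻ a : ℝ, g (bord a w (hm x)) =
      ∫⁻ a : ℝ, ∫⁻ w : Fin n → ℂ, ∫⁻ x : E (n * n), g (bord a w (hm x)) := by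
    have e1 : ∫⁻ x : E (n * n), ∫⁻ w : Fin n → ℂ, ∫⁻ a : ℝ, g (bord a w (hm x)) =
        ∫⁻ w : Fin n → ℂ, ∫⁻ x : E (n * n), ∫⁻ a : ℝ, g (bord a w (hm x)) := by
      refine lintegral_lintegral_swap (Measurable.aemeasurable ?_)
      have h3 : Measurable fun q : (E (n * n) × (Fin n → ℂ)) × ℝ =>
          g (bord q.2 q.1.2 (hm q.1.1)) :=
        hF.comp (measurable_snd.prodMk ((measurable_snd.comp measurable_fst).prodMk
          (measurable_fst.comp measurable_fst)))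
      exact h3.lintegral_prod_right'
    have e2 : ∀ w : Fin n → ℂ, ∫⁻ x : E (n * n), ∫⁻ a : ℝ, g (bord a w (hm x)) =
        ∫⁻ a : ℝ, ∫⁻ x : E (n * n), g (bord a w (hm x)) := by
      intro w
      refine lintegral_lintegral_swap (Measurable.aemeasurable ?_)
      exact hF.comp (measurable_snd.prodMk (measurable_const.prodMk measurable_fst))
    rw [e1]
    simp only [e2]
    refine lintegral_lintegral_swap (Measurable.aemeasurable ?_)
    have h3 : Measurable fun q : ((Fin n → ℂ) × ℝ) × E (n * n) =>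
        g (bord q.1.2 q.1.1 (hm q.2)) :=
      hF.comp ((measurable_snd.comp measurable_fst).prodMk
        ((measurable_fst.comp measurable_fst).prodMk measurable_snd))
    exact h3.lintegral_prod_right'
  have hne : ((n : ENNReal) + 1) ≠ ⊤ := by
    exact_mod_cast ENNReal.natCast_ne_top (n + 1)
  calc 2 ^ n * ∫⁻ x : E (n * n), ∫⁻ z : Fin n → ℂ, ∫⁻ u : ℝ, WSt_K g (z, u, hm x)
      ≤ 2 ^ n * ∫⁻ x : E (n * n),
          ((n : ENNReal) + 1) * ∫⁻ w : Fin n → ℂ, ∫⁻ a : ℝ, g (bord a w (hm x)) :=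
        mul_le_mul_right (lintegral_mono h4) _
    _ = ((n : ENNReal) + 1) * ∫⁻ x : E ((n + 1) * (n + 1)), g (hm x) := by
        rw [lintegral_const_mul' _ _ hne, h5, split hg]
        ring

end Pool.Agent.MPbd65ca.Hm
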