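import Pool.Agent.Lib.MP_bd65ca_an_H.WSt
import Pool.Agent.Lib.MP_bd65ca_an_H.Jn

/-!
# The Weyl integration inequality

PROOF. Induction on `n` for all `Y`, `ν`, `G`, `c`.  `n = 0`: `Fin 0 → ℝ` and `E 0` have total
mass `1`,
`MM 0` is a subsingleton, `Dl = 1`, `Om 0 = 1`; take `W = 1`.
Step: `Y' = Y × ((Fin n → ℂ) × ℝ)` with the product measure,
`G' (y, z, u) A = G y (cj (Wz z) (bord u 0 A)) * ofReal (‖(u - A).det‖ ^ 2 / (1 + nz z) ^ (n + 1))`
(measurable: the matrix operations are continuous, `continuous_Wz`, `continuous_bord`).  For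
unitary `W`
and each `z` take `U` from `bord_diag`; by `det_cj` and Tonelli
`∫⁻ y, ∫⁻ z, ∫⁻ u, ∫⁻ v, G' (y, z, u) (cj W (dg v)) * ofReal (Dl v ^ 2)
  = ∫⁻ z, ofReal (1 / (1 + nz z) ^ (n + 1)) * ∫⁻ y, ∫⁻ u', G y (cj U (dg u')) * ofReal (Dl u' ^ 2)`
(`u' = Fin.cons u v`: `volume_preserving_piFinSuccAbove` at `0`), which is `≥ c' := c * ofReal (π
^ n / n!)`
by `Jn`.  The induction hypothesis: `ofReal (Om n) * c' ≤ n! * ∫⁻ y, ∫⁻ z, ∫⁻ u, ∫⁻ x, G' ..`, and
`2 ^ n * ∫⁻ z, ∫⁻ u, ∫⁻ x, G' .. ≤ (n + 1) * ∫⁻ x, G y (hm x)` (`weyl_step`), so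
`ofReal (Om (n + 1)) * c = 2 ^ n * ofReal (Om n) * c' ≤ (n + 1)! * ∫⁻ y, ∫⁻ x, G y (hm x)`.
-/

open MeasureTheory FourierTransform Pointwise Set Finset Matrix
open scoped RealInnerProductSpace

namespace Pool.Agent.MPbd65ca.Hm

open Pool.Agent.MPbd65ca.Oct Pool.Agent.MPbd65ca.Bp

private theorem cont_cj (n : ℕ) : Continuous fun p : (Fin n → ℂ) × ℝ × MM n =>
    cj (Wz p.1) (Matrix.of (bord p.2.1 0 p.2.2)) := by
  have h1 : Continuous fun p : (Fin n → ℂ) × ℝ × MM n => Wz p.1 :=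
    continuous_Wz.comp continuous_fst
  have h2 : Continuous fun p : (Fin n → ℂ) × ℝ × MM n =>
      (Matrix.of (bord p.2.1 0 p.2.2) : Matrix (Fin (n + 1)) (Fin (n + 1)) ℂ) :=
    continuous_bord.comp (continuous_snd.fst.prodMk (continuous_const.prodMk continuous_snd.snd))
  exact (h1.matrix_mul h2).matrix_mul h1.matrix_conjTranspose

private theorem cont_det (n : ℕ) : Continuous fun p : (Fin n → ℂ) × ℝ × MM n =>
    ‖((p.2.1 : ℂ) • (1 : Matrix (Fin n) (Fin n) ℂ) - Matrix.of p.2.2).det‖ ^ 2 := by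
  have h1 : Continuous fun p : (Fin n → ℂ) × ℝ × MM n =>
      (p.2.1 : ℂ) • (1 : Matrix (Fin n) (Fin n) ℂ) := by
    refine Continuous.smul (Complex.continuous_ofReal.comp continuous_snd.fst) continuous_const
  have h2 : Continuous fun p : (Fin n → ℂ) × ℝ × MM n =>
      (Matrix.of p.2.2 : Matrix (Fin n) (Fin n) ℂ) := continuous_snd.snd
  exact ((h1.sub h2).matrix_det.norm).pow 2

private theorem cont_nz (n : ℕ) : Continuous fun z : Fin n → ℂ => nz z := by
  unfold nz
  fun_prop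

private theorem nz_pos {n : ℕ} (z : Fin n → ℂ) : 0 < 1 + nz z := by
  have : 0 ≤ nz z := Finset.sum_nonneg fun i _ => by positivity
  linarith

/-- The function of the induction step. -/
private noncomputable def G' {Y : Type} {n : ℕ} (G : Y → MM (n + 1) → ENNReal)
    (q : Y × ((Fin n → ℂ) × ℝ)) (A : MM n) : ENNReal :=
  G q.1 (cj (Wz q.2.1) (Matrix.of (bord q.2.2 0 A))) *
    ENNReal.ofReal (‖((q.2.2 : ℂ) • (1 : Matrix (Fin n) (Fin n) ℂ) - Matrix.of A).det‖ ^ 2 /
      (1 + nz q.2.1) ^ (n + 1))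

private theorem meas_G' {Y : Type} [MeasurableSpace Y] {n : ℕ} {G : Y → MM (n + 1) → ENNReal}
    (hG : Measurable (Function.uncurry G)) : Measurable (Function.uncurry (G' G)) := by
  have hp : Measurable fun p : (Y × ((Fin n → ℂ) × ℝ)) × MM n => (p.1.2.1, p.1.2.2, p.2) :=
    measurable_fst.snd.fst.prodMk (measurable_fst.snd.snd.prodMk measurable_snd)
  have h1 := hG.comp ((measurable_fst.fst (α := (Y × ((Fin n → ℂ) × ℝ)) × MM n)).prodMk
    ((cont_cj n).measurable.comp hp))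
  have h2 := (cont_det n).measurable.comp hp
  have h3 : Measurable fun p : (Y × ((Fin n → ℂ) × ℝ)) × MM n => (1 + nz p.1.2.1) ^ (n + 1) :=
    (((cont_nz n).measurable.comp measurable_fst.snd.fst).const_add 1).pow_const _
  have h4 := h1.mul (h2.div h3).ennreal_ofReal
  exact h4

private theorem meas_cj {n : ℕ} (W : Matrix (Fin n) (Fin n) ℂ) :
    Measurable fun v : Fin n → ℝ => cj W (dg v) := by
  have h1 : Continuous fun v : Fin n → ℝ => dg v := by
    unfold dg
    refine Continuous.matrix_diagonal ?_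
    fun_prop
  have h2 : Continuous fun v : Fin n → ℝ => W * dg v * Wᴴ :=
    (continuous_const.matrix_mul h1).matrix_mul continuous_const
  have h3 : Continuous fun v : Fin n → ℝ => (cj W (dg v) : MM n) := h2
  exact h3.measurable

private theorem meas_Dl (n : ℕ) : Measurable fun v : Fin n → ℝ => ENNReal.ofReal (Dl v ^ 2) := by
  unfold Dl
  fun_prop

/-- Integration over the first coordinate and the others. -/
private theorem cons_int {n : ℕ} {f : (Fin (n + 1) → ℝ) → ENNReal} (hf : Measurable f) :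
    ∫⁻ u : ℝ, ∫⁻ v : Fin n → ℝ, f (Fin.cons u v : Fin (n + 1) → ℝ) = ∫⁻ w, f w := by
  have he := (volume_preserving_piFinSuccAbove (fun _ : Fin (n + 1) => ℝ) 0).symm
  rw [← he.lintegral_comp_emb (MeasurableEquiv.measurableEmbedding _), Measure.volume_eq_prod,
    lintegral_prod]
  · refine lintegral_congr fun u => lintegral_congr fun v => ?_
    congr 1
    funext i
    refine Fin.cases ?_ (fun j => ?_) i <;> rfl
  · exact (hf.comp (MeasurableEquiv.measurable _)).aemeasurable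

private theorem base {Y : Type} [MeasurableSpace Y] (ν : Measure Y)
    (G : Y → MM 0 → ENNReal) (c : ENNReal)
    (h : ∀ W ∈ Matrix.unitaryGroup (Fin 0) ℂ, c ≤ ∫⁻ y, ∫⁻ u : Fin 0 → ℝ,
        G y (cj W (dg u)) * ENNReal.ofReal (Dl u ^ 2) ∂volume ∂ν) :
    ENNReal.ofReal (Om 0) * c ≤ (Nat.factorial 0 : ENNReal) *
      ∫⁻ y, ∫⁻ x : E (0 * 0), G y (hm x) ∂volume ∂ν := by
  have h1 : ∀ y, ∫⁻ u : Fin 0 → ℝ, G y (cj 1 (dg u)) * ENNReal.ofReal (Dl u ^ 2) = G y 0 := by
    intro y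
    have h2 : ∀ u : Fin 0 → ℝ, G y (cj 1 (dg u)) * ENNReal.ofReal (Dl u ^ 2) = G y 0 := by
      intro u
      rw [Subsingleton.elim (cj 1 (dg u)) (0 : MM 0)]
      simp [Dl]
    simp only [h2]
    simp [volume_pi]
  have h3 : ∀ y, ∫⁻ x : E (0 * 0), G y (hm x) = G y 0 := by
    intro y
    have h2 : ∀ x : E (0 * 0), G y (hm x) = G y 0 := by
      intro x
      rw [Subsingleton.elim (hm x) (0 : MM 0)]
    have h4 : (volume : Measure (E (0 * 0))) univ = 1 := by
      have h5 := (PiLp.volume_preserving_ofLp (Fin (0 * 0))).measure_preimage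
        (s := univ) MeasurableSet.univ.nullMeasurableSet
      rw [preimage_univ] at h5
      rw [h5]
      simp [volume_pi]
    simp only [h2]
    rw [lintegral_const, h4, mul_one]
  have h5 := h 1 (one_mem _)
  simp only [h1] at h5
  simp only [h3]
  simpa [Om] using h5

private theorem step_low {Y : Type} [MeasurableSpace Y] (ν : Measure Y) [SFinite ν] {n : ℕ}
    {G : Y → MM (n + 1) → ENNReal} (hG : Measurable (Function.uncurry G)) {c : ENNReal}
    (h : ∀ W ∈ Matrix.unitaryGroup (Fin (n + 1)) ℂ, c ≤ ∫⁻ y, ∫⁻ u : Fin (n + 1) → ℝ,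
        G y (cj W (dg u)) * ENNReal.ofReal (Dl u ^ 2) ∂volume ∂ν)
    {W : Matrix (Fin n) (Fin n) ℂ} (hW : W ∈ Matrix.unitaryGroup (Fin n) ℂ) :
    c * ENNReal.ofReal (Real.pi ^ n / n.factorial) ≤
      ∫⁻ q, ∫⁻ v : Fin n → ℝ, G' G q (cj W (dg v)) * ENNReal.ofReal (Dl v ^ 2) ∂volume
        ∂(ν.prod (volume : Measure ((Fin n → ℂ) × ℝ))) := by
  have hm2 : Measurable fun p : (Y × ((Fin n → ℂ) × ℝ)) × (Fin n → ℝ) =>
      G' G p.1 (cj W (dg p.2)) * ENNReal.ofReal (Dl p.2 ^ 2) :=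
    ((meas_G' hG).comp (measurable_fst.prodMk ((meas_cj W).comp measurable_snd))).mul
      ((meas_Dl n).comp measurable_snd)
  have hm1 : Measurable fun q : Y × ((Fin n → ℂ) × ℝ) => ∫⁻ v : Fin n → ℝ,
      G' G q (cj W (dg v)) * ENNReal.ofReal (Dl v ^ 2) := hm2.lintegral_prod_right'
  rw [lintegral_prod_symm' _ hm1, Measure.volume_eq_prod (Fin n → ℂ) ℝ, lintegral_prod _
    (hm1.lintegral_prod_left').aemeasurable, ← Jn n, mul_comm, ← lintegral_mul_const'']
  · refine lintegral_mono fun z => ?_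
    obtain ⟨U, hU, hUv⟩ := bord_diag z hW
    have hz := nz_pos z
    have h1 : ∀ (y : Y) (u : ℝ) (v : Fin n → ℝ), G' G (y, (z, u)) (cj W (dg v)) *
        ENNReal.ofReal (Dl v ^ 2) = ENNReal.ofReal (1 / (1 + nz z) ^ (n + 1)) *
          (G y (cj U (dg (Fin.cons u v : Fin (n + 1) → ℝ))) *
            ENNReal.ofReal (Dl (Fin.cons u v : Fin (n + 1) → ℝ) ^ 2)) := by
      intro y u v
      have h2 := det_cj hW u v
      have h3 := hUv u v
      unfold G'
      simp only
      rw [h3, ← h2, mul_assoc, ← ENNReal.ofReal_mul (by positivity), mul_left_comm,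
        ← ENNReal.ofReal_mul (by positivity)]
      congr 2
      ring
    have hsw : Measurable fun p : ℝ × Y => ∫⁻ v : Fin n → ℝ,
        G' G (p.2, (z, p.1)) (cj W (dg v)) * ENNReal.ofReal (Dl v ^ 2) :=
      hm1.comp (measurable_snd.prodMk (measurable_const.prodMk measurable_fst))
    simp only
    rw [lintegral_lintegral_swap (f := fun (u : ℝ) (y : Y) => ∫⁻ v : Fin n → ℝ,
        G' G (y, (z, u)) (cj W (dg v)) * ENNReal.ofReal (Dl v ^ 2)) hsw.aemeasurable]
    simp only [h1]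
    have hy : ∀ y, ∫⁻ u : ℝ, ∫⁻ v : Fin n → ℝ, ENNReal.ofReal (1 / (1 + nz z) ^ (n + 1)) *
        (G y (cj U (dg (Fin.cons u v : Fin (n + 1) → ℝ))) *
          ENNReal.ofReal (Dl (Fin.cons u v : Fin (n + 1) → ℝ) ^ 2)) =
        ENNReal.ofReal (1 / (1 + nz z) ^ (n + 1)) * ∫⁻ w : Fin (n + 1) → ℝ,
          G y (cj U (dg w)) * ENNReal.ofReal (Dl w ^ 2) := by
      intro y
      have hf : Measurable fun w : Fin (n + 1) → ℝ =>
          G y (cj U (dg w)) * ENNReal.ofReal (Dl w ^ 2) :=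
        (hG.comp (measurable_const.prodMk (meas_cj U))).mul (meas_Dl (n + 1))
      simp only [lintegral_const_mul' _ _ ENNReal.ofReal_ne_top]
      rw [cons_int hf]
    simp only [hy]
    rw [lintegral_const_mul' _ _ ENNReal.ofReal_ne_top]
    exact mul_le_mul_right (h U hU) _
  · exact (Measurable.ennreal_ofReal (measurable_const.div
      (((cont_nz n).measurable.const_add 1).pow_const _))).aemeasurable

private theorem step_up {Y : Type} [MeasurableSpace Y] (ν : Measure Y) [SFinite ν] {n : ℕ}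
    {G : Y → MM (n + 1) → ENNReal} (hG : Measurable (Function.uncurry G)) :
    2 ^ n * ∫⁻ q, ∫⁻ x : E (n * n), G' G q (hm x) ∂volume
        ∂(ν.prod (volume : Measure ((Fin n → ℂ) × ℝ))) ≤
      ((n : ENNReal) + 1) * ∫⁻ y, ∫⁻ x : E ((n + 1) * (n + 1)), G y (hm x) ∂volume ∂ν := by
  have hm2 : Measurable fun p : (Y × ((Fin n → ℂ) × ℝ)) × E (n * n) => G' G p.1 (hm p.2) :=
    (meas_G' hG).comp (measurable_fst.prodMk (continuous_hm.measurable.comp measurable_snd))
  have hm1 : Measurable fun q : Y × ((Fin n → ℂ) × ℝ) => ∫⁻ x : E (n * n), G' G q (hm x) :=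
    hm2.lintegral_prod_right'
  rw [lintegral_prod _ hm1.aemeasurable, ← lintegral_const_mul' _ _ (by simp),
    ← lintegral_const_mul' _ _ (by finiteness)]
  refine lintegral_mono fun y => ?_
  have hgy : Measurable (G y) := hG.comp measurable_prodMk_left
  have hmy : Measurable fun b : (Fin n → ℂ) × ℝ => ∫⁻ x : E (n * n), G' G (y, b) (hm x) :=
    hm1.comp measurable_prodMk_left
  rw [Measure.volume_eq_prod (Fin n → ℂ) ℝ, lintegral_prod _ hmy.aemeasurable]
  exact weyl_step hgy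

theorem weyl (n : ℕ) : ∀ {Y : Type} [MeasurableSpace Y] (ν : Measure Y) [SFinite ν]
    (G : Y → MM n → ENNReal), Measurable (Function.uncurry G) → ∀ c : ENNReal,
      (∀ W ∈ Matrix.unitaryGroup (Fin n) ℂ, c ≤ ∫⁻ y, ∫⁻ u : Fin n → ℝ,
        G y (cj W (dg u)) * ENNReal.ofReal (Dl u ^ 2) ∂volume ∂ν) →
      ENNReal.ofReal (Om n) * c ≤ (n.factorial : ENNReal) *
        ∫⁻ y, ∫⁻ x : E (n * n), G y (hm x) ∂volume ∂ν := by
  induction n with
  | zero =>
    intro Y _ ν _ G _ c h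
    exact base ν G c h
  | succ n ih =>
    intro Y _ ν _ G hG c h
    have h1 := ih (ν.prod (volume : Measure ((Fin n → ℂ) × ℝ))) (G' G) (meas_G' hG)
      (c * ENNReal.ofReal (Real.pi ^ n / n.factorial)) (fun W hW => step_low ν hG h hW)
    have h2 := step_up (n := n) ν hG
    have h3 : ENNReal.ofReal (Om (n + 1)) * c = 2 ^ n * (ENNReal.ofReal (Om n) *
        (c * ENNReal.ofReal (Real.pi ^ n / n.factorial))) := by
      have h4 : Om (n + 1) = 2 ^ n * (Om n * (Real.pi ^ n / n.factorial)) := by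
        unfold Om
        rw [Finset.prod_range_succ, mul_pow]
        ring
      have h5 : 0 ≤ Om n := by
        unfold Om
        positivity
      rw [h4, ENNReal.ofReal_mul (by positivity), ENNReal.ofReal_mul h5,
        ENNReal.ofReal_pow (by norm_num), ENNReal.ofReal_ofNat]
      ring
    rw [h3, Nat.factorial_succ, Nat.cast_mul]
    calc 2 ^ n * (ENNReal.ofReal (Om n) * (c * ENNReal.ofReal (Real.pi ^ n / n.factorial)))
        ≤ 2 ^ n * ((n.factorial : ENNReal) * ∫⁻ q, ∫⁻ x : E (n * n), G' G q (hm x) ∂volume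
          ∂(ν.prod (volume : Measure ((Fin n → ℂ) × ℝ)))) := mul_le_mul_right h1 _
      _ = (n.factorial : ENNReal) * (2 ^ n * ∫⁻ q, ∫⁻ x : E (n * n), G' G q (hm x) ∂volume
          ∂(ν.prod (volume : Measure ((Fin n → ℂ) × ℝ)))) := by ring
      _ ≤ (n.factorial : ENNReal) * (((n : ENNReal) + 1) *
          ∫⁻ y, ∫⁻ x : E ((n + 1) * (n + 1)), G y (hm x) ∂volume ∂ν) := mul_le_mul_right h2 _
      _ = _ := by
        push_cast
        ring

/-- The case without parameters. -/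
theorem weyl_one (n : ℕ) {G : MM n → ENNReal} (hG : Measurable G) {c : ENNReal}
    (h : ∀ W ∈ Matrix.unitaryGroup (Fin n) ℂ, c ≤ ∫⁻ u : Fin n → ℝ,
      G (cj W (dg u)) * ENNReal.ofReal (Dl u ^ 2)) :
    ENNReal.ofReal (Om n) * c ≤ (n.factorial : ENNReal) * ∫⁻ x : E (n * n), G (hm x) := by
  have h1 := weyl n (Measure.dirac ()) (fun _ : Unit => G) (hG.comp measurable_snd) c
    (fun W hW => by
      rw [lintegral_dirac]
      exact h W hW)
  rwa [lintegral_dirac] at h1

end Pool.Agent.MPbd65ca.Hm
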